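import Mathlib

set_option autoImplicit false

/-! A function on the critical line is bounded by its primitive, up to `T ^ ε`. -/

open Complex MeasureTheory Set Filter Topology

namespace Pool.Agent.N30.HM

/-- the maximum principle in a rectangle, with weights -/
theorem half {g : ℂ → ℂ} {r B E ρ : ℝ} (hr : 0 < r) (hB : 0 ≤ B) (hE : 1 ≤ E) (hρr : ρ ≤ r)
    (hd : DifferentiableOn ℂ g (Icc 0 r ×ℂ Icc (-r) r))
    (h0 : ∀ y : ℝ, |y| ≤ r → ‖g ((y : ℂ) * I)‖ ≤ B)
    (h1 : ∀ w ∈ Icc (0 : ℝ) r ×ℂ Icc (-r) r, ‖g w‖ ≤ B * E) :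
    ∀ w : ℂ, 0 ≤ w.re → ‖w‖ ≤ ρ → ‖g w‖ ≤ B * E ^ (3 * ρ / r) := by
  intro w hw hwρ
  have hρ0 : 0 ≤ ρ := (norm_nonneg _).trans hwρ
  obtain ⟨M, hM⟩ : ∃ M, M = Real.log E / r ^ 2 := ⟨_, rfl⟩
  have hlE : 0 ≤ Real.log E := Real.log_nonneg hE
  have hM0 : 0 ≤ M := by rw [hM]; positivity
  have hMr : M * r ^ 2 = Real.log E := by rw [hM]; field_simp
  obtain ⟨f, hf⟩ : ∃ f : ℂ → ℂ, f = fun w => g w * cexp ((M : ℂ) * w ^ 2 - 2 * M * r * w) := ⟨_, rfl⟩
  have hfn : ∀ w : ℂ, ‖f w‖ = ‖g w‖ * Real.exp (M * (w.re ^ 2 - w.im ^ 2) - 2 * M * r * w.re) := by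
    intro w
    rw [hf]
    simp only
    rw [norm_mul, Complex.norm_exp]
    congr 2
    have e : (M : ℂ) * w ^ 2 - 2 * M * r * w = (((M * (w.re ^ 2 - w.im ^ 2) - 2 * M * r * w.re : ℝ)) : ℂ) +
        ((2 * M * w.re * w.im - 2 * M * r * w.im : ℝ) : ℂ) * I := by
      apply Complex.ext
      · simp [sq]
      · simp [sq]; ring
    rw [e, Complex.add_re, Complex.ofReal_re, Complex.re_ofReal_mul, Complex.I_re, mul_zero, add_zero]
  set U : Set ℂ := Ioo (0 : ℝ) r ×ℂ Ioo (-r) r with hU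
  have hcl : closure U = Icc (0 : ℝ) r ×ℂ Icc (-r) r := by
    rw [hU, Complex.closure_reProdIm, closure_Ioo (by linarith), closure_Ioo (by linarith)]
  have hfr : ∀ z ∈ frontier U, (z ∈ Icc (0 : ℝ) r ×ℂ Icc (-r) r) ∧
      (z.re = 0 ∨ z.re = r ∨ z.im = -r ∨ z.im = r) := by
    intro z hz
    have hUo : IsOpen U := isOpen_Ioo.reProdIm isOpen_Ioo
    rw [frontier, hcl, hUo.interior_eq] at hz
    obtain ⟨hz1, hz3⟩ := hz
    refine ⟨hz1, ?_⟩
    have a1 : z.re ∈ Icc (0 : ℝ) r := hz1.1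
    have a2 : z.im ∈ Icc (-r) r := hz1.2
    by_contra hcon
    push Not at hcon
    apply hz3
    exact ⟨⟨lt_of_le_of_ne a1.1 (Ne.symm hcon.1), lt_of_le_of_ne a1.2 hcon.2.1⟩,
      ⟨lt_of_le_of_ne a2.1 (Ne.symm hcon.2.2.1), lt_of_le_of_ne a2.2 hcon.2.2.2⟩⟩
  have hbdd : Bornology.IsBounded U := by
    apply Bornology.IsBounded.reProdIm (Metric.isBounded_Ioo _ _) (Metric.isBounded_Ioo _ _)
  have hdc : DiffContOnCl ℂ f U := by
    apply DifferentiableOn.diffContOnCl
    rw [hcl, hf]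
    apply hd.mul
    apply Differentiable.differentiableOn
    fun_prop
  have hboundary : ∀ z ∈ frontier U, ‖f z‖ ≤ B := by
    intro z hz
    obtain ⟨hz1, hcase⟩ := hfr z hz
    have a1 : z.re ∈ Icc (0 : ℝ) r := hz1.1
    have a2 : z.im ∈ Icc (-r) r := hz1.2
    rw [hfn]
    rcases hcase with hc | hc
    · have e : z = (z.im : ℂ) * I := by
        apply Complex.ext <;> simp [hc]
      have h2 : ‖g z‖ ≤ B := by
        rw [e]
        exact h0 z.im (abs_le.2 a2)
      have h3 : Real.exp (M * (z.re ^ 2 - z.im ^ 2) - 2 * M * r * z.re) ≤ 1 := by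
        rw [Real.exp_le_one_iff, hc]
        have : 0 ≤ M * z.im ^ 2 := by positivity
        linarith
      calc _ ≤ B * 1 := mul_le_mul h2 h3 (Real.exp_pos _).le hB
        _ = B := mul_one _
    · have h2 := h1 z hz1
      have h3 : M * (z.re ^ 2 - z.im ^ 2) - 2 * M * r * z.re ≤ -Real.log E := by
        rw [← hMr]
        rcases hc with hc | hc | hc
        · rw [hc]
          have : 0 ≤ M * z.im ^ 2 := by positivity
          nlinarith
        · rw [hc]
          have h4 : 0 ≤ M * (z.re * (2 * r - z.re)) := by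
            apply mul_nonneg hM0
            exact mul_nonneg a1.1 (by linarith [a1.2])
          nlinarith
        · rw [hc]
          have h4 : 0 ≤ M * (z.re * (2 * r - z.re)) := by
            apply mul_nonneg hM0
            exact mul_nonneg a1.1 (by linarith [a1.2])
          nlinarith
      have h4 : Real.exp (M * (z.re ^ 2 - z.im ^ 2) - 2 * M * r * z.re) ≤ E⁻¹ := by
        have e : E⁻¹ = Real.exp (-Real.log E) := by
          rw [Real.exp_neg, Real.exp_log (by linarith : 0 < E)]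
        rw [e]
        exact Real.exp_le_exp.2 h3
      calc _ ≤ (B * E) * E⁻¹ := mul_le_mul h2 h4 (Real.exp_pos _).le (by positivity)
        _ = B := by field_simp
  have hre : w.re ≤ ρ := (Complex.re_le_norm w).trans hwρ
  have him : |w.im| ≤ ρ := (Complex.abs_im_le_norm w).trans hwρ
  have hmem : w ∈ closure U := by
    rw [hcl]
    exact ⟨⟨hw, hre.trans hρr⟩, abs_le.1 (him.trans hρr)⟩
  have hmax := Complex.norm_le_of_forall_mem_frontier_norm_le hbdd hdc hboundary hmem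
  rw [hfn] at hmax
  have h5 : -(Real.log E * (3 * ρ / r)) ≤ M * (w.re ^ 2 - w.im ^ 2) - 2 * M * r * w.re := by
    have e : Real.log E * (3 * ρ / r) = M * (3 * ρ * r) := by
      rw [← hMr]; field_simp
    rw [e]
    have h6 : w.im ^ 2 ≤ ρ * r := by
      have : |w.im| ^ 2 ≤ ρ * r := by
        rw [sq]
        exact mul_le_mul him (him.trans hρr) (abs_nonneg _) hρ0
      rwa [sq_abs] at this
    have h7 : 0 ≤ M * (ρ * r - w.im ^ 2) := mul_nonneg hM0 (by linarith)
    have h8 : 0 ≤ M * (2 * r * (ρ - w.re)) := mul_nonneg hM0 (mul_nonneg (by linarith) (by linarith))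
    have h9 : 0 ≤ M * w.re ^ 2 := by positivity
    nlinarith
  have h6 : (E ^ (3 * ρ / r))⁻¹ ≤ Real.exp (M * (w.re ^ 2 - w.im ^ 2) - 2 * M * r * w.re) := by
    rw [Real.rpow_def_of_pos (by linarith), ← Real.exp_neg]
    exact Real.exp_le_exp.2 h5
  have h7 : 0 < E ^ (3 * ρ / r) := Real.rpow_pos_of_pos (by linarith) _
  have h8 : ‖g w‖ * (E ^ (3 * ρ / r))⁻¹ ≤ B := (mul_le_mul_of_nonneg_left h6 (norm_nonneg _)).trans hmax
  rw [← div_eq_mul_inv, div_le_iff₀ h7] at h8
  exact h8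

/-- the value of `F` at a point of the line, from the size of its primitive on the line -/
theorem point {F : ℂ → ℂ} {B E ρ : ℝ} (c : ℂ) (hB : 0 ≤ B) (hE : 1 ≤ E) (hρ : 0 < ρ) (hρr : ρ ≤ 1 / 6)
    (hd : DifferentiableOn ℂ F (Metric.ball c (1 / 4))) (hF : ∀ s ∈ Metric.ball c (1 / 4), ‖F s‖ ≤ B * E)
    (hp : ∀ y : ℝ, |y| ≤ 1 / 6 → ‖∫ u in (0 : ℝ)..y, F (c + (u : ℂ) * I)‖ ≤ B) :
    ‖F c‖ ≤ B * E ^ (18 * ρ) / ρ := by
  obtain ⟨G0, hG0⟩ := hd.isExactOn_ball
  obtain ⟨G, hG⟩ : ∃ G : ℂ → ℂ, G = fun s => G0 s - G0 c := ⟨_, rfl⟩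
  have hGd : ∀ s ∈ Metric.ball c (1 / 4), HasDerivAt G (F s) s := by
    intro s hs
    rw [hG]
    exact (hG0 s hs).sub_const _
  have hGc : G c = 0 := by rw [hG]; simp
  have hc : c ∈ Metric.ball c (1 / 4 : ℝ) := Metric.mem_ball_self (by norm_num)
  have hGn : ∀ s ∈ Metric.ball c (1 / 4 : ℝ), ‖G s‖ ≤ B * E := by
    intro s hs
    have h1 := (convex_ball c (1 / 4 : ℝ)).norm_image_sub_le_of_norm_hasDerivWithin_le
      (f := G) (f' := F) (C := B * E) (x := c) (y := s)
      (fun z hz => (hGd z hz).hasDerivWithinAt) hF hc hs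
    rw [hGc, sub_zero] at h1
    have h2 : ‖s - c‖ ≤ 1 := by
      rw [Metric.mem_ball, dist_eq_norm] at hs
      linarith
    calc ‖G s‖ ≤ B * E * ‖s - c‖ := h1
      _ ≤ B * E * 1 := mul_le_mul_of_nonneg_left h2 (by positivity)
      _ = _ := mul_one _
  have hball : ∀ τ : ℝ, (τ = 1 ∨ τ = -1) → ∀ w ∈ Icc (0 : ℝ) (1 / 6) ×ℂ Icc (-(1 / 6) : ℝ) (1 / 6),
      c + (τ : ℂ) * w ∈ Metric.ball c (1 / 4 : ℝ) := by
    intro τ hτ w hw
    rw [Metric.mem_ball, dist_eq_norm, add_sub_cancel_left, norm_mul]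
    have h1 : ‖(τ : ℂ)‖ = 1 := by
      rcases hτ with h | h <;> rw [h] <;> simp
    rw [h1, one_mul]
    have a1 : w.re ∈ Icc (0 : ℝ) (1 / 6) := hw.1
    have a2 : w.im ∈ Icc (-(1 / 6) : ℝ) (1 / 6) := hw.2
    have h2 : ‖w‖ ^ 2 ≤ 1 / 18 := by
      rw [← Complex.normSq_eq_norm_sq, Complex.normSq_apply]
      nlinarith [a1.1, a1.2, a2.1, a2.2]
    have h3 : 0 ≤ ‖w‖ := norm_nonneg _
    nlinarith
  have hline : ∀ y : ℝ, |y| ≤ 1 / 6 → ‖G (c + (y : ℂ) * I)‖ ≤ B := by
    intro y hy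
    have h1 : ∀ u ∈ uIcc (0 : ℝ) y, HasDerivAt (fun u : ℝ => G (c + (u : ℂ) * I)) (F (c + (u : ℂ) * I) * I) u := by
      intro u hu
      have hu1 : |u| ≤ 1 / 6 := by
        have := abs_sub_left_of_mem_uIcc hu
        rw [sub_zero, sub_zero] at this
        exact this.trans hy
      have hm : c + (u : ℂ) * I ∈ Metric.ball c (1 / 4 : ℝ) := by
        rw [Metric.mem_ball, dist_eq_norm, add_sub_cancel_left, norm_mul, Complex.norm_I, mul_one, Complex.norm_real,
          Real.norm_eq_abs]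
        linarith
      have h2 : HasDerivAt (fun z : ℂ => c + z * I) (1 * I) (u : ℂ) := ((hasDerivAt_id (u : ℂ)).mul_const I).const_add c
      have h3 : HasDerivAt (fun z : ℂ => G (c + z * I)) (F (c + (u : ℂ) * I) * (1 * I)) (u : ℂ) := by
        exact HasDerivAt.comp (u : ℂ) (h₂ := G) (h := fun z : ℂ => c + z * I) (hGd _ hm) h2
      rw [one_mul] at h3
      exact h3.comp_ofReal
    have hcont : ContinuousOn (fun u : ℝ => F (c + (u : ℂ) * I) * I) (uIcc 0 y) := by
      apply ContinuousOn.mul _ continuousOn_const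
      apply hd.continuousOn.comp (by fun_prop)
      intro u hu
      have hu1 : |u| ≤ 1 / 6 := by
        have := abs_sub_left_of_mem_uIcc hu
        rw [sub_zero, sub_zero] at this
        exact this.trans hy
      rw [Metric.mem_ball, dist_eq_norm, add_sub_cancel_left, norm_mul, Complex.norm_I, mul_one, Complex.norm_real,
          Real.norm_eq_abs]
      linarith
    have h2 := intervalIntegral.integral_eq_sub_of_hasDerivAt h1 hcont.intervalIntegrable
    simp only [ofReal_zero, zero_mul, add_zero, hGc, sub_zero] at h2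
    rw [← h2, intervalIntegral.integral_mul_const, norm_mul, Complex.norm_I, mul_one]
    exact hp y hy
  -- the two halves
  have hhalf : ∀ τ : ℝ, (τ = 1 ∨ τ = -1) → ∀ w : ℂ, 0 ≤ w.re → ‖w‖ ≤ ρ → ‖G (c + (τ : ℂ) * w)‖ ≤ B * E ^ (18 * ρ) := by
    intro τ hτ w hw hwρ
    have h1 := half (g := fun w => G (c + (τ : ℂ) * w)) (r := 1 / 6) (B := B) (E := E) (ρ := ρ) (by norm_num) hB hE hρr
      (by
        intro w hw
        have := (hGd _ (hball τ hτ w hw)).differentiableAt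
        exact (DifferentiableAt.comp w (f := fun w : ℂ => c + (τ : ℂ) * w) this (by fun_prop)).differentiableWithinAt)
      (by
        intro y hy
        have e : c + (τ : ℂ) * ((y : ℂ) * I) = c + ((τ * y : ℝ) : ℂ) * I := by push_cast; ring
        rw [e]
        apply hline
        rw [abs_mul]
        rcases hτ with h | h <;> rw [h] <;> simpa using hy)
      (fun w hw => hGn _ (hball τ hτ w hw)) w hw hwρ
    have e : 3 * ρ / (1 / 6) = 18 * ρ := by ring
    rw [e] at h1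
    exact h1
  have hcirc : ∀ s : ℂ, ‖s - c‖ ≤ ρ → ‖G s‖ ≤ B * E ^ (18 * ρ) := by
    intro s hs
    rcases le_total 0 (s - c).re with h | h
    · have := hhalf 1 (Or.inl rfl) (s - c) h hs
      simpa using this
    · have := hhalf (-1) (Or.inr rfl) (-(s - c)) (by rw [neg_re]; linarith) (by rw [norm_neg]; exact hs)
      simpa using this
  have h1 := Complex.norm_deriv_le_of_forall_mem_sphere_norm_le (f := G) (c := c) (R := ρ) (C := B * E ^ (18 * ρ)) hρ
    (by
      apply DifferentiableOn.diffContOnCl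
      rw [closure_ball c hρ.ne']
      intro s hs
      have : s ∈ Metric.ball c (1 / 4 : ℝ) := by
        rw [Metric.mem_closedBall] at hs
        rw [Metric.mem_ball]
        linarith
      exact (hGd s this).differentiableAt.differentiableWithinAt)
    (fun z hz => hcirc z (by rw [mem_sphere_iff_norm] at hz; exact hz.le))
  rwa [(hGd c hc).deriv] at h1

end Pool.Agent.N30.HM
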