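import Pool.Agent.N30.HM.Aa
import Pool.Agent.N30.OD.Sw

set_option autoImplicit false

/-! The twisted moments of zeta control the size of zeta. -/

open Complex MeasureTheory Set Filter Topology

namespace Pool.Agent.N30.HM

open Pool.Agent.W188.QS Pool.Agent.N30.MZ Pool.Agent.N30.OD

/-- the function `ζ^K X^n` -/
noncomputable def FZ (K : ℕ) (n : ℤ) (s : ℂ) : ℂ := riemannZeta s ^ K * XX s ^ n

lemma FZ_diff (K : ℕ) (n : ℤ) {s : ℂ} (hs : 1 ≤ s.im) : DifferentiableAt ℂ (FZ K n) s := by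
  obtain ⟨h1, h2, h3, -⟩ := Pool.Agent.W22.QS.qs_basic s hs
  exact (h3.pow _).mul (h1.zpow (Or.inl h2))

/-- the integrand of the twisted moment -/
noncomputable def tw (K m : ℕ) (t : ℝ) : ℂ := ((‖zz t‖ ^ K : ℝ) : ℂ) * (zz t / (‖zz t‖ : ℂ)) ^ m

lemma tw_norm_le (K m : ℕ) (t : ℝ) : ‖tw K m t‖ ≤ ‖zz t‖ ^ K := by
  unfold tw
  rw [norm_mul, Complex.norm_real, norm_pow, norm_norm, norm_pow, norm_div, Complex.norm_real, norm_norm]
  have h1 : (‖zz t‖ / ‖zz t‖) ^ m ≤ 1 := pow_le_one₀ (by positivity) (div_self_le_one _)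
  calc _ ≤ ‖zz t‖ ^ K * 1 := mul_le_mul_of_nonneg_left h1 (by positivity)
    _ = _ := mul_one _

lemma tw_eq {K m : ℕ} (hK : 1 ≤ K) {n : ℤ} (hn : (K : ℤ) - m = 2 * n) {t : ℝ} (ht : 1 ≤ t) :
    tw K m t = FZ K n (cp t) := by
  unfold tw FZ
  change _ = zz t ^ K * XX (cp t) ^ n
  by_cases hz : zz t = 0
  · rw [hz, norm_zero, zero_pow (by omega), zero_pow (by omega)]
    simp
  · have hn0 : (‖zz t‖ : ℂ) ≠ 0 := by
      rw [Complex.ofReal_ne_zero]
      exact norm_ne_zero_iff.2 hz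
    obtain ⟨e, he⟩ : ∃ e : ℂ, e = zz t / (‖zz t‖ : ℂ) := ⟨_, rfl⟩
    have he0 : e ≠ 0 := by rw [he]; exact div_ne_zero hz hn0
    have h1 : XX (cp t) = (e ^ (2 : ℤ))⁻¹ := by
      have := unit_sq ht hz
      rw [← he] at this
      rw [← inv_inv (XX (cp t)), ← this]
      norm_cast
    have h2 : zz t = (‖zz t‖ : ℂ) * e := by rw [he]; field_simp
    have h3 : XX (cp t) ^ n = e ^ ((m : ℤ) - K) := by
      rw [h1, inv_zpow, ← zpow_mul, ← zpow_neg]
      congr 1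
      omega
    rw [h3, ← he]
    have h4 : zz t ^ K = ((‖zz t‖ ^ K : ℝ) : ℂ) * e ^ K := by
      conv_lhs => rw [h2, mul_pow]
      push_cast
      ring
    rw [h4, mul_assoc]
    congr 1
    rw [← zpow_natCast, ← zpow_natCast, ← zpow_add₀ he0]
    congr 1
    ring

lemma norm_div_self_le (z : ℂ) : ‖z / (‖z‖ : ℂ)‖ ≤ 1 := by
  rw [norm_div, Complex.norm_real, norm_norm]
  exact div_self_le_one _

lemma tw_meas (K m : ℕ) : Measurable (tw K m) := by
  unfold tw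
  have h := zz_cont.measurable
  fun_prop

lemma tw_ii (K m : ℕ) (a b : ℝ) : IntervalIntegrable (tw K m) volume a b := by
  have h1 : IntervalIntegrable (fun t => ‖zz t‖ ^ K) volume a b := (zz_cont.norm.pow _).intervalIntegrable _ _
  refine h1.mono_fun (tw_meas K m).aestronglyMeasurable (Eventually.of_forall fun t => ?_)
  simp only [Real.norm_eq_abs]
  exact (tw_norm_le K m t).trans (le_abs_self _)

/-- the twisted moment -/
noncomputable def AA (K m : ℕ) (T : ℝ) : ℂ := ∫ t in (0 : ℝ)..T, tw K m t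

/-- bounds for `XX` in the strip -/
lemma XX_strip : ∃ C : ℝ, 1 ≤ C ∧ ∀ s : ℂ, 1 / 4 ≤ s.re → s.re ≤ 3 / 4 → 1 ≤ s.im →
    ‖XX s‖ ≤ C * s.im ∧ ‖XX s‖⁻¹ ≤ C * s.im := by
  obtain ⟨-, -, -, -, -, -, -, -, ⟨K, hK0, hK⟩, -⟩ := a_line
  have hright : ∀ s : ℂ, 1 / 2 ≤ s.re → s.re ≤ 3 / 4 → 1 ≤ s.im →
      ‖XX s‖ ≤ Real.exp K * s.im ∧ ‖XX s‖⁻¹ ≤ Real.exp K * s.im := by
    intro s h1 h2 h3
    obtain ⟨h4, h5⟩ := hK s h1 (by linarith) h3
    have h6 : 1 ≤ s.im ^ (s.re - 1 / 2) := Real.one_le_rpow h3 (by linarith)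
    have h7 : s.im ^ (s.re - 1 / 2) ≤ s.im := by
      conv_rhs => rw [← Real.rpow_one s.im]
      exact Real.rpow_le_rpow_of_exponent_le h3 (by linarith)
    constructor
    · exact h5.trans (mul_le_mul_of_nonneg_left h7 (Real.exp_pos _).le)
    · have h8 : Real.exp (-K) ≤ ‖XX s‖ := by
        have := mul_le_mul_of_nonneg_left h6 (Real.exp_pos (-K)).le
        linarith
      have h9 : ‖XX s‖⁻¹ ≤ (Real.exp (-K))⁻¹ := inv_anti₀ (Real.exp_pos _) h8
      rw [← Real.exp_neg, neg_neg] at h9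
      have h10 : Real.exp K * 1 ≤ Real.exp K * s.im := mul_le_mul_of_nonneg_left h3 (Real.exp_pos _).le
      linarith
  refine ⟨Real.exp K, Real.one_le_exp hK0.le, fun s h1 h2 h3 => ?_⟩
  rcases le_total (1 / 2) s.re with h | h
  · exact hright s h h2 h3
  · obtain ⟨-, hX0, -, hr, -⟩ := Pool.Agent.W22.QS.qs_basic s h3
    have h4 : (rf s).re = 1 - s.re := by unfold rf; simp
    have h5 : (rf s).im = s.im := by unfold rf; simp
    obtain ⟨h6, h7⟩ := hright (rf s) (by rw [h4]; linarith) (by rw [h4]; linarith) (by rw [h5]; exact h3)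
    rw [hr, norm_inv, RCLike.norm_conj, h5] at h6 h7
    rw [inv_inv] at h7
    exact ⟨h7, h6⟩

lemma zeta_strip {s : ℂ} (h1 : 1 / 4 ≤ s.re) (h2 : s.re ≤ 3 / 4) (h3 : 1 ≤ s.im) : ‖riemannZeta s‖ ≤ 18 * s.im := by
  have h := Pool.Agent.H388LH.zeta_growth' h1 h2
  rw [abs_of_nonneg (by linarith)] at h
  linarith

lemma FZ_strip (K : ℕ) (n : ℤ) : ∃ C : ℝ, 1 ≤ C ∧ ∀ s : ℂ, 1 / 4 ≤ s.re → s.re ≤ 3 / 4 → 1 ≤ s.im →
    ‖FZ K n s‖ ≤ C * s.im ^ (K + n.natAbs) := by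
  obtain ⟨C, hC, h⟩ := XX_strip
  refine ⟨18 ^ K * C ^ n.natAbs, one_le_mul_of_one_le_of_one_le (one_le_pow₀ (by norm_num)) (one_le_pow₀ hC),
    fun s h1 h2 h3 => ?_⟩
  obtain ⟨h4, h5⟩ := h s h1 h2 h3
  unfold FZ
  rw [norm_mul, norm_pow, norm_zpow]
  have h6 : ‖riemannZeta s‖ ^ K ≤ (18 * s.im) ^ K := pow_le_pow_left₀ (norm_nonneg _) (zeta_strip h1 h2 h3) _
  have h7 : ‖XX s‖ ^ n ≤ (C * s.im) ^ n.natAbs := by
    rcases Int.natAbs_eq n with hn | hn
    · conv_lhs => rw [hn]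
      rw [zpow_natCast]
      exact pow_le_pow_left₀ (norm_nonneg _) h4 _
    · conv_lhs => rw [hn]
      rw [zpow_neg, zpow_natCast, ← inv_pow]
      exact pow_le_pow_left₀ (by positivity) h5 _
  calc ‖riemannZeta s‖ ^ K * ‖XX s‖ ^ n ≤ (18 * s.im) ^ K * (C * s.im) ^ n.natAbs :=
        mul_le_mul h6 h7 (by positivity) (by positivity)
    _ = _ := by rw [mul_pow, mul_pow, pow_add]; ring

/-- an integrable function with a bounded primitive: passage to an interval `[T, T + y]` -/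
lemma cp_add (T u : ℝ) : cp T + (u : ℂ) * I = cp (T + u) := by
  unfold cp
  push_cast
  ring

/-- **Any twist detects the size of zeta.** -/
theorem detect {K m : ℕ} (hK : 1 ≤ K) (hm : m % 2 = K % 2) (c : ℂ) {a : ℝ} (ha : 0 ≤ a)
    (H : ∀ ε : ℝ, 0 < ε → ∃ C T₀ : ℝ, ∀ T : ℝ, T₀ ≤ T → ‖AA K m T - c * T‖ ≤ C * T ^ (a + ε))
    {ε : ℝ} (hε : 0 < ε) : ∃ C T₀ : ℝ, ∀ T : ℝ, T₀ ≤ T → ‖zz T‖ ^ K ≤ C * T ^ (a + ε) := by
  obtain ⟨n, hn⟩ : ∃ n : ℤ, (K : ℤ) - m = 2 * n := by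
    have h1 : (K : ℤ) % 2 = (m : ℤ) % 2 := by omega
    exact ⟨((K : ℤ) - m) / 2, by omega⟩
  obtain ⟨C1, hC1, hg⟩ := FZ_strip K n
  obtain ⟨C0, T0, hA⟩ := H (ε / 2) (by linarith)
  obtain ⟨P, hP⟩ : ∃ P : ℕ, P = K + n.natAbs := ⟨_, rfl⟩
  rw [← hP] at hg
  obtain ⟨ρ, hρ⟩ : ∃ ρ : ℝ, ρ = min (1 / 6) (ε / (36 * (P + 1))) := ⟨_, rfl⟩
  have hρ0 : 0 < ρ := by rw [hρ]; positivity
  have hρ1 : ρ ≤ 1 / 6 := by rw [hρ]; exact min_le_left _ _
  have hρ2 : 18 * ρ * (P + 1) ≤ ε / 2 := by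
    have h1 : ρ ≤ ε / (36 * (P + 1)) := by rw [hρ]; exact min_le_right _ _
    rw [le_div_iff₀ (by positivity)] at h1
    linarith
  obtain ⟨b, hb⟩ : ∃ b, b = a + ε / 2 := ⟨_, rfl⟩
  have hb0 : 0 < b := by rw [hb]; positivity
  rw [← hb] at hA
  obtain ⟨C2, hC2⟩ : ∃ C2, C2 = 2 * (max C0 0) * 2 ^ b + 1 + ‖c‖ := ⟨_, rfl⟩
  have hM0 : 0 ≤ max C0 0 := le_max_right _ _
  have hC20 : 1 ≤ C2 := by
    rw [hC2]
    have : 0 ≤ 2 * (max C0 0) * 2 ^ b := by positivity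
    have := norm_nonneg c
    linarith
  refine ⟨(C2 / ρ) + ‖c‖ , max (max (T0 + 1) 4) ((C1 * 2 ^ P + ‖c‖) * 2), fun T hT => ?_⟩
  have hT0 : T0 + 1 ≤ T := ((le_max_left _ _).trans (le_max_left _ _)).trans hT
  have hT4 : 4 ≤ T := ((le_max_right _ _).trans (le_max_left _ _)).trans hT
  have hT5 : (C1 * 2 ^ P + ‖c‖) * 2 ≤ T := (le_max_right _ _).trans hT
  have hTp : 0 < T := by linarith
  have hTb : 1 ≤ T ^ b := Real.one_le_rpow (by linarith) hb0.le
  obtain ⟨B, hB⟩ : ∃ B, B = C2 * T ^ b := ⟨_, rfl⟩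
  have hB1 : 1 ≤ B := by rw [hB]; exact one_le_mul_of_one_le_of_one_le hC20 hTb
  obtain ⟨E, hE⟩ : ∃ E : ℝ, E = T ^ (P + 1) := ⟨_, rfl⟩
  have hE1 : 1 ≤ E := by rw [hE]; exact one_le_pow₀ (by linarith)
  have hball : ∀ s ∈ Metric.ball (cp T) (1 / 4 : ℝ), 1 / 4 ≤ s.re ∧ s.re ≤ 3 / 4 ∧ 1 ≤ s.im ∧ s.im ≤ 2 * T := by
    intro s hs
    rw [Metric.mem_ball, dist_eq_norm] at hs
    have h1 := (Complex.abs_re_le_norm (s - cp T)).trans hs.le
    have h2 := (Complex.abs_im_le_norm (s - cp T)).trans hs.le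
    have e1 : (s - cp T).re = s.re - 1 / 2 := by unfold cp; simp
    have e2 : (s - cp T).im = s.im - T := by unfold cp; simp
    rw [e1, abs_le] at h1
    rw [e2, abs_le] at h2
    refine ⟨by linarith [h1.1], by linarith [h1.2], by linarith [h2.1], by linarith [h2.2]⟩
  have hpt := point (F := fun s => FZ K n s - c) (B := B) (E := E) (ρ := ρ) (cp T) (by linarith) hE1 hρ0 hρ1
    (by
      intro s hs
      obtain ⟨-, -, h3, -⟩ := hball s hs
      exact ((FZ_diff K n h3).sub_const c).differentiableWithinAt)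
    (by
      intro s hs
      obtain ⟨h1, h2, h3, h4⟩ := hball s hs
      have h5 := hg s h1 h2 h3
      have h6 : s.im ^ P ≤ (2 * T) ^ P := pow_le_pow_left₀ (by linarith) h4 _
      have h7 : ‖FZ K n s‖ ≤ C1 * (2 * T) ^ P := h5.trans (mul_le_mul_of_nonneg_left h6 (by linarith))
      have h8 : 1 ≤ T ^ P := one_le_pow₀ (by linarith)
      calc ‖FZ K n s - c‖ ≤ C1 * (2 * T) ^ P + ‖c‖ := (norm_sub_le _ _).trans (by linarith)
        _ ≤ (C1 * 2 ^ P + ‖c‖) * T ^ P := by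
            rw [mul_pow, add_mul]
            have : ‖c‖ * 1 ≤ ‖c‖ * T ^ P := mul_le_mul_of_nonneg_left h8 (norm_nonneg _)
            linarith
        _ ≤ T * T ^ P := mul_le_mul_of_nonneg_right (by
            have : 0 ≤ C1 * 2 ^ P := by positivity
            have := norm_nonneg c
            linarith) (by positivity)
        _ = E := by rw [hE, pow_succ]; ring
        _ ≤ B * E := by nlinarith)
    (by
      intro y hy
      rw [abs_le] at hy
      have e1 : ∫ u in (0 : ℝ)..y, (FZ K n (cp T + (u : ℂ) * I) - c) = (AA K m (T + y) - c * ((T + y : ℝ) : ℂ)) -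
          (AA K m T - c * T) := by
        have h1 : ∫ u in (0 : ℝ)..y, (FZ K n (cp T + (u : ℂ) * I) - c) = ∫ u in (0 : ℝ)..y, (tw K m (T + u) - c) := by
          apply intervalIntegral.integral_congr
          intro u hu
          have hu1 : 1 ≤ T + u := by
            rcases mem_uIcc.1 hu with h | h <;> linarith [h.1]
          simp only
          rw [cp_add, tw_eq hK hn hu1]
        rw [h1, intervalIntegral.integral_comp_add_left (fun t => tw K m t - c) T, add_zero,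
          intervalIntegral.integral_sub (tw_ii K m _ _) intervalIntegrable_const, intervalIntegral.integral_const]
        unfold AA
        rw [← intervalIntegral.integral_interval_sub_left (tw_ii K m 0 (T + y)) (tw_ii K m 0 T)]
        rw [Complex.real_smul]
        push_cast
        ring
      rw [e1]
      have h1 := hA T (by linarith)
      · have h2 := hA (T + y) (by linarith [hy.1])
        have h3 : (T + y) ^ b ≤ 2 ^ b * T ^ b := by
          rw [← Real.mul_rpow (by norm_num) hTp.le]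
          exact Real.rpow_le_rpow (by linarith) (by linarith) hb0.le
        have h4 : T ^ b ≤ 2 ^ b * T ^ b := by
          have : (1:ℝ) ≤ 2 ^ b := Real.one_le_rpow (by norm_num) hb0.le
          nlinarith
        have h5 : C0 * (T + y) ^ b ≤ max C0 0 * (2 ^ b * T ^ b) := by
          calc _ ≤ max C0 0 * (T + y) ^ b := mul_le_mul_of_nonneg_right (le_max_left _ _) (by
                apply Real.rpow_nonneg; linarith)
            _ ≤ _ := mul_le_mul_of_nonneg_left h3 hM0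
        have h6 : C0 * T ^ b ≤ max C0 0 * (2 ^ b * T ^ b) := by
          calc _ ≤ max C0 0 * T ^ b := mul_le_mul_of_nonneg_right (le_max_left _ _) (by positivity)
            _ ≤ _ := mul_le_mul_of_nonneg_left h4 hM0
        have h7 := norm_sub_le (AA K m (T + y) - c * ((T + y : ℝ) : ℂ)) (AA K m T - c * T)
        have h8 : 0 ≤ (1 + ‖c‖) * T ^ b := by positivity
        calc _ ≤ 2 * (max C0 0 * (2 ^ b * T ^ b)) := by linarith
          _ ≤ B := by rw [hB, hC2]; linarith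
)
  have e0 : FZ K n (cp T) = tw K m T := (tw_eq hK hn (by linarith)).symm
  rw [e0] at hpt
  have hnorm : ‖tw K m T‖ = ‖zz T‖ ^ K := by
    unfold tw
    by_cases hz : zz T = 0
    · rw [hz, norm_zero, zero_pow (by omega)]
      simp
    · rw [norm_mul, Complex.norm_real, norm_pow, norm_norm, norm_pow, norm_div, Complex.norm_real, norm_norm,
        div_self (norm_ne_zero_iff.2 hz), one_pow, mul_one]
  have h1 : ‖zz T‖ ^ K ≤ B * E ^ (18 * ρ) / ρ + ‖c‖ := by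
    rw [← hnorm]
    have := norm_sub_norm_le (tw K m T) c
    linarith
  have h2 : E ^ (18 * ρ) ≤ T ^ (ε / 2) := by
    rw [hE, ← Real.rpow_natCast, ← Real.rpow_mul hTp.le]
    apply Real.rpow_le_rpow_of_exponent_le (by linarith)
    push_cast
    linarith
  have h3 : B * E ^ (18 * ρ) / ρ ≤ C2 / ρ * T ^ (a + ε) := by
    rw [div_le_iff₀ hρ0]
    have e1 : C2 / ρ * T ^ (a + ε) * ρ = C2 * T ^ b * T ^ (ε / 2) := by
      have e2 : T ^ (a + ε) = T ^ b * T ^ (ε / 2) := by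
        rw [← Real.rpow_add hTp, hb]; congr 1; ring
      rw [e2]
      field_simp
    rw [e1, hB]
    exact mul_le_mul_of_nonneg_left h2 (by positivity)
  have h4 : 1 ≤ T ^ (a + ε) := Real.one_le_rpow (by linarith) (by linarith)
  have h5 : ‖c‖ * 1 ≤ ‖c‖ * T ^ (a + ε) := mul_le_mul_of_nonneg_left h4 (norm_nonneg _)
  rw [add_mul]
  linarith

end Pool.Agent.N30.HM
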