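import Pool.Agent.N30.HM.Ab

set_option autoImplicit false

/-! The twisted moments `m ≥ K` from a bound for zeta on the critical line. -/

open Complex MeasureTheory Set Filter Topology

namespace Pool.Agent.N30.HM

open Pool.Agent.W188.QS Pool.Agent.N30.MZ Pool.Agent.N30.OD
open Pool.Agent.W131.QSJJ (dd dd_nonneg dd_zero dd_cast norm_cp)
open Pool.Agent.W885.QS (fp_re fp_im fp_cont zeta_cont)

/-- `zeta` has the exponent `κ` on the critical line -/
def Expo (κ : ℝ) : Prop := ∀ ε : ℝ, 0 < ε → ∃ C T₀ : ℝ, ∀ T : ℝ, T₀ ≤ T → ‖zz T‖ ≤ C * T ^ (κ + ε)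

/-- the bound to the right of the line -/
theorem right_bound {κ : ℝ} (hκ : 0 ≤ κ) (H : Expo κ) {ε : ℝ} (hε : 0 < ε) :
    ∃ C T0 : ℝ, 1 ≤ C ∧ ∀ T : ℝ, T0 ≤ T → ∀ x : ℝ, 1 / 2 ≤ x → ‖riemannZeta (⟨x, T⟩ : ℂ)‖ ≤ C * T ^ (κ + ε) := by
  obtain ⟨C0, t0, hC0'⟩ := H ε hε
  set C1 := max C0 0 with hC1
  have hC1' : 0 ≤ C1 := le_max_right _ _
  have hC0 : ∀ t : ℝ, t0 ≤ t → 0 < t → ‖zz t‖ ≤ C1 * t ^ (κ + ε) := fun t ht ht0 =>
    (hC0' t ht).trans (by gcongr; exact le_max_left _ _)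
  have hgr : ∀ᶠ T : ℝ in atTop, 24 * T * Real.exp (3 - (T / 2) ^ 2) ≤ 1 := by
    have h1 : Tendsto (fun T : ℝ => (T ^ 1 * Real.exp (-T)) * (24 * Real.exp 3)) atTop
        (𝓝 (0 * (24 * Real.exp 3))) :=
      (Real.tendsto_pow_mul_exp_neg_atTop_nhds_zero 1).mul_const _
    rw [zero_mul] at h1
    filter_upwards [h1.eventually_le_const (one_pos : (0:ℝ) < 1), eventually_ge_atTop (4:ℝ)] with T hT hT4
    refine le_trans ?_ hT
    have e1 : Real.exp (3 - (T / 2) ^ 2) ≤ Real.exp 3 * Real.exp (-T) := by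
      rw [← Real.exp_add]
      apply Real.exp_le_exp.2
      nlinarith
    calc 24 * T * Real.exp (3 - (T / 2) ^ 2)
        ≤ 24 * T * (Real.exp 3 * Real.exp (-T)) := mul_le_mul_of_nonneg_left e1 (by linarith)
      _ = _ := by ring
  obtain ⟨T1, hT1⟩ := hgr.exists_forall_of_atTop
  set C : ℝ := C1 * 2 ^ (κ + ε) + 4 * Real.exp 3 + 1 with hC
  refine ⟨C, max T1 (max 8 (2 * t0)), ?_, ?_⟩
  · have : 0 ≤ C1 * 2 ^ (κ + ε) := by positivity
    have := Real.exp_pos 3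
    linarith
  intro T hT x hx1
  have hTT1 : T1 ≤ T := (le_max_left _ _).trans hT
  have hT8 : 8 ≤ T := ((le_max_left _ _).trans (le_max_right _ _)).trans hT
  have hTt : 2 * t0 ≤ T := ((le_max_right _ _).trans (le_max_right _ _)).trans hT
  have hT0 : 0 < T := by linarith
  have hpowT : 1 ≤ T ^ (κ + ε) := Real.one_le_rpow (by linarith) (by linarith)
  have hC2 : 2 ≤ C := by
    rw [hC]
    have : 0 ≤ C1 * 2 ^ (κ + ε) := by positivity
    have := Real.add_one_le_exp (3 : ℝ)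
    linarith
  rcases le_total 2 x with hx2 | hx2
  · have h1 := Pool.Agent.W188.Ray.norm_zeta_le_two (s := (⟨x, T⟩ : ℂ)) hx2
    nlinarith
  set f : ℂ → ℂ := fun s => riemannZeta s * cexp ((s - (1 / 2 + (T : ℂ) * I)) ^ 2) with hf
  have hnorm : ∀ s : ℂ, ‖f s‖ = ‖riemannZeta s‖ * Real.exp ((s.re - 1 / 2) ^ 2 - (s.im - T) ^ 2) := by
    intro s
    simp only [hf]
    rw [norm_mul, Complex.norm_exp]
    congr 2
    rw [sq, mul_re]
    simp
    ring
  set U : Set ℂ := Ioo (1 / 2 : ℝ) 2 ×ℂ Ioo (T / 2) (3 * T / 2) with hU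
  have hcl : closure U = Icc (1 / 2 : ℝ) 2 ×ℂ Icc (T / 2) (3 * T / 2) := by
    rw [hU, Complex.closure_reProdIm, closure_Ioo (by norm_num), closure_Ioo (by linarith)]
  have hfr : ∀ z ∈ frontier U, (1 / 2 ≤ z.re ∧ z.re ≤ 2 ∧ T / 2 ≤ z.im ∧ z.im ≤ 3 * T / 2) ∧
      (z.re = 1 / 2 ∨ z.re = 2 ∨ z.im = T / 2 ∨ z.im = 3 * T / 2) := by
    intro z hz
    have hUo : IsOpen U := isOpen_Ioo.reProdIm isOpen_Ioo
    rw [frontier, hcl, hUo.interior_eq] at hz
    obtain ⟨⟨hz1, hz2⟩, hz3⟩ := hz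
    have a1 : z.re ∈ Icc (1 / 2 : ℝ) 2 := hz1
    have a2 : z.im ∈ Icc (T / 2) (3 * T / 2) := hz2
    refine ⟨⟨a1.1, a1.2, a2.1, a2.2⟩, ?_⟩
    by_contra hcon
    push Not at hcon
    apply hz3
    exact ⟨⟨lt_of_le_of_ne a1.1 (Ne.symm hcon.1), lt_of_le_of_ne a1.2 hcon.2.1⟩,
      ⟨lt_of_le_of_ne a2.1 (Ne.symm hcon.2.2.1), lt_of_le_of_ne a2.2 hcon.2.2.2⟩⟩
  have hbdd : Bornology.IsBounded U := by
    apply Bornology.IsBounded.reProdIm (Metric.isBounded_Ioo _ _) (Metric.isBounded_Ioo _ _)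
  have hd : DiffContOnCl ℂ f U := by
    apply DifferentiableOn.diffContOnCl
    intro z hz
    rw [hcl] at hz
    have a2 : z.im ∈ Icc (T / 2) (3 * T / 2) := hz.2
    have b2 : 1 ≤ z.im := by linarith [a2.1]
    apply DifferentiableAt.differentiableWithinAt
    simp only [hf]
    apply DifferentiableAt.mul (Pool.Agent.W22.QS.qs_basic z b2).2.2.1
    fun_prop
  have hboundary : ∀ z ∈ frontier U, ‖f z‖ ≤ C * T ^ (κ + ε) := by
    intro z hz
    obtain ⟨⟨a1, a2, a3, a4⟩, hcase⟩ := hfr z hz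
    rw [hnorm]
    have hex : (z.re - 1 / 2) ^ 2 ≤ 3 := by nlinarith
    rcases hcase with hc | hc | hc
    · have e : z = cp z.im := by
        apply Complex.ext <;> simp [hc, cp]
      have h1 : ‖riemannZeta z‖ ≤ C1 * z.im ^ (κ + ε) := by
        rw [e]
        have := hC0 z.im (by linarith) (by linarith)
        have e3 : (cp z.im).im = z.im := by simp [cp]
        rw [e3]
        exact this
      have h2 : Real.exp ((z.re - 1 / 2) ^ 2 - (z.im - T) ^ 2) ≤ 1 := by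
        rw [hc, Real.exp_le_one_iff]; nlinarith [sq_nonneg (z.im - T)]
      have h3 : z.im ^ (κ + ε) ≤ 2 ^ (κ + ε) * T ^ (κ + ε) := by
        rw [← Real.mul_rpow (by norm_num) hT0.le]
        exact Real.rpow_le_rpow (by linarith) (by linarith) (by linarith)
      calc ‖riemannZeta z‖ * Real.exp ((z.re - 1 / 2) ^ 2 - (z.im - T) ^ 2)
          ≤ (C1 * (2 ^ (κ + ε) * T ^ (κ + ε))) * 1 := by
            apply mul_le_mul (h1.trans (by gcongr)) h2 (Real.exp_pos _).le (by positivity)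
        _ ≤ C * T ^ (κ + ε) := by
            rw [hC]
            have : 0 ≤ (4 * Real.exp 3 + 1) * T ^ (κ + ε) := by positivity
            nlinarith
    · have h1 : ‖riemannZeta z‖ ≤ 4 := by
        have c1 := Pool.Agent.W188.Ray.norm_zeta_le_two (s := z) (by rw [hc])
        linarith
      have h2 : Real.exp ((z.re - 1 / 2) ^ 2 - (z.im - T) ^ 2) ≤ Real.exp 3 := by
        apply Real.exp_le_exp.2
        nlinarith [sq_nonneg (z.im - T)]
      calc _ ≤ 4 * Real.exp 3 := mul_le_mul h1 h2 (Real.exp_pos _).le (by norm_num)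
        _ ≤ C * 1 := by
          rw [hC]
          have : 0 ≤ C1 * 2 ^ (κ + ε) := by positivity
          linarith
        _ ≤ C * T ^ (κ + ε) := mul_le_mul_of_nonneg_left hpowT (by linarith)
    · have h1 : ‖riemannZeta z‖ ≤ 24 * T := by
        have c1 := Pool.Agent.H388LH.zeta_growth (s := z) (by linarith) (by linarith)
        have c3 : ‖z‖ ≤ |z.re| + |z.im| := Complex.norm_le_abs_re_add_abs_im _
        rw [abs_of_nonneg (by linarith), abs_of_nonneg (by linarith)] at c3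
        linarith
      have hsq : (z.im - T) ^ 2 = (T / 2) ^ 2 := by
        rcases hc with hc | hc <;> rw [hc] <;> ring
      have h2 : Real.exp ((z.re - 1 / 2) ^ 2 - (z.im - T) ^ 2) ≤ Real.exp (3 - (T / 2) ^ 2) := by
        apply Real.exp_le_exp.2
        rw [hsq]; linarith
      calc _ ≤ 24 * T * Real.exp (3 - (T / 2) ^ 2) :=
            mul_le_mul h1 h2 (Real.exp_pos _).le (by positivity)
        _ ≤ 1 := hT1 T hTT1
        _ ≤ C * 1 := by linarith
        _ ≤ C * T ^ (κ + ε) := mul_le_mul_of_nonneg_left hpowT (by linarith)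
  have hmax := Complex.norm_le_of_forall_mem_frontier_norm_le hbdd hd hboundary
    (z := (⟨x, T⟩ : ℂ)) (by
      rw [hcl]
      exact ⟨⟨hx1, hx2⟩, ⟨by show T / 2 ≤ T; linarith, by show T ≤ 3 * T / 2; linarith⟩⟩)
  rw [hnorm] at hmax
  have h3 : 1 ≤ Real.exp (((⟨x, T⟩ : ℂ).re - 1 / 2) ^ 2 - ((⟨x, T⟩ : ℂ).im - T) ^ 2) := by
    apply Real.one_le_exp
    simp
    positivity
  calc ‖riemannZeta (⟨x, T⟩ : ℂ)‖ = ‖riemannZeta (⟨x, T⟩ : ℂ)‖ * 1 := by ring
    _ ≤ _ := mul_le_mul_of_nonneg_left h3 (norm_nonneg _)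
    _ ≤ _ := hmax

/-- the integral of `n^{-4-it}` -/
lemma int_n {n : ℕ} (hn : 2 ≤ n) (a b : ℝ) : ‖∫ t in a..b, (n : ℂ) ^ (-fp t)‖ ≤ 3 * (n : ℝ) ^ (-(4 : ℝ)) := by
  have hn0 : (n : ℂ) ≠ 0 := by
    rw [Nat.cast_ne_zero]; omega
  have hnR : (2 : ℝ) ≤ n := by exact_mod_cast hn
  have hlog : 0.69 ≤ Real.log n := by
    have h1 := Real.log_le_log (by norm_num : (0:ℝ) < 2) hnR
    have h2 := Real.log_two_gt_d9
    linarith
  have hlc : Complex.log (n : ℂ) = (Real.log n : ℂ) := (Complex.natCast_log).symm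
  have hl0 : (I * (Real.log n : ℂ)) ≠ 0 := by
    apply mul_ne_zero I_ne_zero
    rw [Complex.ofReal_ne_zero]
    linarith
  have hder : ∀ t ∈ uIcc a b, HasDerivAt (fun t : ℝ => -((n : ℂ) ^ (-fp t)) / (I * (Real.log n : ℂ))) ((n : ℂ) ^ (-fp t)) t := by
    intro t _
    have h1 : HasDerivAt (fun z : ℂ => -(4 + z * I)) (-(1 * I)) (t : ℂ) :=
      (((hasDerivAt_id (t : ℂ)).mul_const I).const_add 4).neg
    have h2 := (h1.const_cpow (c := (n : ℂ)) (Or.inl hn0)).neg.div_const (I * (Real.log n : ℂ))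
    have h3 := h2.comp_ofReal
    refine h3.congr_deriv ?_
    rw [hlc]
    unfold fp
    have hlr : (Real.log n : ℂ) ≠ 0 := by
      rw [Complex.ofReal_ne_zero]
      linarith
    field_simp
  have hcont : Continuous fun t : ℝ => (n : ℂ) ^ (-fp t) := by
    apply Continuous.const_cpow fp_cont.neg (Or.inl hn0)
  rw [intervalIntegral.integral_eq_sub_of_hasDerivAt hder (hcont.intervalIntegrable _ _)]
  have hb : ∀ t : ℝ, ‖-((n : ℂ) ^ (-fp t)) / (I * (Real.log n : ℂ))‖ ≤ 1.5 * (n : ℝ) ^ (-(4 : ℝ)) := by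
    intro t
    rw [norm_div, norm_neg, norm_cp n (by omega), norm_mul, Complex.norm_I, one_mul, Complex.norm_real, Real.norm_eq_abs,
      abs_of_nonneg (by linarith), div_le_iff₀ (by linarith)]
    have : 0 < (n : ℝ) ^ (-(4 : ℝ)) := by positivity
    nlinarith
  have := norm_sub_le (-((n : ℂ) ^ (-fp b)) / (I * (Real.log n : ℂ))) (-((n : ℂ) ^ (-fp a)) / (I * (Real.log n : ℂ)))
  linarith [hb a, hb b]

/-- the mean value of `ζ^K` on the line `Re s = 4` -/
theorem right_mean {K : ℕ} (hK : 1 ≤ K) : ∃ C : ℝ, 0 ≤ C ∧ ∀ a b : ℝ,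
    ‖(∫ t in a..b, riemannZeta (fp t) ^ K) - ((b - a : ℝ) : ℂ)‖ ≤ C := by
  obtain ⟨Cd, hCd, -, hbd, hz⟩ := Pool.Agent.W32.QS.qs_div K hK
  have hS : Summable fun n : ℕ => (n : ℝ) ^ (-(2 : ℝ)) := Real.summable_nat_rpow.2 (by norm_num)
  refine ⟨3 * Cd * ∑' n : ℕ, (n : ℝ) ^ (-(2 : ℝ)), by positivity, fun a b => ?_⟩
  -- termwise integration
  have hterm : ∀ n : ℕ, ∀ t : ℝ, ‖((dd K n : ℝ) : ℂ) * (n : ℂ) ^ (-fp t)‖ ≤ Cd * (n : ℝ) ^ (-(2 : ℝ)) := by
    intro n t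
    rcases Nat.eq_zero_or_pos n with h | h
    · subst h
      rw [dd_zero]
      simp
    · have hn : (0 : ℝ) < n := Nat.cast_pos.2 h
      rw [norm_mul, Complex.norm_real, Real.norm_of_nonneg (dd_nonneg K n), norm_cp n h]
      have e : (n : ℝ) ^ 2 * (n : ℝ) ^ (-(4 : ℝ)) = (n : ℝ) ^ (-(2 : ℝ)) := by
        rw [← Real.rpow_natCast, ← Real.rpow_add hn]
        norm_num
      calc dd K n * (n : ℝ) ^ (-(4 : ℝ)) ≤ (Cd * (n : ℝ) ^ 2) * (n : ℝ) ^ (-(4 : ℝ)) :=
            mul_le_mul_of_nonneg_right (hbd n) (by positivity)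
        _ = _ := by rw [mul_assoc, e]
  have hcont : ∀ n : ℕ, Continuous fun t : ℝ => ((dd K n : ℝ) : ℂ) * (n : ℂ) ^ (-fp t) := by
    intro n
    rcases Nat.eq_zero_or_pos n with h | h
    · subst h
      rw [dd_zero]
      simp
      exact continuous_const
    · exact continuous_const.mul (Continuous.const_cpow fp_cont.neg (Or.inl (by rw [Nat.cast_ne_zero]; omega)))
  have hsum := intervalIntegral.hasSum_integral_of_dominated_convergence (a := a) (b := b) (μ := volume)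
    (F := fun (n : ℕ) (t : ℝ) => ((dd K n : ℝ) : ℂ) * (n : ℂ) ^ (-fp t)) (f := fun t => riemannZeta (fp t) ^ K)
    (fun n _ => Cd * (n : ℝ) ^ (-(2 : ℝ))) (fun n => (hcont n).aestronglyMeasurable)
    (fun n => Eventually.of_forall fun t _ => hterm n t)
    (Eventually.of_forall fun t _ => hS.mul_left Cd)
    intervalIntegrable_const
    (Eventually.of_forall fun t _ => by
      have h1 : 1 < (fp t).re := by rw [fp_re]; norm_num
      rw [(hz (fp t) h1).2]
      have h2 : Summable fun n : ℕ => ((dd K n : ℝ) : ℂ) * (n : ℂ) ^ (-fp t) :=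
        Summable.of_norm_bounded (hS.mul_left Cd) (fun n => hterm n t)
      have h3 := h2.hasSum
      have e : ∑' n : ℕ, ((((ArithmeticFunction.zeta ^ K : ArithmeticFunction ℕ) n : ℕ)) : ℂ) * (n : ℂ) ^ (-fp t) =
          ∑' n : ℕ, ((dd K n : ℝ) : ℂ) * (n : ℂ) ^ (-fp t) := by
        refine tsum_congr fun n => ?_
        rw [dd_cast]
      rw [e]
      exact h3)
  obtain ⟨J, hJ⟩ : ∃ J : ℕ → ℂ, J = fun n => if n = 1 then ((b - a : ℝ) : ℂ) else 0 := ⟨_, rfl⟩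
  have hJs : HasSum J ((b - a : ℝ) : ℂ) := by
    have := hasSum_single (f := J) 1 (fun n hn => by rw [hJ]; exact if_neg hn)
    rw [hJ] at this ⊢
    simpa using this
  have hd := hsum.sub hJs
  have hpt : ∀ n : ℕ, ‖(∫ t in a..b, ((dd K n : ℝ) : ℂ) * (n : ℂ) ^ (-fp t)) - J n‖ ≤ 3 * Cd * (n : ℝ) ^ (-(2 : ℝ)) := by
    intro n
    rcases Nat.lt_or_ge n 2 with h | h
    · interval_cases n
      · rw [dd_zero, hJ]
        simp
      · rw [dd_one, hJ]
        have : ∀ t : ℝ, (((1 : ℕ) : ℂ)) ^ (-fp t) = 1 := by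
          intro t
          rw [Nat.cast_one, Complex.one_cpow]
        simp only [this]
        simp
        positivity
    · rw [hJ]
      simp only
      rw [if_neg (by omega), sub_zero, intervalIntegral.integral_const_mul, norm_mul, Complex.norm_real,
        Real.norm_of_nonneg (dd_nonneg K n)]
      have hn : (0 : ℝ) < n := Nat.cast_pos.2 (by omega)
      have e : (n : ℝ) ^ 2 * (n : ℝ) ^ (-(4 : ℝ)) = (n : ℝ) ^ (-(2 : ℝ)) := by
        rw [← Real.rpow_natCast, ← Real.rpow_add hn]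
        norm_num
      calc _ ≤ (Cd * (n : ℝ) ^ 2) * (3 * (n : ℝ) ^ (-(4 : ℝ))) :=
            mul_le_mul (hbd n) (int_n h a b) (norm_nonneg _) (by positivity)
        _ = 3 * Cd * ((n : ℝ) ^ 2 * (n : ℝ) ^ (-(4 : ℝ))) := by ring
        _ = _ := by rw [e]
  rw [← hd.tsum_eq]
  have h1 := tsum_of_norm_bounded (hS.mul_left (3 * Cd)).hasSum hpt
  rw [tsum_mul_left] at h1
  exact h1

end Pool.Agent.N30.HM
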