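import Pool.Agent.N30.HM.Ac

set_option autoImplicit false

/-! The twisted moments `m ≥ K`: the exponent of the remainder. -/

open Complex MeasureTheory Set Filter Topology

namespace Pool.Agent.N30.HM

open Pool.Agent.W188.QS Pool.Agent.N30.MZ Pool.Agent.N30.OD
open Pool.Agent.W131.QSJJ (dd dd_nonneg dd_zero dd_cast norm_cp)
open Pool.Agent.W885.QS (fp_re fp_im fp_cont zeta_cont)

/-- Cauchy's theorem in the rectangle -/
lemma rect (K : ℕ) (n : ℤ) {a b : ℝ} (ha : 1 ≤ a) (hab : a ≤ b) :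
    ∫ t in a..b, FZ K n (cp t) = (∫ t in a..b, FZ K n (fp t)) - I * (∫ x in (1 / 2 : ℝ)..4, FZ K n (⟨x, a⟩ : ℂ)) +
      I * (∫ x in (1 / 2 : ℝ)..4, FZ K n (⟨x, b⟩ : ℂ)) := by
  have hrect := Complex.integral_boundary_rect_eq_zero_of_differentiableOn (FZ K n) (⟨1 / 2, a⟩ : ℂ)
    (⟨4, b⟩ : ℂ) (by
      intro s hs
      rw [mem_reProdIm] at hs
      simp only at hs
      have him : s.im ∈ Icc a b := by rw [← uIcc_of_le hab]; exact hs.2
      exact (FZ_diff K n (by linarith [him.1])).differentiableWithinAt)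
  simp only [smul_eq_mul] at hrect
  have e1 : ∀ y : ℝ, (((1 / 2 : ℝ) : ℂ) + y * I) = cp y := by intro y; unfold cp; push_cast; ring
  have e2 : ∀ y : ℝ, (((4 : ℝ) : ℂ) + y * I) = fp y := by intro y; unfold fp; push_cast; ring
  have e3 : ∀ x y : ℝ, ((x : ℂ) + (y : ℂ) * I) = (⟨x, y⟩ : ℂ) := by intro x y; apply Complex.ext <;> simp
  simp only [e1, e2] at hrect
  simp only [e3] at hrect
  have hI : I * I = -1 := Complex.I_mul_I
  linear_combination I * hrect - ((∫ t in a..b, FZ K n (fp t)) - ∫ t in a..b, FZ K n (cp t)) * hI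

lemma inv_sq_int {T : ℝ} (hT : 100 ≤ T) : ∫ t in (100 : ℝ)..T, 1 / t ^ 2 ≤ 1 := by
  have hder : ∀ t ∈ uIcc (100 : ℝ) T, HasDerivAt (fun t : ℝ => -(1 / t)) (1 / t ^ 2) t := by
    intro t ht
    rw [uIcc_of_le hT] at ht
    have ht0 : t ≠ 0 := by
      have := ht.1
      intro h
      rw [h] at this
      norm_num at this
    have := ((hasDerivAt_inv ht0)).neg
    simp only [one_div]
    refine this.congr_deriv ?_
    ring
  rw [intervalIntegral.integral_eq_sub_of_hasDerivAt hder]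
  · have : 0 < 1 / T := by positivity
    linarith
  · apply ContinuousOn.intervalIntegrable
    intro t ht
    rw [uIcc_of_le hT] at ht
    have ht0 : t ^ 2 ≠ 0 := by
      have := ht.1
      positivity
    exact (ContinuousAt.div continuousAt_const (continuous_pow 2).continuousAt ht0).continuousWithinAt

lemma FZ_line_cont (K : ℕ) (n : ℤ) {a b : ℝ} (ha : 1 ≤ a) (hab : a ≤ b) (g : ℝ → ℂ) (hg : Continuous g)
    (hgi : ∀ t, (g t).im = t) : ContinuousOn (fun t => FZ K n (g t)) (uIcc a b) := by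
  rw [uIcc_of_le hab]
  intro t ht
  exact ((FZ_diff K n (by rw [hgi]; linarith [ht.1])).continuousAt.comp hg.continuousAt).continuousWithinAt

/-- the right side of the rectangle -/
lemma right_side {K : ℕ} (hK : 1 ≤ K) (j : ℕ) : ∃ C : ℝ, 0 ≤ C ∧ ∀ T : ℝ, 100 ≤ T →
    ‖(∫ t in (100 : ℝ)..T, FZ K (-(j : ℤ)) (fp t)) - (if j = 0 then 1 else 0) * T‖ ≤ C := by
  rcases Nat.eq_zero_or_pos j with hj | hj
  · subst hj
    obtain ⟨C, hC, h⟩ := right_mean hK
    refine ⟨C + 100, by positivity, fun T hT => ?_⟩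
    have h1 := h 100 T
    have e : ∀ t, FZ K (-((0 : ℕ) : ℤ)) (fp t) = riemannZeta (fp t) ^ K := by
      intro t; unfold FZ; simp
    simp only [e, if_true, one_mul]
    have e2 : (∫ t in (100 : ℝ)..T, riemannZeta (fp t) ^ K) - (T : ℂ) =
        ((∫ t in (100 : ℝ)..T, riemannZeta (fp t) ^ K) - ((T - 100 : ℝ) : ℂ)) - 100 := by push_cast; ring
    rw [e2]
    refine (norm_sub_le _ _).trans ?_
    have : ‖(100 : ℂ)‖ = 100 := by norm_num
    linarith
  · obtain ⟨-, -, -, -, -, -, -, -, ⟨κ, hκ0, hκ⟩, -⟩ := a_line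
    refine ⟨2 ^ K * Real.exp κ, by positivity, fun T hT => ?_⟩
    rw [if_neg (by omega), zero_mul, sub_zero]
    have hb : ∀ t ∈ Ioc (100 : ℝ) T, ‖FZ K (-(j : ℤ)) (fp t)‖ ≤ 2 ^ K * Real.exp κ * (1 / t ^ 2) := by
      intro t ht
      have ht1 : 1 ≤ t := by linarith [ht.1]
      have h1 := (hκ (fp t) (by rw [fp_re]; norm_num) (by rw [fp_re]) (by rw [fp_im]; exact ht1)).1
      rw [fp_re, fp_im] at h1
      have h2 : t ^ (2 : ℝ) ≤ t ^ ((4 : ℝ) - 1 / 2) := Real.rpow_le_rpow_of_exponent_le ht1 (by norm_num)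
      rw [Real.rpow_two] at h2
      have h3 : Real.exp (-κ) * t ^ 2 ≤ ‖XX (fp t)‖ := (mul_le_mul_of_nonneg_left h2 (Real.exp_pos _).le).trans h1
      have h4 : ‖XX (fp t)‖⁻¹ ≤ Real.exp κ * (1 / t ^ 2) := by
        have h5 := inv_anti₀ (by positivity) h3
        rw [mul_inv, ← Real.exp_neg, neg_neg] at h5
        rwa [one_div]
      have h6 : 1 ≤ ‖XX (fp t)‖ := XX_ge_one (by rw [fp_re]; norm_num) (by rw [fp_re]) (by rw [fp_im]; linarith [ht.1])
      have h7 : (‖XX (fp t)‖⁻¹) ^ j ≤ ‖XX (fp t)‖⁻¹ := by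
        have := pow_le_pow_of_le_one (by positivity) (inv_le_one_of_one_le₀ h6) hj
        simpa using this
      have h8 : ‖riemannZeta (fp t)‖ ^ K ≤ 2 ^ K := pow_le_pow_left₀ (norm_nonneg _)
        (Pool.Agent.W188.Ray.norm_zeta_le_two (by rw [fp_re]; norm_num)) _
      unfold FZ
      rw [norm_mul, norm_pow, norm_zpow, zpow_neg, zpow_natCast, ← inv_pow]
      calc _ ≤ 2 ^ K * (Real.exp κ * (1 / t ^ 2)) := mul_le_mul h8 (h7.trans h4) (by positivity) (by positivity)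
        _ = _ := by ring
    have hint : IntervalIntegrable (fun t : ℝ => 2 ^ K * Real.exp κ * (1 / t ^ 2)) volume 100 T := by
      apply ContinuousOn.intervalIntegrable
      intro t ht
      rw [uIcc_of_le hT] at ht
      have ht0 : t ^ 2 ≠ 0 := by
        have := ht.1
        positivity
      exact (ContinuousAt.mul continuousAt_const (ContinuousAt.div continuousAt_const (continuous_pow 2).continuousAt ht0)).continuousWithinAt
    have h1 := intervalIntegral.norm_integral_le_of_norm_le hT (Eventually.of_forall hb) hint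
    rw [intervalIntegral.integral_const_mul] at h1
    have h2 := inv_sq_int hT
    calc _ ≤ 2 ^ K * Real.exp κ * ∫ t in (100 : ℝ)..T, 1 / t ^ 2 := h1
      _ ≤ 2 ^ K * Real.exp κ * 1 := mul_le_mul_of_nonneg_left h2 (by positivity)
      _ = _ := mul_one _

/-- **The twisted moments with `m ≥ K`**, from the exponent of zeta -/
theorem upper {K m : ℕ} (hK : 1 ≤ K) (hm : m % 2 = K % 2) (hKm : K ≤ m) {κ : ℝ} (hκ : 0 ≤ κ) (H : Expo κ)
    {ε : ℝ} (hε : 0 < ε) : ∃ C T₀ : ℝ, ∀ T : ℝ, T₀ ≤ T →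
      ‖AA K m T - (if m = K then 1 else 0) * T‖ ≤ C * T ^ (K * κ + ε) := by
  obtain ⟨j, hj⟩ : ∃ j : ℕ, m = K + 2 * j := ⟨(m - K) / 2, by omega⟩
  have hn : (K : ℤ) - m = 2 * (-(j : ℤ)) := by omega
  have hK0 : (0 : ℝ) < K := by exact_mod_cast hK
  obtain ⟨C1, T1, hC1, h1⟩ := right_bound hκ H (ε := ε / K) (by positivity)
  obtain ⟨C2, hC2, h2⟩ := right_side hK j
  obtain ⟨D, hD⟩ : ∃ D, D = ‖AA K m 100‖ + ‖∫ x in (1 / 2 : ℝ)..4, FZ K (-(j : ℤ)) (⟨x, 100⟩ : ℂ)‖ + C2 := ⟨_, rfl⟩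
  have hD0 : 0 ≤ D := by rw [hD]; positivity
  refine ⟨D + 7 / 2 * C1 ^ K, max T1 100, fun T hT => ?_⟩
  have hT1 : T1 ≤ T := (le_max_left _ _).trans hT
  have hT100 : 100 ≤ T := (le_max_right _ _).trans hT
  have hT0 : 0 < T := by linarith
  have hpow : 1 ≤ T ^ (K * κ + ε) := Real.one_le_rpow (by linarith) (by positivity)
  have hif : (if m = K then (1 : ℂ) else 0) = if j = 0 then 1 else 0 := by
    by_cases h : j = 0
    · rw [if_pos h, if_pos (by omega)]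
    · rw [if_neg h, if_neg (by omega)]
  have e1 : AA K m T = AA K m 100 + ∫ t in (100 : ℝ)..T, FZ K (-(j : ℤ)) (cp t) := by
    unfold AA
    rw [← intervalIntegral.integral_add_adjacent_intervals (tw_ii K m 0 100) (tw_ii K m 100 T)]
    congr 1
    apply intervalIntegral.integral_congr
    intro t ht
    rw [uIcc_of_le hT100] at ht
    exact tw_eq hK hn (by linarith [ht.1])
  rw [e1, rect K (-(j : ℤ)) (by norm_num) hT100, hif]
  have hh : ‖∫ x in (1 / 2 : ℝ)..4, FZ K (-(j : ℤ)) (⟨x, T⟩ : ℂ)‖ ≤ 7 / 2 * (C1 ^ K * T ^ (K * κ + ε)) := by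
    have hb : ∀ x ∈ uIoc (1 / 2 : ℝ) 4, ‖FZ K (-(j : ℤ)) (⟨x, T⟩ : ℂ)‖ ≤ C1 ^ K * T ^ (K * κ + ε) := by
      intro x hx
      rw [uIoc_of_le (by norm_num)] at hx
      have h3 := h1 T hT1 x hx.1.le
      have h4 : 1 ≤ ‖XX (⟨x, T⟩ : ℂ)‖ := XX_ge_one hx.1.le hx.2 (by show (50:ℝ) ≤ T; linarith)
      unfold FZ
      rw [norm_mul, norm_pow, norm_zpow, zpow_neg, zpow_natCast, ← inv_pow]
      have h5 : ‖riemannZeta (⟨x, T⟩ : ℂ)‖ ^ K ≤ C1 ^ K * T ^ (K * κ + ε) := by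
        calc _ ≤ (C1 * T ^ (κ + ε / K)) ^ K := pow_le_pow_left₀ (norm_nonneg _) h3 _
          _ = _ := by
            rw [mul_pow, ← Real.rpow_natCast (T ^ (κ + ε / K)) K, ← Real.rpow_mul hT0.le]
            congr 2
            field_simp
      calc _ ≤ (C1 ^ K * T ^ (K * κ + ε)) * 1 :=
            mul_le_mul h5 (pow_le_one₀ (by positivity) (inv_le_one_of_one_le₀ h4)) (by positivity) (by positivity)
        _ = _ := mul_one _
    have := intervalIntegral.norm_integral_le_of_norm_le_const hb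
    rw [show |(4 : ℝ) - 1 / 2| = 7 / 2 by norm_num] at this
    linarith
  have h3 := h2 T hT100
  obtain ⟨R, hR⟩ : ∃ R, R = (∫ t in (100 : ℝ)..T, FZ K (-(j : ℤ)) (fp t)) - (if j = 0 then (1 : ℂ) else 0) * T := ⟨_, rfl⟩
  rw [← hR] at h3
  have e2 : AA K m 100 + ((∫ t in (100 : ℝ)..T, FZ K (-(j : ℤ)) (fp t)) -
      I * (∫ x in (1 / 2 : ℝ)..4, FZ K (-(j : ℤ)) (⟨x, 100⟩ : ℂ)) +
      I * (∫ x in (1 / 2 : ℝ)..4, FZ K (-(j : ℤ)) (⟨x, T⟩ : ℂ))) - (if j = 0 then (1 : ℂ) else 0) * T =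
      (AA K m 100 - I * (∫ x in (1 / 2 : ℝ)..4, FZ K (-(j : ℤ)) (⟨x, 100⟩ : ℂ)) + R) +
      I * (∫ x in (1 / 2 : ℝ)..4, FZ K (-(j : ℤ)) (⟨x, T⟩ : ℂ)) := by rw [hR]; ring
  rw [e2]
  have h4 : ‖AA K m 100 - I * (∫ x in (1 / 2 : ℝ)..4, FZ K (-(j : ℤ)) (⟨x, 100⟩ : ℂ)) + R‖ ≤ D := by
    rw [hD]
    refine (norm_add_le _ _).trans (add_le_add ((norm_sub_le _ _).trans ?_) h3)
    rw [norm_mul, Complex.norm_I, one_mul]
  refine (norm_add_le _ _).trans ?_
  rw [norm_mul, Complex.norm_I, one_mul, add_mul]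
  have h5 : D * 1 ≤ D * T ^ (K * κ + ε) := mul_le_mul_of_nonneg_left hpow hD0
  linarith

end Pool.Agent.N30.HM
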