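import Pool.Agent.N30.HM.Ad

set_option autoImplicit false

/-! The smoothed divisor sum with its full main term. -/

open MeasureTheory Set Filter Topology Polynomial

namespace Pool.Agent.N30.HM

open Pool.Agent.N30.MZ
open Pool.Agent.W131.QSJJ (dd dd_nonneg dd_zero)

theorem gsf (r : ℕ) (hr : 1 ≤ r) : ∃ P : ℝ[X], P.natDegree ≤ r ∧ P.coeff r = 1 / (r.factorial : ℝ) ∧ ∃ K δ : ℝ, 0 ≤ K ∧ 0 < δ ∧ δ ≤ 1 ∧
    (∀ y : ℝ, 1 ≤ y → |Pool.Agent.TH935.LP.SD (r + 1) ⌊y⌋₊ - y * P.eval (Real.log y)| ≤ K * y ^ (1 - δ)) ∧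
    ∀ T Δ : ℝ, 20 ≤ T → 1 ≤ Δ → 4 * Δ * √(Real.log T) ≤ T →
    |∑ n ∈ Finset.Icc 1 ⌊2 * T⌋₊, dd (r + 1) n * ge T Δ n - ∫ t in (1 : ℝ)..(2 * T), ge T Δ t * (P + derivative P).eval (Real.log t)| ≤
      K * T ^ (1 - δ) := by
  obtain ⟨P, hP, hPc, C0, δ0, hC0, hδ0, hD⟩ := div_asym r hr
  obtain ⟨δ, hδd⟩ : ∃ δ, δ = min δ0 1 := ⟨_, rfl⟩
  have hδ : 0 < δ := by rw [hδd]; exact lt_min hδ0 one_pos
  have hδ1 : δ ≤ 1 := by rw [hδd]; exact min_le_right _ _
  obtain ⟨R, hR⟩ : ∃ R : ℝ[X], R = P + derivative P := ⟨_, rfl⟩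
  have hRd : R.natDegree ≤ r := by
    rw [hR]
    refine (natDegree_add_le _ _).trans (max_le hP ?_)
    exact (natDegree_derivative_le P).trans (by omega)
  have hRc : R.coeff r = 1 / (r.factorial : ℝ) := by
    rw [hR, coeff_add, hPc]
    have : (derivative P).coeff r = 0 := by
      apply coeff_eq_zero_of_natDegree_lt
      exact lt_of_le_of_lt (natDegree_derivative_le P) (by omega)
    rw [this, add_zero]
  refine ⟨P, hP, hPc, 15 * C0 + |P.eval 0|, δ, by positivity, hδ, hδ1, fun y hy => ?_, fun T Δ hT hΔ hB => ?_⟩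
  · refine (hD y hy).trans ?_
    have h1 : y ^ (1 - δ0) ≤ y ^ (1 - δ) := Real.rpow_le_rpow_of_exponent_le hy (by
      have : δ ≤ δ0 := by rw [hδd]; exact min_le_left _ _
      linarith)
    have h2 : 0 ≤ y ^ (1 - δ) := by positivity
    have h3 : 0 ≤ |P.eval 0| := abs_nonneg _
    calc C0 * y ^ (1 - δ0) ≤ C0 * y ^ (1 - δ) := mul_le_mul_of_nonneg_left h1 hC0
      _ ≤ _ := mul_le_mul_of_nonneg_right (by linarith) h2
  have hT0 : 0 < T := by linarith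
  have hΔ0 : 0 < Δ := by linarith
  have hp := Real.pi_gt_three
  have hp2 := Real.pi_lt_d2
  obtain ⟨L, hLd⟩ : ∃ L, L = Real.log T := ⟨_, rfl⟩
  have hL1 : 1 ≤ L := by
    rw [hLd, Real.le_log_iff_exp_le hT0]
    have := Real.exp_one_lt_d9
    linarith
  have h1b : (1 : ℝ) ≤ 2 * T := by linarith
  -- Abel summation
  have hdiff : ∀ t ∈ Icc (1 : ℝ) (2 * T), DifferentiableAt ℝ (ge T Δ) t := fun t _ => (ge_deriv T hΔ0 t).differentiableAt
  have hder : deriv (ge T Δ) = fun t => 4 * Real.pi / Δ * uu T Δ t * ge T Δ t := by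
    ext t
    exact (ge_deriv T hΔ0 t).deriv
  have hgc : Continuous (ge T Δ) := continuous_iff_continuousAt.2 fun t => (ge_deriv T hΔ0 t).continuousAt
  have huc : Continuous (uu T Δ) := by
    unfold uu
    fun_prop
  have hdc : Continuous (fun t => 4 * Real.pi / Δ * uu T Δ t * ge T Δ t) := by fun_prop
  have hdint : IntegrableOn (deriv (ge T Δ)) (Icc 1 (2 * T)) := by
    rw [hder]
    exact hdc.integrableOn_Icc
  have hab := sum_mul_eq_sub_integral_mul₀ (fun k => dd (r + 1) k) (dd_zero _) (2 * T) hdiff hdint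
  have hS : ∑ n ∈ Finset.Icc 1 ⌊2 * T⌋₊, dd (r + 1) n * ge T Δ n = ∑ k ∈ Finset.Icc 0 ⌊2 * T⌋₊, ge T Δ k * dd (r + 1) k := by
    rw [← Finset.sum_subset (Finset.Icc_subset_Icc_left (Nat.zero_le 1)) (s₂ := Finset.Icc 0 ⌊2 * T⌋₊)]
    · exact Finset.sum_congr rfl fun _ _ => mul_comm _ _
    · intro x hx hx2
      rw [Finset.mem_Icc] at hx hx2
      have : x = 0 := by omega
      rw [this, dd_zero, mul_zero]
  rw [hS, hab, hder]
  simp only [sum_eq_SD]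
  rw [← intervalIntegral.integral_of_le h1b]
  -- the main term
  obtain ⟨G, hG⟩ : ∃ G : ℝ → ℝ, G = fun t => t * P.eval (Real.log t) := ⟨_, rfl⟩
  have hGd : ∀ t : ℝ, 0 < t → HasDerivAt G (R.eval (Real.log t)) t := by
    intro t ht
    rw [hG]
    have h1 : HasDerivAt (fun t => P.eval (Real.log t)) ((derivative P).eval (Real.log t) * t⁻¹) t :=
      (P.hasDerivAt (Real.log t)).comp t (Real.hasDerivAt_log ht.ne')
    have h2 := (hasDerivAt_id t).mul h1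
    refine h2.congr_deriv ?_
    rw [hR, eval_add]
    simp only [id]
    field_simp
  have huIcc : uIcc (1 : ℝ) (2 * T) = Icc 1 (2 * T) := uIcc_of_le h1b
  have hRcont : ContinuousOn (fun t => R.eval (Real.log t)) (Icc 1 (2 * T)) := by
    apply R.continuous.comp_continuousOn
    apply Real.continuousOn_log.mono
    intro t ht
    have : 0 < t := by linarith [ht.1]
    simp [this.ne']
  have hGcont : ContinuousOn G (Icc 1 (2 * T)) := fun t ht => (hGd t (by linarith [ht.1])).continuousAt.continuousWithinAt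
  have hparts := intervalIntegral.integral_mul_deriv_eq_deriv_mul (a := 1) (b := 2 * T) (u := ge T Δ) (v := G)
    (u' := fun t => 4 * Real.pi / Δ * uu T Δ t * ge T Δ t) (v' := fun t => R.eval (Real.log t))
    (fun t _ => ge_deriv T hΔ0 t) (fun t ht => hGd t (by rw [huIcc] at ht; linarith [ht.1]))
    (hdc.intervalIntegrable _ _) ((huIcc ▸ hRcont).intervalIntegrable)
  -- the error
  obtain ⟨M, hM⟩ : ∃ M, M = C0 * (2 * T) ^ (1 - δ) := ⟨_, rfl⟩
  have hM0 : 0 ≤ M := by rw [hM]; positivity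
  have hE : ∀ t ∈ Icc (1 : ℝ) (2 * T), |Pool.Agent.TH935.LP.SD (r + 1) ⌊t⌋₊ - G t| ≤ M := by
    intro t ht
    rw [hG, hM]
    refine (hD t ht.1).trans (mul_le_mul_of_nonneg_left ?_ hC0)
    calc t ^ (1 - δ0) ≤ t ^ (1 - δ) := Real.rpow_le_rpow_of_exponent_le ht.1 (by
          have : δ ≤ δ0 := by rw [hδd]; exact min_le_left _ _
          linarith)
      _ ≤ (2 * T) ^ (1 - δ) := Real.rpow_le_rpow (by linarith [ht.1]) ht.2 (by linarith)
  have hCint : IntervalIntegrable (fun t => 4 * Real.pi / Δ * uu T Δ t * ge T Δ t * Pool.Agent.TH935.LP.SD (r + 1) ⌊t⌋₊)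
      volume 1 (2 * T) := by
    rw [intervalIntegrable_iff_integrableOn_Icc_of_le h1b]
    have := integrableOn_mul_sum_Icc (m := 0) (fun k => dd (r + 1) k) (by norm_num : (0:ℝ) ≤ 1) hdint
    rw [hder] at this
    simp only [sum_eq_SD] at this
    exact this
  have hGint : IntervalIntegrable (fun t => 4 * Real.pi / Δ * uu T Δ t * ge T Δ t * G t) volume 1 (2 * T) := by
    apply ContinuousOn.intervalIntegrable
    rw [huIcc]
    exact hdc.continuousOn.mul hGcont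
  have hI1 : |(∫ t in (1 : ℝ)..(2 * T), 4 * Real.pi / Δ * uu T Δ t * ge T Δ t * Pool.Agent.TH935.LP.SD (r + 1) ⌊t⌋₊) -
      ∫ t in (1 : ℝ)..(2 * T), 4 * Real.pi / Δ * uu T Δ t * ge T Δ t * G t| ≤ 2 * Real.pi * M := by
    rw [← intervalIntegral.integral_sub hCint hGint, ← Real.norm_eq_abs]
    have hb : ∀ t ∈ Ioc (1 : ℝ) (2 * T), ‖4 * Real.pi / Δ * uu T Δ t * ge T Δ t * Pool.Agent.TH935.LP.SD (r + 1) ⌊t⌋₊ -
        4 * Real.pi / Δ * uu T Δ t * ge T Δ t * G t‖ ≤ 4 * Real.pi / Δ * M * hh T Δ t := by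
      intro t ht
      rw [← mul_sub, norm_mul, Real.norm_eq_abs, Real.norm_eq_abs]
      calc _ ≤ (4 * Real.pi / Δ * hh T Δ t) * M :=
            mul_le_mul (ge_deriv_le T hΔ0 t) (hE t ⟨ht.1.le, ht.2⟩) (abs_nonneg _) (mul_nonneg (by positivity) (hh_nonneg _ _ _))
        _ = _ := by ring
    have h1 := intervalIntegral.norm_integral_le_of_norm_le h1b (Filter.Eventually.of_forall hb)
      (((hh_int T hΔ0).const_mul _).intervalIntegrable)
    refine h1.trans ?_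
    rw [intervalIntegral.integral_const_mul]
    have h2 : ∫ t in (1 : ℝ)..(2 * T), hh T Δ t ≤ Δ / 2 := by
      rw [intervalIntegral.integral_of_le h1b]
      exact (setIntegral_le_integral (hh_int T hΔ0) (Filter.Eventually.of_forall fun t => hh_nonneg _ _ _)).trans (hh_total T hΔ0)
    calc 4 * Real.pi / Δ * M * ∫ t in (1 : ℝ)..(2 * T), hh T Δ t ≤ 4 * Real.pi / Δ * M * (Δ / 2) :=
          mul_le_mul_of_nonneg_left h2 (by positivity)
      _ = 2 * Real.pi * M := by field_simp; ring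
  have hgb : ge T Δ (2 * T) ≤ 1 := by
    rw [ge_def, Real.exp_le_one_iff]
    have := sq_nonneg (uu T Δ (2 * T))
    linarith
  have hgb0 : 0 ≤ ge T Δ (2 * T) := by rw [ge_def]; exact (Real.exp_pos _).le
  have hg1 : ge T Δ 1 ≤ 1 := by
    rw [ge_def, Real.exp_le_one_iff]
    have := sq_nonneg (uu T Δ 1)
    linarith
  have hg10 : 0 ≤ ge T Δ 1 := by rw [ge_def]; exact (Real.exp_pos _).le
  have hb1 : |ge T Δ (2 * T) * (Pool.Agent.TH935.LP.SD (r + 1) ⌊2 * T⌋₊ - G (2 * T))| ≤ M := by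
    rw [abs_mul, abs_of_nonneg hgb0]
    calc _ ≤ 1 * M := mul_le_mul hgb (hE _ ⟨h1b, le_rfl⟩) (abs_nonneg _) zero_le_one
      _ = M := one_mul _
  have hb2 : |ge T Δ 1 * G 1| ≤ |P.eval 0| := by
    rw [hG]
    simp only [Real.log_one, one_mul]
    rw [abs_mul, abs_of_nonneg hg10]
    calc _ ≤ 1 * |P.eval 0| := mul_le_mul_of_nonneg_right hg1 (abs_nonneg _)
      _ = _ := one_mul _
  have hTd : 1 ≤ T ^ (1 - δ) := Real.one_le_rpow (by linarith) (by linarith)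
  have hMT : M ≤ 2 * C0 * T ^ (1 - δ) := by
    rw [hM, Real.mul_rpow (by norm_num) hT0.le]
    have h1 : (2:ℝ) ^ (1 - δ) ≤ 2 := by
      conv_rhs => rw [← Real.rpow_one 2]
      exact Real.rpow_le_rpow_of_exponent_le (by norm_num) (by linarith)
    have h2 : 0 ≤ T ^ (1 - δ) := by positivity
    have h3 : (2:ℝ) ^ (1 - δ) * T ^ (1 - δ) ≤ 2 * T ^ (1 - δ) := mul_le_mul_of_nonneg_right h1 h2
    nlinarith
  have hsplit : ge T Δ (2 * T) * Pool.Agent.TH935.LP.SD (r + 1) ⌊2 * T⌋₊ -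
      (∫ t in (1 : ℝ)..(2 * T), 4 * Real.pi / Δ * uu T Δ t * ge T Δ t * Pool.Agent.TH935.LP.SD (r + 1) ⌊t⌋₊) -
      (∫ t in (1 : ℝ)..(2 * T), ge T Δ t * R.eval (Real.log t)) =
      ge T Δ (2 * T) * (Pool.Agent.TH935.LP.SD (r + 1) ⌊2 * T⌋₊ - G (2 * T)) + ge T Δ 1 * G 1 -
      ((∫ t in (1 : ℝ)..(2 * T), 4 * Real.pi / Δ * uu T Δ t * ge T Δ t * Pool.Agent.TH935.LP.SD (r + 1) ⌊t⌋₊) -
      ∫ t in (1 : ℝ)..(2 * T), 4 * Real.pi / Δ * uu T Δ t * ge T Δ t * G t) := by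
    rw [hparts]; ring
  rw [← hR, hsplit]
  have h4 := abs_sub (ge T Δ (2 * T) * (Pool.Agent.TH935.LP.SD (r + 1) ⌊2 * T⌋₊ - G (2 * T)) + ge T Δ 1 * G 1)
    ((∫ t in (1 : ℝ)..(2 * T), 4 * Real.pi / Δ * uu T Δ t * ge T Δ t * Pool.Agent.TH935.LP.SD (r + 1) ⌊t⌋₊) -
      ∫ t in (1 : ℝ)..(2 * T), 4 * Real.pi / Δ * uu T Δ t * ge T Δ t * G t)
  have h5 := abs_add_le (ge T Δ (2 * T) * (Pool.Agent.TH935.LP.SD (r + 1) ⌊2 * T⌋₊ - G (2 * T))) (ge T Δ 1 * G 1)
  have h6 : |P.eval 0| * 1 ≤ |P.eval 0| * T ^ (1 - δ) := mul_le_mul_of_nonneg_left hTd (abs_nonneg _)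
  have h7 : (2 * Real.pi + 1) * M ≤ 7.3 * (2 * C0 * T ^ (1 - δ)) :=
    mul_le_mul (by linarith) hMT hM0 (by norm_num)
  have h8 : 0 ≤ C0 * T ^ (1 - δ) := by positivity
  rw [add_mul]
  linarith

end Pool.Agent.N30.HM
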