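import Pool.Agent.N30.HM.Ae
import Pool.Agent.N30.OD.Ja

set_option autoImplicit false

/-! The integral of `ζ^j X` on the line `Re s = 4` with its full main term. -/

open Complex MeasureTheory Set Filter Topology Polynomial

namespace Pool.Agent.N30.HM

open Pool.Agent.W188.QS Pool.Agent.N30.MZ
open Pool.Agent.W131.QSJJ (dd dd_nonneg dd_zero dd_cast norm_cp series In_le2)
open Pool.Agent.W885.QS (norm_zeta_le_two gg_integrable gg_integral gg_pos GG_norm fp_re fp_im fp_cont GG_cont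
  zeta_cont zeta_bd bound_int bound_compl pw tail_pt)

theorem Jf (j : ℕ) (hj : 2 ≤ j) : ∃ P : ℝ[X], P.natDegree ≤ j - 1 ∧ P.coeff (j - 1) = 1 / ((j - 1).factorial : ℝ) ∧
    ∃ K δ B T₀ : ℝ, 0 ≤ K ∧ 0 < δ ∧ δ ≤ 1 / 8 ∧ 4 ≤ B ∧
    (∀ y : ℝ, 1 ≤ y → |Pool.Agent.TH935.LP.SD j ⌊y⌋₊ - y * P.eval (Real.log y)| ≤ K * y ^ (1 - δ)) ∧ ∀ T Δ : ℝ, T₀ ≤ T →
    T ^ (1 - δ) ≤ Δ → B * Δ * √(Real.log T) ≤ T →
    ‖(∫ t : ℝ, riemannZeta (fp t) ^ j * XX (fp t) * GG T Δ (fp t)) -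
      ((2 * Real.pi * ∫ t in (1 : ℝ)..(2 * T), ge T Δ t * (P + derivative P).eval (Real.log t) : ℝ) : ℂ)‖ ≤
      K * (Δ * T ^ (-δ)) := by
  obtain ⟨_, B0, T1, hB0, h2b⟩ := Pool.Agent.W975.QSKe.qs_ke
  obtain ⟨C3, -, h3b⟩ := Pool.Agent.W253.QS.qs_i3
  obtain ⟨Cd, hCd, hsum, hbd, hz⟩ := Pool.Agent.W32.QS.qs_div j (by omega)
  obtain ⟨P, hPd, hPc, K0, δ0, hK0, hδ0, hδ01, hPz, hgs⟩ := gsf (j - 1) (by omega)
  have hmel := Pool.Agent.W372.QS.qs_mel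
  have hC3 : 0 ≤ C3 := by
    have := (norm_nonneg _).trans (h3b 1 1 le_rfl le_rfl 1 le_rfl).2
    simpa using this
  have e2k : j - 1 + 1 = j := by omega
  rw [e2k] at hgs hPz
  obtain ⟨δ, hδd⟩ : ∃ δ, δ = min (δ0 / 2) (1 / 8) := ⟨_, rfl⟩
  have hδ : 0 < δ := by rw [hδd]; exact lt_min (by positivity) (by norm_num)
  have hδ1 : δ ≤ 1 / 8 := by rw [hδd]; exact min_le_right _ _
  have hδ2 : 2 * δ ≤ δ0 := by
    have : δ ≤ δ0 / 2 := by rw [hδd]; exact min_le_left _ _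
    linarith
  have hSn0 : 0 ≤ ∑' n : ℕ, (n : ℝ) ^ (-(3 / 2 : ℝ)) :=
    tsum_nonneg fun n => Real.rpow_nonneg (Nat.cast_nonneg _) _
  obtain ⟨C1, hC1⟩ : ∃ C1, C1 = Cd * 2 * 2 ^ (j - 1) := ⟨_, rfl⟩
  obtain ⟨C2, hC2⟩ : ∃ C2, C2 = √Real.pi * 2 * Cd * 10 ^ (j - 1) +
        Cd * C3 * ∑' n : ℕ, (n : ℝ) ^ (-(3 / 2 : ℝ)) := ⟨_, rfl⟩
  have hC10 : 0 ≤ C1 := by rw [hC1]; positivity
  have hC20 : 0 ≤ C2 := by rw [hC2]; positivity
  -- `log T ≤ T^{1/8}` eventually, in the form needed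
  obtain ⟨T2, hT2⟩ := eventually_atTop.1 ((isLittleO_log_rpow_atTop (by norm_num : (0:ℝ) < 1 / 8)).bound (by norm_num : (0:ℝ) < 1))
  obtain ⟨T3, hT3⟩ := eventually_atTop.1 ((isLittleO_log_rpow_atTop (by positivity : (0:ℝ) < 1 / (8 * (j - 1 + 1 : ℕ)))).bound
    (by norm_num : (0:ℝ) < 1))
  refine ⟨P, hPd, hPc, C1 * 40000 + C2 + 2 * Real.pi * K0 + K0, δ, max B0 4, max (max T1 T2) (max 20 T3), by positivity, hδ, hδ1,
    le_max_right _ _, fun y hy => ?_, fun T Δ hT hΔ1 hBT => ?_⟩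
  · refine (hPz y hy).trans ?_
    have h1 : y ^ (1 - δ0) ≤ y ^ (1 - δ) := Real.rpow_le_rpow_of_exponent_le hy (by linarith)
    have h2 : 0 ≤ y ^ (1 - δ) := by positivity
    have h3 := Real.pi_pos
    calc K0 * y ^ (1 - δ0) ≤ K0 * y ^ (1 - δ) := mul_le_mul_of_nonneg_left h1 hK0
      _ ≤ _ := mul_le_mul_of_nonneg_right (by
        have : 0 ≤ C1 * 40000 + C2 + 2 * Real.pi * K0 := by positivity
        linarith) h2
  have hTT1 : T1 ≤ T := ((le_max_left _ _).trans (le_max_left _ _)).trans hT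
  have hTT2 : T2 ≤ T := ((le_max_right _ _).trans (le_max_left _ _)).trans hT
  have hT20 : 20 ≤ T := ((le_max_left _ _).trans (le_max_right _ _)).trans hT
  have hTT3 : T3 ≤ T := ((le_max_right _ _).trans (le_max_right _ _)).trans hT
  have hT0 : 0 < T := by linarith
  obtain ⟨L, hLd⟩ : ∃ L, L = Real.log T := ⟨_, rfl⟩
  have hL1 : 1 ≤ L := by
    rw [hLd, Real.le_log_iff_exp_le hT0]
    have := Real.exp_one_lt_d9
    linarith
  have hLT : L ≤ T ^ (1 / 8 : ℝ) := by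
    have := hT2 T hTT2
    rw [Real.norm_of_nonneg (by rw [← hLd]; linarith), Real.norm_of_nonneg (by positivity), one_mul, ← hLd] at this
    exact this
  have hΔ34 : T ^ (3 / 4 : ℝ) ≤ Δ := (Real.rpow_le_rpow_of_exponent_le (by linarith) (by linarith)).trans hΔ1
  have hLΔ : L ≤ Δ := hLT.trans ((Real.rpow_le_rpow_of_exponent_le (by linarith) (by norm_num)).trans hΔ34)
  have hΔ4 : 4 ≤ Δ := by
    have h1 : (4:ℝ) = 16 ^ (1 / 2 : ℝ) := by
      rw [← Real.sqrt_eq_rpow, show (16:ℝ) = 4 ^ 2 by norm_num, Real.sqrt_sq (by norm_num)]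
    rw [h1]
    calc (16:ℝ) ^ (1 / 2 : ℝ) ≤ T ^ (1 / 2 : ℝ) := Real.rpow_le_rpow (by norm_num) (by linarith) (by norm_num)
      _ ≤ T ^ (3 / 4 : ℝ) := Real.rpow_le_rpow_of_exponent_le (by linarith) (by norm_num)
      _ ≤ Δ := hΔ34
  have hΔ0 : 0 < Δ := by linarith
  have hs1 : 1 ≤ √L := by rw [Real.one_le_sqrt]; exact hL1
  have hB0T : B0 * Δ * √(Real.log T) ≤ T := by
    refine le_trans ?_ hBT
    apply mul_le_mul_of_nonneg_right _ (Real.sqrt_nonneg _)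
    exact mul_le_mul_of_nonneg_right (le_max_left _ _) hΔ0.le
  have h4T : 4 * Δ * √(Real.log T) ≤ T := by
    refine le_trans ?_ hBT
    apply mul_le_mul_of_nonneg_right _ (Real.sqrt_nonneg _)
    exact mul_le_mul_of_nonneg_right (le_max_right _ _) hΔ0.le
  have h4T' : 4 * Δ ≤ T := by
    have : 4 * Δ * 1 ≤ 4 * Δ * √(Real.log T) := mul_le_mul_of_nonneg_left (by rw [← hLd]; exact hs1) (by positivity)
    linarith
  have hΔT : Δ ≤ T := by linarith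
  -- the corrected terms
  obtain ⟨J, hJ⟩ : ∃ J : ℕ → ℂ, J = fun n => if n ∈ Finset.Icc 1 ⌊2 * T⌋₊ then ((2 * Real.pi * ge T Δ n : ℝ) : ℂ) else 0 := ⟨_, rfl⟩
  obtain ⟨η, hη⟩ : ∃ η, η = 40000 * (T / Δ ^ 2) := ⟨_, rfl⟩
  have hη0 : 0 ≤ η := by rw [hη]; positivity
  have hfl : (⌊2 * T⌋₊ : ℝ) ≤ 2 * T := Nat.floor_le (by linarith)
  have hI1 : ∀ n : ℕ, 1 ≤ n → n ≤ ⌊2 * T⌋₊ → ‖In T Δ n - J n‖ ≤ η := by
    intro n hn hn2
    have hn2' : (n : ℝ) ≤ 2 * T := le_trans (by exact_mod_cast hn2) hfl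
    have h1 := In_asym hmel T hΔ4 n hn
    have hJn : J n = ((2 * Real.pi * ge T Δ n : ℝ) : ℂ) := by rw [hJ]; exact if_pos (Finset.mem_Icc.2 ⟨hn, hn2⟩)
    rw [hJn]
    have e : In T Δ n - ((2 * Real.pi * ge T Δ n : ℝ) : ℂ) = (In T Δ n - ((2 * Real.pi * (ge T Δ n + ge T Δ (-n)) : ℝ) : ℂ)) +
        ((2 * Real.pi * ge T Δ (-n) : ℝ) : ℂ) := by push_cast; ring
    rw [e]
    have h2 : ge T Δ (-n) ≤ T ^ (-(1 : ℝ)) := by
      rw [ge_def, Real.rpow_def_of_pos hT0]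
      apply Real.exp_le_exp.2
      have h3 : Real.log T ≤ (uu T Δ (-n)) ^ 2 := by
        unfold uu
        rw [div_pow, le_div_iff₀ (by positivity)]
        have h4 : (4 * Δ * √(Real.log T)) ^ 2 ≤ T ^ 2 := pow_le_pow_left₀ (by positivity) h4T 2
        rw [mul_pow, Real.sq_sqrt (by rw [← hLd]; linarith)] at h4
        have h5 : T ^ 2 ≤ (T - 2 * Real.pi * (-(n : ℝ))) ^ 2 := by
          apply pow_le_pow_left₀ hT0.le
          have : 0 ≤ 2 * Real.pi * n := by positivity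
          linarith
        have h6 : 0 ≤ Real.log T * Δ ^ 2 := by rw [← hLd]; positivity
        nlinarith
      linarith
    have h3 : 2 * Real.pi * ge T Δ (-n) ≤ 8 * (T / Δ ^ 2) := by
      have h4 : T ^ (-(1 : ℝ)) ≤ T / Δ ^ 2 := by
        rw [Real.rpow_neg_one, inv_eq_one_div, div_le_div_iff₀ hT0 (by positivity)]
        nlinarith
      have h5 := Real.pi_lt_d2
      have h6 : 0 ≤ ge T Δ (-n) := by rw [ge_def]; exact (Real.exp_pos _).le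
      have h7 : 0 ≤ T / Δ ^ 2 := by positivity
      nlinarith
    have h4 : ‖((2 * Real.pi * ge T Δ (-n) : ℝ) : ℂ)‖ ≤ 8 * (T / Δ ^ 2) := by
      rw [Complex.norm_real, Real.norm_of_nonneg]
      · exact h3
      · have h6 : 0 ≤ ge T Δ (-n) := by rw [ge_def]; exact (Real.exp_pos _).le
        positivity
    refine (norm_add_le _ _).trans ((add_le_add h1 h4).trans ?_)
    have h5 : 4 / Δ ≤ T / Δ ^ 2 := by
      rw [div_le_div_iff₀ hΔ0 (by positivity)]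
      nlinarith
    have h6 : 128 * n / Δ ^ 2 ≤ 256 * (T / Δ ^ 2) := by
      rw [mul_div_assoc', div_le_div_iff_of_pos_right (by positivity)]
      linarith
    rw [hη]
    have h7 : 0 ≤ T / Δ ^ 2 := by positivity
    linarith
  have hJ0 : ∀ n : ℕ, 2 * T < n → J n = 0 := by
    intro n hn
    rw [hJ]
    apply if_neg
    rw [Finset.mem_Icc, not_and]
    intro _ h
    have : (n : ℝ) ≤ 2 * T := le_trans (by exact_mod_cast h) hfl
    linarith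
  have hfin := final' j Cd C3 η hCd hC3 hη0 hsum hbd T Δ (by linarith) (by rw [← hLd]; exact hL1) hΔT (by linarith)
    (fun n => In T Δ n - J n) hI1
    (fun n hn hn2 => by
      show ‖In T Δ n - J n‖ ≤ _
      rw [hJ0 n hn2, sub_zero]
      exact In_le2 hmel T Δ (by linarith) n hn _ (fun ε σ hε hσ => h2b T Δ ε σ hTT1 (by rw [← hLd]; exact hLΔ) hB0T hε hσ n hn2.le))
    (fun n hn hn2 => by
      show ‖In T Δ n - J n‖ ≤ _
      rw [hJ0 n hn2, sub_zero]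
      exact (h3b T Δ (by linarith) hΔT n hn).2)
  -- the two series
  rw [series j Cd hbd (fun s hs => by rw [(hz s hs).2]; simp only [dd_cast]) T Δ
    (fun n hn => (h3b T Δ (by linarith) hΔT n hn).1)]
  have hJsum : Summable (fun n : ℕ => ((dd j n : ℝ) : ℂ) * J n) := by
    apply summable_of_ne_finset_zero (s := Finset.Icc 1 ⌊2 * T⌋₊)
    intro n hn
    rw [hJ]
    simp only [if_neg hn, mul_zero]
  have hIsum : Summable (fun n : ℕ => ((dd j n : ℝ) : ℂ) * In T Δ n) := by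
    have hs : Summable fun n : ℕ => (Cd * C3 * T ^ 5) * (n : ℝ) ^ (-(2 : ℝ)) :=
      (Real.summable_nat_rpow.2 (by norm_num)).mul_left _
    refine Summable.of_norm_bounded hs fun n => ?_
    rw [norm_mul, Complex.norm_real, Real.norm_of_nonneg (dd_nonneg _ n)]
    rcases Nat.eq_zero_or_pos n with h | h
    · subst h
      rw [dd_zero, zero_mul]
      positivity
    · have hn : (0 : ℝ) < n := Nat.cast_pos.2 h
      have e : (n : ℝ) ^ 2 * (n : ℝ) ^ (-(4 : ℝ)) = (n : ℝ) ^ (-(2 : ℝ)) := by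
        rw [← Real.rpow_natCast, ← Real.rpow_add hn]
        norm_num
      calc dd j n * ‖In T Δ n‖ ≤ (Cd * (n : ℝ) ^ 2) * (C3 * (n : ℝ) ^ (-(4 : ℝ)) * T ^ 5) :=
            mul_le_mul (hbd n) (h3b T Δ (by linarith) hΔT n h).2 (norm_nonneg _) (by positivity)
        _ = Cd * C3 * T ^ 5 * ((n : ℝ) ^ 2 * (n : ℝ) ^ (-(4 : ℝ))) := by ring
        _ = _ := by rw [e]
  have hJval : ∑' n : ℕ, ((dd j n : ℝ) : ℂ) * J n =
      ((2 * Real.pi * ∑ n ∈ Finset.Icc 1 ⌊2 * T⌋₊, dd j n * ge T Δ n : ℝ) : ℂ) := by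
    rw [tsum_eq_sum (s := Finset.Icc 1 ⌊2 * T⌋₊)]
    · rw [Finset.mul_sum]
      push_cast
      apply Finset.sum_congr rfl
      intro n hn
      rw [hJ]
      simp only [if_pos hn]
      push_cast
      ring
    · intro n hn
      rw [hJ]
      simp only [if_neg hn, mul_zero]
  have hsub : ∑' n : ℕ, ((dd j n : ℝ) : ℂ) * (In T Δ n - J n) = (∑' n : ℕ, ((dd j n : ℝ) : ℂ) * In T Δ n) -
      ∑' n : ℕ, ((dd j n : ℝ) : ℂ) * J n := by
    rw [← hIsum.tsum_sub hJsum]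
    exact tsum_congr fun n => by ring
  rw [hsub, hJval, ← hLd, ← hC1, ← hC2] at hfin
  have hg := hgs T Δ hT20 (by linarith) h4T
  obtain ⟨S, hS⟩ : ∃ S, S = ∑ n ∈ Finset.Icc 1 ⌊2 * T⌋₊, dd j n * ge T Δ n := ⟨_, rfl⟩
  rw [← hS] at hg hfin
  obtain ⟨N, hN⟩ : ∃ N, N = ∫ t in (1 : ℝ)..(2 * T), ge T Δ t * (P + derivative P).eval (Real.log t) := ⟨_, rfl⟩
  rw [← hN] at hg ⊢
  obtain ⟨A, hA⟩ : ∃ A : ℂ, A = ∑' n : ℕ, ((dd j n : ℝ) : ℂ) * In T Δ n := ⟨_, rfl⟩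
  rw [← hA] at hfin ⊢
  have e2 : A - ((2 * Real.pi * N : ℝ) : ℂ) = (A - ((2 * Real.pi * S : ℝ) : ℂ)) +
      ((2 * Real.pi * (S - N) : ℝ) : ℂ) := by push_cast; ring
  rw [e2]
  have h1 : ‖((2 * Real.pi * (S - N) : ℝ) : ℂ)‖ ≤ 2 * Real.pi * (K0 * T ^ (1 - δ0)) := by
    rw [Complex.norm_real, Real.norm_eq_abs, abs_mul, abs_of_pos (by positivity : 0 < 2 * Real.pi)]
    exact mul_le_mul_of_nonneg_left hg (by positivity)
  have h2 : T ^ (1 - δ0) ≤ Δ * T ^ (-δ) := by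
    calc T ^ (1 - δ0) ≤ T ^ (1 - δ + -δ) := Real.rpow_le_rpow_of_exponent_le (by linarith) (by linarith)
      _ = T ^ (1 - δ) * T ^ (-δ) := Real.rpow_add hT0 _ _
      _ ≤ _ := mul_le_mul_of_nonneg_right hΔ1 (by positivity)
  -- powers of `L`
  have hLj : L ^ (j - 1) ≤ T ^ (1 / 8 : ℝ) := by
    have h3 := hT3 T hTT3
    rw [Real.norm_of_nonneg (by rw [← hLd]; linarith), Real.norm_of_nonneg (by positivity), one_mul, ← hLd] at h3
    have hj0 : (0:ℝ) < (j - 1 + 1 : ℕ) := by positivity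
    calc L ^ (j - 1) ≤ L ^ (j - 1 + 1) := pow_le_pow_right₀ hL1 (by omega)
      _ ≤ (T ^ (1 / (8 * ((j - 1 + 1 : ℕ) : ℝ)))) ^ (j - 1 + 1) := pow_le_pow_left₀ (by linarith) h3 _
      _ = T ^ (1 / 8 : ℝ) := by
        rw [← Real.rpow_natCast, ← Real.rpow_mul hT0.le]
        congr 1
        field_simp
  have hΔ78 : T ^ (7 / 8 : ℝ) ≤ Δ := (Real.rpow_le_rpow_of_exponent_le (by linarith) (by linarith)).trans hΔ1
  have h3 : T ^ 2 * T ^ (1 / 8 : ℝ) ≤ Δ ^ 3 * T ^ (-δ) := by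
    have h31 : T ^ 2 * T ^ (1 / 8 : ℝ) ≤ T ^ (21 / 8 - δ : ℝ) := by
      rw [← Real.rpow_natCast, ← Real.rpow_add hT0]
      apply Real.rpow_le_rpow_of_exponent_le (by linarith)
      push_cast
      linarith
    have h33 : T ^ (21 / 8 - δ : ℝ) = (T ^ (7 / 8 : ℝ)) ^ 3 * T ^ (-δ) := by
      rw [← Real.rpow_natCast, ← Real.rpow_mul hT0.le, ← Real.rpow_add hT0]
      congr 1
      push_cast
      ring
    rw [h33] at h31
    exact h31.trans (mul_le_mul_of_nonneg_right (pow_le_pow_left₀ (by positivity) hΔ78 3) (by positivity))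
  have h4 : η * C1 * T * L ^ (j - 1) ≤ C1 * 40000 * (Δ * T ^ (-δ)) := by
    rw [hη]
    have h5 : T / Δ ^ 2 * T * L ^ (j - 1) ≤ Δ * T ^ (-δ) := by
      rw [div_mul_eq_mul_div, div_mul_eq_mul_div, div_le_iff₀ (by positivity)]
      calc T * T * L ^ (j - 1) ≤ T * T * T ^ (1 / 8 : ℝ) := mul_le_mul_of_nonneg_left hLj (by positivity)
        _ = T ^ 2 * T ^ (1 / 8 : ℝ) := by ring
        _ ≤ Δ ^ 3 * T ^ (-δ) := h3
        _ = Δ * T ^ (-δ) * Δ ^ 2 := by ring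
    calc 40000 * (T / Δ ^ 2) * C1 * T * L ^ (j - 1) = C1 * 40000 * (T / Δ ^ 2 * T * L ^ (j - 1)) := by ring
      _ ≤ _ := mul_le_mul_of_nonneg_left h5 (by positivity)
  have h5 : C2 * L ^ (j - 1) ≤ C2 * (Δ * T ^ (-δ)) := by
    apply mul_le_mul_of_nonneg_left _ hC20
    calc L ^ (j - 1) ≤ T ^ (1 / 8 : ℝ) := hLj
      _ ≤ T ^ (7 / 8 + -δ : ℝ) := Real.rpow_le_rpow_of_exponent_le (by linarith) (by linarith)
      _ = T ^ (7 / 8 : ℝ) * T ^ (-δ) := Real.rpow_add hT0 _ _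
      _ ≤ _ := mul_le_mul_of_nonneg_right hΔ78 (by positivity)
  refine (norm_add_le _ _).trans ((add_le_add hfin h1).trans ?_)
  have h6 : 2 * Real.pi * (K0 * T ^ (1 - δ0)) ≤ 2 * Real.pi * K0 * (Δ * T ^ (-δ)) := by
    rw [mul_assoc (2 * Real.pi)]
    apply mul_le_mul_of_nonneg_left _ (by positivity)
    exact mul_le_mul_of_nonneg_left h2 hK0
  have h7 : 0 ≤ K0 * (Δ * T ^ (-δ)) := by positivity
  calc _ ≤ C1 * 40000 * (Δ * T ^ (-δ)) + C2 * (Δ * T ^ (-δ)) + 2 * Real.pi * K0 * (Δ * T ^ (-δ)) + K0 * (Δ * T ^ (-δ)) := by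
        linarith
    _ = _ := by ring

end Pool.Agent.N30.HM
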