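import Pool.Agent.N30.HM.Af

set_option autoImplicit false

/-! The mixed moments in Gaussian windows with the full main term. -/

open Complex MeasureTheory Set Filter Topology Polynomial

namespace Pool.Agent.N30.HM

open Pool.Agent.W188.QS Pool.Agent.N30.MZ Pool.Agent.N30.OD
open Pool.Agent.W131.QSJJ (dd dd_nonneg dd_zero dd_cast norm_cp)
open Pool.Agent.W885.QS (norm_zeta_le_two gg_integrable gg_integral gg_pos GG_norm fp_re fp_im fp_cont GG_cont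
  zeta_cont zeta_bd bound_int bound_compl pw tail_pt)

lemma far_sq {B T Δ t : ℝ} (hB : 20 ≤ B) (hL : 1 ≤ Real.log T) (hT : 0 < T) (hΔ : 1 ≤ Δ) (hBT : B * Δ * √(Real.log T) ≤ T)
    (ht : T / 2 ≤ |t - T|) : 100 * Real.log T ≤ ((t - T) / Δ) ^ 2 := by
  have hΔ0 : 0 < Δ := by linarith
  rw [div_pow, le_div_iff₀ (by positivity)]
  have h1 : (T / 2) ^ 2 ≤ (t - T) ^ 2 := by
    rw [← sq_abs (t - T)]
    exact pow_le_pow_left₀ (by positivity) ht 2
  have h2 : (20 * Δ * √(Real.log T)) ^ 2 ≤ T ^ 2 := by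
    apply pow_le_pow_left₀ (by positivity)
    refine le_trans ?_ hBT
    apply mul_le_mul_of_nonneg_right _ (Real.sqrt_nonneg _)
    exact mul_le_mul_of_nonneg_right hB hΔ0.le
  rw [mul_pow, Real.sq_sqrt (by linarith)] at h2
  nlinarith

lemma gg_tail {B T Δ t : ℝ} (hB : 20 ≤ B) (hL : 1 ≤ Real.log T) (hT : 0 < T) (hΔ : 1 ≤ Δ) (hBT : B * Δ * √(Real.log T) ≤ T)
    (ht : T / 2 ≤ |t - T|) : gg T (2 * Δ) t ≤ T ^ (-(2 : ℝ)) * gg T (4 * Δ) t := by
  have h := far_sq hB hL hT hΔ hBT ht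
  have hΔ0 : 0 < Δ := by linarith
  unfold gg
  rw [Real.rpow_def_of_pos hT, ← Real.exp_add]
  apply Real.exp_le_exp.2
  have e1 : ((t - T) / (2 * Δ)) ^ 2 = ((t - T) / Δ) ^ 2 / 4 := by field_simp; ring
  have e2 : ((t - T) / (4 * Δ)) ^ 2 = ((t - T) / Δ) ^ 2 / 16 := by field_simp; ring
  rw [e1, e2]
  linarith

lemma gg_far2 {B T Δ t : ℝ} (hB : 20 ≤ B) (hL : 1 ≤ Real.log T) (hT : 0 < T) (hΔ : 1 ≤ Δ) (hBT : B * Δ * √(Real.log T) ≤ T)
    (ht : T / 2 ≤ |t - T|) : gg T Δ t ≤ T ^ (-(100 : ℝ)) := by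
  have h := far_sq hB hL hT hΔ hBT ht
  unfold gg
  rw [Real.rpow_def_of_pos hT]
  apply Real.exp_le_exp.2
  linarith

/-- `N = k - 1`, with the full main term -/
theorem tp_full (p k : ℕ) (hk : 1 ≤ k) : ∃ P : ℝ[X], P.natDegree ≤ p + 2 * k - 1 ∧
    P.coeff (p + 2 * k - 1) = 1 / ((p + 2 * k - 1).factorial : ℝ) ∧ ∃ K δ B T₀ : ℝ, 0 ≤ K ∧ 0 < δ ∧ δ ≤ 1 / 8 ∧ 20 ≤ B ∧ 100 ≤ T₀ ∧
    (∀ y : ℝ, 1 ≤ y → |Pool.Agent.TH935.LP.SD (p + 2 * k) ⌊y⌋₊ - y * P.eval (Real.log y)| ≤ K * y ^ (1 - δ)) ∧ ∀ T Δ : ℝ, T₀ ≤ T →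
    T ^ (1 - δ) ≤ Δ → B * Δ * √(Real.log T) ≤ T →
    ‖TP p k (k - 1) T Δ - ((2 * Real.pi * ∫ t in (1 : ℝ)..(2 * T), ge T Δ t * (P + derivative P).eval (Real.log t) : ℝ) : ℂ)‖ ≤
      K * (Δ * T ^ (-δ)) := by
  obtain ⟨B1, T1, hB1, hT1, hs⟩ := shiftp p k 3
  obtain ⟨P, hPd, hPc, K2, δ2, B2, T2, hK2, hδ2, hδ28, hB2, hPz, hJ⟩ := Jf (p + 2 * k) (by omega)
  obtain ⟨C3, hX3, -⟩ := Pool.Agent.W253.QS.qs_i3
  obtain ⟨E, hE⟩ : ∃ E, E = Real.exp (49 / 4) := ⟨_, rfl⟩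
  have hE0 : 0 < E := by rw [hE]; exact Real.exp_pos _
  obtain ⟨M, hM⟩ : ∃ M, M = 2 ^ (p + 2 * k) * |C3| * E * (384 * Real.exp 2) := ⟨_, rfl⟩
  have hM0 : 0 ≤ M := by rw [hM]; positivity
  refine ⟨P, hPd, hPc, 7 + K2 + M * (√Real.pi * 4), δ2, max (max B1 B2) 20, max T1 T2, by positivity, hδ2, hδ28,
    le_max_right _ _, hT1.trans (le_max_left _ _), fun y hy => ?_, fun T Δ hT hΔ hBT => ?_⟩
  · refine (hPz y hy).trans ?_
    have h3 := Real.pi_pos
    apply mul_le_mul_of_nonneg_right _ (by positivity)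
    have : 0 ≤ 7 + M * (√Real.pi * 4) := by positivity
    linarith
  have hTT1 : T1 ≤ T := (le_max_left _ _).trans hT
  have hTT2 : T2 ≤ T := (le_max_right _ _).trans hT
  have hT100 : 100 ≤ T := hT1.trans hTT1
  have hT0 : 0 < T := by linarith
  have hΔ1 : 1 ≤ Δ := by
    refine le_trans ?_ hΔ
    exact Real.one_le_rpow (by linarith) (by linarith)
  have hΔ2 : T ^ (1 - δ2) ≤ Δ := hΔ
  have hΔ0 : 0 < Δ := by linarith
  have hBB : ∀ b : ℝ, b ≤ max (max B1 B2) 20 → b * Δ * √(Real.log T) ≤ T := by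
    intro b hb
    refine le_trans ?_ hBT
    apply mul_le_mul_of_nonneg_right _ (Real.sqrt_nonneg _)
    exact mul_le_mul_of_nonneg_right hb hΔ0.le
  have hL1 : 1 ≤ Real.log T := by
    rw [Real.le_log_iff_exp_le hT0]
    have := Real.exp_one_lt_d9
    linarith
  have h1' := hs T Δ hTT1 hΔ1 (hBB B1 ((le_max_left _ _).trans (le_max_left _ _))) (k - 1)
  have h1 : ‖TP p k (k - 1) T Δ - ∫ t in (T / 2)..(3 * T / 2), HP p k (k - 1) T Δ (fp t)‖ ≤ 7 * T ^ (-(3 : ℝ)) := by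
    refine h1'.trans (div_le_self (by positivity) ?_)
    have : (0 : ℝ) ≤ ((k - 1 : ℕ) : ℝ) := Nat.cast_nonneg _
    linarith
  have h2 := hJ T Δ hTT2 hΔ2 (hBB B2 ((le_max_right _ _).trans (le_max_left _ _)))
  -- the function on the line `Re s = 4`
  obtain ⟨F, hF⟩ : ∃ F : ℝ → ℂ, F = fun t => riemannZeta (fp t) ^ (p + 2 * k) * XX (fp t) * GG T Δ (fp t) := ⟨_, rfl⟩
  have e1 : ∫ t in (T / 2)..(3 * T / 2), HP p k (k - 1) T Δ (fp t) = ∫ t in (T / 2)..(3 * T / 2), F t := by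
    apply intervalIntegral.integral_congr
    intro t ht
    rw [uIcc_of_le (by linarith)] at ht
    have ht1 : 50 ≤ t := by linarith [ht.1]
    have hX1 : 1 ≤ ‖XX (fp t)‖ := XX_ge_one (by rw [fp_re]; norm_num) (by rw [fp_re]) (by rw [fp_im]; exact ht1)
    have hx0 : XX (fp t) ≠ 0 := by
      intro h
      rw [h, norm_zero] at hX1
      linarith
    simp only
    rw [hF]
    unfold HP HH FF
    have e : XX (fp t) ^ k * (XX (fp t))⁻¹ ^ (k - 1) = XX (fp t) := by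
      obtain ⟨j, rfl⟩ : ∃ j, k = j + 1 := ⟨k - 1, by omega⟩
      rw [Nat.add_sub_cancel, pow_succ, inv_pow]
      field_simp
    simp only
    rw [mul_assoc (riemannZeta (fp t) ^ (2 * k)), e, pow_add]
    ring
  have hXm : Continuous fun t : ℝ => XX (fp t) := by
    rw [continuous_iff_continuousAt]
    intro t
    have hg : ∀ m : ℕ, fp t ≠ -(m : ℂ) := by
      intro m h
      have := congrArg Complex.re h
      rw [fp_re] at this
      simp at this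
      have h2 : (0:ℝ) ≤ m := Nat.cast_nonneg m
      linarith
    have h1 : ContinuousAt XX (fp t) := by
      unfold XX
      have h3 : ContinuousAt Complex.Gamma (fp t) := (Complex.differentiableAt_Gamma _ hg).continuousAt
      have h4 : ContinuousAt (fun s : ℂ => (2 * (Real.pi : ℂ)) ^ (-s)) (fp t) := by
        apply ContinuousAt.const_cpow
        · fun_prop
        · left
          have := Real.pi_ne_zero
          simp [this]
      fun_prop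
    exact ContinuousAt.comp (f := fp) h1 fp_cont.continuousAt
  have hFc : Continuous F := by
    rw [hF]
    exact ((zeta_cont.pow _).mul hXm).mul (GG_cont T Δ)
  have hFb : ∀ t, ‖F t‖ ≤ 2 ^ (p + 2 * k) * |C3| * E * ((1 + |t|) ^ 4 * gg T Δ t) := by
    intro t
    rw [hF]
    simp only
    rw [norm_mul, norm_mul, norm_pow]
    have h3 := zeta_pow_bd (p + 2 * k) t
    have h4 : ‖XX (fp t)‖ ≤ |C3| * (1 + |t|) ^ 4 := (hX3 t).trans (mul_le_mul_of_nonneg_right (le_abs_self _) (by positivity))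
    have h5 := GG_norm T Δ t hΔ1
    rw [← hE] at h5
    calc _ ≤ 2 ^ (p + 2 * k) * (|C3| * (1 + |t|) ^ 4) * (E * gg T Δ t) :=
          mul_le_mul (mul_le_mul h3 h4 (norm_nonneg _) (by positivity)) h5 (norm_nonneg _) (by positivity)
      _ = _ := by ring
  have htailp : ∀ t ∉ Ioc (T / 2) (3 * T / 2), ‖F t‖ ≤ M * T ^ (-(2 : ℝ)) * gg T (4 * Δ) t := by
    intro t ht
    have h3 : T / 2 ≤ |t - T| := by
      rw [mem_Ioc, not_and_or, not_lt, not_le] at ht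
      rcases ht with h | h
      · rw [abs_of_nonpos (by linarith)]; linarith
      · rw [abs_of_nonneg (by linarith)]; linarith
    have h4 := tail_pt (B := max (max B1 B2) 20) (le_max_right _ _) hL1 (by linarith) hΔ1 hBT (t := t) (by linarith)
    have h5 := gg_tail (B := max (max B1 B2) 20) (le_max_right _ _) hL1 (by linarith) hΔ1 hBT (t := t) h3
    calc ‖F t‖ ≤ _ := hFb t
      _ ≤ 2 ^ (p + 2 * k) * |C3| * E * (384 * Real.exp 2 * gg T (2 * Δ) t) := mul_le_mul_of_nonneg_left h4 (by positivity)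
      _ = M * gg T (2 * Δ) t := by rw [hM]; ring
      _ ≤ M * (T ^ (-(2 : ℝ)) * gg T (4 * Δ) t) := mul_le_mul_of_nonneg_left h5 hM0
      _ = _ := by ring
  have hMT0 : 0 ≤ M * T ^ (-(2 : ℝ)) := by positivity
  have htail : ‖∫ t in (Ioc (T / 2) (3 * T / 2))ᶜ, F t‖ ≤ M * T ^ (-(2 : ℝ)) * (√Real.pi * (4 * Δ)) :=
    bound_compl _ _ _ T (4 * Δ) _ (by linarith) hMT0 htailp
  have hFi : Integrable F := by
    have hon : IntegrableOn F (Ioc (T / 2) (3 * T / 2)) := (hFc.integrableOn_Icc).mono_set Ioc_subset_Icc_self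
    have hoff : IntegrableOn F (Ioc (T / 2) (3 * T / 2))ᶜ := by
      refine Integrable.mono' ((gg_integrable T (4 * Δ) (by linarith)).const_mul (M * T ^ (-(2 : ℝ)))).integrableOn hFc.aestronglyMeasurable ?_
      exact (ae_restrict_iff' measurableSet_Ioc.compl).mpr (Eventually.of_forall fun t ht => htailp t ht)
    have := hon.union hoff
    rwa [union_compl_self, integrableOn_univ] at this
  have hsplit : (∫ t : ℝ, F t) = (∫ t in (T / 2)..(3 * T / 2), F t) + ∫ t in (Ioc (T / 2) (3 * T / 2))ᶜ, F t := by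
    rw [intervalIntegral.integral_of_le (by linarith)]
    exact (integral_add_compl measurableSet_Ioc hFi).symm
  have hJ' : (∫ t : ℝ, riemannZeta (fp t) ^ (p + 2 * k) * XX (fp t) * GG T Δ (fp t)) = ∫ t : ℝ, F t := by rw [hF]
  rw [e1] at h1
  rw [hJ', hsplit] at h2
  obtain ⟨W, hW⟩ : ∃ W, W = ∫ t in (T / 2)..(3 * T / 2), F t := ⟨_, rfl⟩
  obtain ⟨V, hV⟩ : ∃ V, V = ∫ t in (Ioc (T / 2) (3 * T / 2))ᶜ, F t := ⟨_, rfl⟩
  obtain ⟨Q, hQ⟩ : ∃ Q : ℂ, Q = ((2 * Real.pi * ∫ t in (1 : ℝ)..(2 * T), ge T Δ t * (P + derivative P).eval (Real.log t) : ℝ) : ℂ) :=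
    ⟨_, rfl⟩
  rw [← hW] at h1
  rw [← hW, ← hV, ← hQ] at h2
  rw [← hV] at htail
  rw [← hQ]
  have e3 : TP p k (k - 1) T Δ - Q = (TP p k (k - 1) T Δ - W) + (W + V - Q) - V := by ring
  rw [e3]
  refine (norm_sub_le _ _).trans ((add_le_add ((norm_add_le _ _).trans (add_le_add h1 h2)) htail).trans ?_)
  have p1 : T ^ (-(3 : ℝ)) ≤ 1 := Real.rpow_le_one_of_one_le_of_nonpos (by linarith) (by norm_num)
  have p2 : T ^ (-(2 : ℝ)) ≤ T ^ (-δ2) := Real.rpow_le_rpow_of_exponent_le (by linarith) (by linarith)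
  have p3 : (1 : ℝ) ≤ Δ * T ^ (-δ2) := by
    have h3 : (1:ℝ) ≤ T ^ (1 - δ2 + -δ2) := Real.one_le_rpow (by linarith) (by linarith)
    rw [Real.rpow_add hT0] at h3
    exact h3.trans (mul_le_mul_of_nonneg_right hΔ (by positivity))
  calc 7 * T ^ (-(3 : ℝ)) + K2 * (Δ * T ^ (-δ2)) + M * T ^ (-(2 : ℝ)) * (√Real.pi * (4 * Δ)) =
      7 * T ^ (-(3 : ℝ)) + K2 * (Δ * T ^ (-δ2)) + M * (√Real.pi * 4) * (Δ * T ^ (-(2 : ℝ))) := by ring
    _ ≤ 7 * (Δ * T ^ (-δ2)) + K2 * (Δ * T ^ (-δ2)) + M * (√Real.pi * 4) * (Δ * T ^ (-δ2)) := by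
        apply add_le_add (add_le_add (by linarith) le_rfl) _
        apply mul_le_mul_of_nonneg_left _ (by positivity)
        exact mul_le_mul_of_nonneg_left p2 hΔ0.le
    _ = _ := by ring

end Pool.Agent.N30.HM
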