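import Pool.Agent.N30.HM.Ag

set_option autoImplicit false

/-! The mixed moments in Gaussian windows with the full main term: final form. -/

open Complex MeasureTheory Set Filter Topology Polynomial

namespace Pool.Agent.N30.HM

open Pool.Agent.W188.QS Pool.Agent.N30.MZ Pool.Agent.N30.OD
open Pool.Agent.W131.QSJJ (dd dd_nonneg dd_zero dd_cast norm_cp)

/-- the main term `∫ ge R(log)` in the variable of the critical line -/
lemma main_line (R : ℝ[X]) {r : ℕ} (hr : 1 ≤ r) (hR : R.natDegree ≤ r) : ∃ C : ℝ, 0 ≤ C ∧ ∀ B T Δ : ℝ, 20 ≤ B → 100 ≤ T → 1 ≤ Δ →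
    B * Δ * √(Real.log T) ≤ T →
    |(2 * Real.pi * ∫ t in (1 : ℝ)..(2 * T), ge T Δ t * R.eval (Real.log t)) -
      ∫ t in (T / 2)..(3 * T / 2), gg T Δ t * R.eval (Real.log (t / (2 * Real.pi)))| ≤ C := by
  obtain ⟨A2, hA2, hlip⟩ := poly_lip R r hr hR
  obtain ⟨C, hC⟩ : ∃ C, C = 13 * ((|R.eval 0| + 2 * A2) * r.factorial) := ⟨_, rfl⟩
  refine ⟨C, by rw [hC]; positivity, fun B T Δ hB hT hΔ hBT => ?_⟩
  have hT0 : 0 < T := by linarith
  have hp := Real.pi_gt_three
  have hp2 := Real.pi_lt_d2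
  have hL1 : 1 ≤ Real.log T := by
    rw [Real.le_log_iff_exp_le hT0]
    have := Real.exp_one_lt_d9
    linarith
  obtain ⟨f, hf⟩ : ∃ f : ℝ → ℝ, f = fun t => gg T Δ t * R.eval (Real.log (t / (2 * Real.pi))) := ⟨_, rfl⟩
  have e1 : 2 * Real.pi * ∫ t in (1 : ℝ)..(2 * T), ge T Δ t * R.eval (Real.log t) = ∫ t in (2 * Real.pi)..(4 * Real.pi * T), f t := by
    have h1 := intervalIntegral.integral_comp_mul_left (a := 1) (b := 2 * T) f (c := 2 * Real.pi) (by positivity)
    have h2 : ∀ t, f (2 * Real.pi * t) = ge T Δ t * R.eval (Real.log t) := by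
      intro t
      rw [hf]
      simp only
      have e2 : 2 * Real.pi * t / (2 * Real.pi) = t := by field_simp
      rw [e2]
      congr 1
      unfold gg ge
      congr 2
      rw [← neg_sq]
      congr 1
      ring
    simp only [h2, smul_eq_mul] at h1
    rw [h1]
    have e3 : 2 * Real.pi * 1 = 2 * Real.pi := mul_one _
    have e4 : 2 * Real.pi * (2 * T) = 4 * Real.pi * T := by ring
    rw [e3, e4]
    field_simp
  rw [e1]
  change |(∫ t in (2 * Real.pi)..(4 * Real.pi * T), f t) - ∫ t in (T / 2)..(3 * T / 2), gg T Δ t * R.eval (Real.log (t / (2 * Real.pi)))| ≤ C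
  have e2 : ∫ t in (T / 2)..(3 * T / 2), gg T Δ t * R.eval (Real.log (t / (2 * Real.pi))) = ∫ t in (T / 2)..(3 * T / 2), f t := by
    rw [hf]
  rw [e2]
  have hfc : ContinuousOn f (Ioi 0) := by
    rw [hf]
    apply ContinuousOn.mul
    · exact (Pool.Agent.N30.MZ.gg_cont T Δ).continuousOn
    · apply R.continuous.comp_continuousOn
      intro t ht
      have ht0 : t / (2 * Real.pi) ≠ 0 := by
        have : 0 < t := ht
        positivity
      exact (ContinuousAt.log (continuousAt_id.div_const _) ht0).continuousWithinAt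
  have hii : ∀ a b : ℝ, 0 < a → 0 < b → IntervalIntegrable f volume a b := by
    intro a b ha hb
    apply ContinuousOn.intervalIntegrable
    apply hfc.mono
    intro t ht
    rcases mem_uIcc.1 ht with h | h
    · exact lt_of_lt_of_le ha h.1
    · exact lt_of_lt_of_le hb h.1
  have h2p : 0 < 2 * Real.pi := by positivity
  have h4p : 0 < 4 * Real.pi * T := by positivity
  have e3 : (∫ t in (2 * Real.pi)..(4 * Real.pi * T), f t) - ∫ t in (T / 2)..(3 * T / 2), f t =
      (∫ t in (2 * Real.pi)..(T / 2), f t) + ∫ t in (3 * T / 2)..(4 * Real.pi * T), f t := by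
    have h1 := intervalIntegral.integral_add_adjacent_intervals (hii (2 * Real.pi) (T / 2) h2p (by positivity))
      (hii (T / 2) (3 * T / 2) (by positivity) (by positivity))
    have h2 := intervalIntegral.integral_add_adjacent_intervals (hii (2 * Real.pi) (3 * T / 2) h2p (by positivity))
      (hii (3 * T / 2) (4 * Real.pi * T) (by positivity) h4p)
    linarith
  rw [e3]
  -- pointwise bound
  have hpt : ∀ t, 2 * Real.pi ≤ t → t ≤ 4 * Real.pi * T → T / 2 ≤ |t - T| →
      ‖f t‖ ≤ (|R.eval 0| + 2 * A2) * r.factorial * T ^ (-(1 : ℝ)) := by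
    intro t h1 h2 h3
    have ht0 : 0 < t := lt_of_lt_of_le h2p h1
    rw [hf]
    simp only
    rw [norm_mul, Real.norm_eq_abs, Real.norm_eq_abs, abs_of_pos (show 0 < gg T Δ t from Real.exp_pos _)]
    have h4 := gg_far2 hB hL1 hT0 hΔ hBT h3
    have h5 : 0 ≤ Real.log (t / (2 * Real.pi)) := Real.log_nonneg (by rw [le_div_iff₀ h2p]; linarith)
    have h6 : Real.log (t / (2 * Real.pi)) ≤ 2 * Real.log T := by
      have h7 : Real.log (t / (2 * Real.pi)) ≤ Real.log (2 * T) := by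
        apply Real.log_le_log (by positivity)
        rw [div_le_iff₀ h2p]
        linarith
      rw [Real.log_mul (by norm_num) hT0.ne'] at h7
      have h8 := Real.log_two_lt_d9
      linarith
    have h7 := hlip (Real.log T) hL1 (Real.log (t / (2 * Real.pi))) 0 (by rw [abs_of_nonneg h5]; exact h6) (by rw [abs_zero]; linarith)
    rw [sub_zero, abs_of_nonneg h5] at h7
    have h8 : |R.eval (Real.log (t / (2 * Real.pi)))| ≤ (|R.eval 0| + 2 * A2) * Real.log T ^ r := by
      have h9 : |R.eval (Real.log (t / (2 * Real.pi)))| ≤ |R.eval (Real.log (t / (2 * Real.pi))) - R.eval 0| + |R.eval 0| := by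
        have := abs_add_le (R.eval (Real.log (t / (2 * Real.pi))) - R.eval 0) (R.eval 0)
        rwa [sub_add_cancel] at this
      have h10 : A2 * Real.log T ^ (r - 1) * Real.log (t / (2 * Real.pi)) ≤ A2 * Real.log T ^ (r - 1) * (2 * Real.log T) :=
        mul_le_mul_of_nonneg_left h6 (by positivity)
      have h11 : A2 * Real.log T ^ (r - 1) * (2 * Real.log T) = 2 * A2 * Real.log T ^ r := by
        obtain ⟨q, rfl⟩ : ∃ q, r = q + 1 := ⟨r - 1, by omega⟩
        rw [Nat.add_sub_cancel, pow_succ]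
        ring
      have h12 : |R.eval 0| * 1 ≤ |R.eval 0| * Real.log T ^ r := mul_le_mul_of_nonneg_left (one_le_pow₀ hL1) (abs_nonneg _)
      rw [add_mul]
      linarith
    have h9 : Real.log T ^ r ≤ r.factorial * T := by
      have := Real.pow_div_factorial_le_exp (Real.log T) (by linarith) r
      rw [Real.exp_log hT0, div_le_iff₀ (by positivity)] at this
      linarith
    calc gg T Δ t * |R.eval (Real.log (t / (2 * Real.pi)))| ≤ T ^ (-(100 : ℝ)) * ((|R.eval 0| + 2 * A2) * (r.factorial * T)) := by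
          apply mul_le_mul h4 _ (abs_nonneg _) (by positivity)
          exact h8.trans (mul_le_mul_of_nonneg_left h9 (by positivity))
      _ = (|R.eval 0| + 2 * A2) * r.factorial * (T ^ (-(100 : ℝ)) * T ^ (1 : ℝ)) := by rw [Real.rpow_one]; ring
      _ = (|R.eval 0| + 2 * A2) * r.factorial * T ^ (-(99 : ℝ)) := by
          rw [← Real.rpow_add hT0]; norm_num
      _ ≤ _ := by
          apply mul_le_mul_of_nonneg_left _ (by positivity)
          exact Real.rpow_le_rpow_of_exponent_le (by linarith) (by norm_num)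
  have hTi : T ^ (-(1 : ℝ)) * T = 1 := by
    rw [Real.rpow_neg_one]; field_simp
  have hb1 : |∫ t in (2 * Real.pi)..(T / 2), f t| ≤ (|R.eval 0| + 2 * A2) * r.factorial * T ^ (-(1 : ℝ)) * (T / 2) := by
    have h1 : ∀ t ∈ uIoc (2 * Real.pi) (T / 2), ‖f t‖ ≤ (|R.eval 0| + 2 * A2) * r.factorial * T ^ (-(1 : ℝ)) := by
      intro t ht
      rw [uIoc_of_le (by linarith)] at ht
      apply hpt t ht.1.le (by nlinarith [ht.2])
      rw [abs_of_nonpos (by linarith [ht.2])]
      linarith [ht.2]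
    have h2 := intervalIntegral.norm_integral_le_of_norm_le_const h1
    rw [Real.norm_eq_abs] at h2
    refine h2.trans ?_
    apply mul_le_mul_of_nonneg_left _ (by positivity)
    rw [abs_of_nonneg (by linarith)]
    linarith
  have hb2 : |∫ t in (3 * T / 2)..(4 * Real.pi * T), f t| ≤ (|R.eval 0| + 2 * A2) * r.factorial * T ^ (-(1 : ℝ)) * (12 * T) := by
    have h1 : ∀ t ∈ uIoc (3 * T / 2) (4 * Real.pi * T), ‖f t‖ ≤ (|R.eval 0| + 2 * A2) * r.factorial * T ^ (-(1 : ℝ)) := by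
      intro t ht
      rw [uIoc_of_le (by nlinarith)] at ht
      apply hpt t (by linarith [ht.1]) ht.2
      rw [abs_of_nonneg (by linarith [ht.1])]
      linarith [ht.1]
    have h2 := intervalIntegral.norm_integral_le_of_norm_le_const h1
    rw [Real.norm_eq_abs] at h2
    refine h2.trans ?_
    apply mul_le_mul_of_nonneg_left _ (by positivity)
    rw [abs_of_nonneg (by nlinarith)]
    nlinarith
  have h3 := abs_add_le (∫ t in (2 * Real.pi)..(T / 2), f t) (∫ t in (3 * T / 2)..(4 * Real.pi * T), f t)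
  have h4 : (|R.eval 0| + 2 * A2) * r.factorial * T ^ (-(1 : ℝ)) * (T / 2) + (|R.eval 0| + 2 * A2) * r.factorial * T ^ (-(1 : ℝ)) * (12 * T) =
      12.5 * ((|R.eval 0| + 2 * A2) * r.factorial) * (T ^ (-(1 : ℝ)) * T) := by ring
  rw [hTi, mul_one] at h4
  have h5 : 0 ≤ (|R.eval 0| + 2 * A2) * r.factorial := by positivity
  rw [hC]
  linarith

/-- the mixed moment in windows, full main term -/
theorem window (K : ℕ) (hK : 2 ≤ K) : ∃ P : ℝ[X], P.natDegree ≤ K - 1 ∧
    P.coeff (K - 1) = 1 / ((K - 1).factorial : ℝ) ∧ ∃ C δ B T₀ : ℝ, 0 ≤ C ∧ 0 < δ ∧ δ ≤ 1 / 8 ∧ 20 ≤ B ∧ 100 ≤ T₀ ∧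
    (∀ y : ℝ, 1 ≤ y → |Pool.Agent.TH935.LP.SD K ⌊y⌋₊ - y * P.eval (Real.log y)| ≤ C * y ^ (1 - δ)) ∧ ∀ T Δ : ℝ, T₀ ≤ T →
    T ^ (1 - δ) ≤ Δ → B * Δ * √(Real.log T) ≤ T →
    ‖∫ t in (T / 2)..(3 * T / 2), (tw K (K - 2) t - (((P + derivative P).eval (Real.log (t / (2 * Real.pi))) : ℝ) : ℂ)) * ((gg T Δ t : ℝ) : ℂ)‖ ≤
      C * (Δ * T ^ (-δ)) := by
  have e1 : K % 2 + 2 * (K / 2) = K := Nat.mod_add_div K 2
  obtain ⟨P, hPd, hPc, K1, δ, B, T₀, hK1, hδ, hδ8, hB, hT₀, hPz, h⟩ := tp_full (K % 2) (K / 2) (by omega)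
  rw [e1] at hPd hPc hPz
  have hR : (P + derivative P).natDegree ≤ K - 1 := by
    refine (natDegree_add_le _ _).trans (max_le hPd ?_)
    exact (natDegree_derivative_le P).trans (by omega)
  obtain ⟨C2, hC2, hm⟩ := main_line (P + derivative P) (r := K - 1) (by omega) hR
  refine ⟨P, hPd, hPc, K1 + C2, δ, B, T₀, by positivity, hδ, hδ8, hB, hT₀, fun y hy => ?_, fun T Δ hT hΔ hBT => ?_⟩
  · refine (hPz y hy).trans ?_
    exact mul_le_mul_of_nonneg_right (by linarith) (by positivity)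
  have hT100 : 100 ≤ T := hT₀.trans hT
  have hT0 : 0 < T := by linarith
  have hΔ1 : 1 ≤ Δ := (Real.one_le_rpow (by linarith) (by linarith)).trans hΔ
  have h1 := h T Δ hT hΔ hBT
  have h2 := hm B T Δ hB hT100 hΔ1 hBT
  have e3 : TP (K % 2) (K / 2) (K / 2 - 1) T Δ = CC K (K - 2) T Δ := by
    have := CC_eq (p := K % 2) (κ := K / 2) (n := K / 2 - 1) (by omega) (T := T) (Δ := Δ) (by linarith)
    rw [e1] at this
    have e4 : K % 2 + 2 * (K / 2 - 1) = K - 2 := by omega
    rw [e4] at this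
    exact this.symm
  rw [e3] at h1
  obtain ⟨R, hRd⟩ : ∃ R, R = P + derivative P := ⟨_, rfl⟩
  rw [← hRd] at h1 h2 ⊢
  have hcr : ContinuousOn (fun t : ℝ => gg T Δ t * R.eval (Real.log (t / (2 * Real.pi)))) (uIcc (T / 2) (3 * T / 2)) := by
    apply ContinuousOn.mul
    · exact (Pool.Agent.N30.MZ.gg_cont T Δ).continuousOn
    · apply R.continuous.comp_continuousOn
      intro t ht
      rw [uIcc_of_le (by linarith)] at ht
      have ht0 : t / (2 * Real.pi) ≠ 0 := by
        have h3 : 0 < t := by linarith [ht.1]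
        have := Real.pi_pos
        positivity
      exact (ContinuousAt.log (continuousAt_id.div_const _) ht0).continuousWithinAt
  have hi2 : IntervalIntegrable (fun t : ℝ => ((gg T Δ t * R.eval (Real.log (t / (2 * Real.pi))) : ℝ) : ℂ)) volume (T / 2) (3 * T / 2) :=
    (Complex.continuous_ofReal.comp_continuousOn hcr).intervalIntegrable
  have hi1 : IntervalIntegrable (fun t : ℝ => tw K (K - 2) t * ((gg T Δ t : ℝ) : ℂ)) volume (T / 2) (3 * T / 2) := by
    apply IntervalIntegrable.mul_continuousOn (tw_ii K (K - 2) _ _)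
    exact (Complex.continuous_ofReal.comp (Pool.Agent.N30.MZ.gg_cont T Δ)).continuousOn
  have e4 : ∫ t in (T / 2)..(3 * T / 2), (tw K (K - 2) t - ((R.eval (Real.log (t / (2 * Real.pi))) : ℝ) : ℂ)) * ((gg T Δ t : ℝ) : ℂ) =
      CC K (K - 2) T Δ - ((∫ t in (T / 2)..(3 * T / 2), gg T Δ t * R.eval (Real.log (t / (2 * Real.pi))) : ℝ) : ℂ) := by
    rw [← intervalIntegral.integral_ofReal]
    have e5 : CC K (K - 2) T Δ = ∫ t in (T / 2)..(3 * T / 2), tw K (K - 2) t * ((gg T Δ t : ℝ) : ℂ) := by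
      unfold Pool.Agent.N30.OD.CC
      apply intervalIntegral.integral_congr
      intro t _
      simp only
      unfold WW tw
      push_cast
      ring
    rw [e5, ← intervalIntegral.integral_sub hi1 hi2]
    apply intervalIntegral.integral_congr
    intro t _
    simp only
    push_cast
    ring
  rw [e4]
  obtain ⟨N1, hN1⟩ : ∃ N1, N1 = 2 * Real.pi * ∫ t in (1 : ℝ)..(2 * T), ge T Δ t * R.eval (Real.log t) := ⟨_, rfl⟩
  obtain ⟨N2, hN2⟩ : ∃ N2, N2 = ∫ t in (T / 2)..(3 * T / 2), gg T Δ t * R.eval (Real.log (t / (2 * Real.pi))) := ⟨_, rfl⟩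
  rw [← hN1] at h1 h2
  rw [← hN2] at h2 ⊢
  have e6 : CC K (K - 2) T Δ - (N2 : ℂ) = (CC K (K - 2) T Δ - (N1 : ℂ)) + ((N1 - N2 : ℝ) : ℂ) := by push_cast; ring
  rw [e6]
  have h3 : ‖((N1 - N2 : ℝ) : ℂ)‖ ≤ C2 := by rw [Complex.norm_real, Real.norm_eq_abs]; exact h2
  have p3 : (1 : ℝ) ≤ Δ * T ^ (-δ) := by
    have h3 : (1:ℝ) ≤ T ^ (1 - δ + -δ) := Real.one_le_rpow (by linarith) (by linarith)
    rw [Real.rpow_add hT0] at h3
    exact h3.trans (mul_le_mul_of_nonneg_right hΔ (by positivity))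
  refine (norm_add_le _ _).trans ((add_le_add h1 h3).trans ?_)
  rw [add_mul]
  have := mul_le_mul_of_nonneg_left p3 hC2
  linarith

end Pool.Agent.N30.HM
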