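import Pool.Agent.N30.HM.Ah
import Pool.Agent.N30.OD.Cv

set_option autoImplicit false

/-! From Gaussian windows to the sharp integral, for functions with a pointwise bound. -/

open Complex MeasureTheory Set Filter Topology Polynomial

namespace Pool.Agent.N30.HM

open Pool.Agent.W188.QS Pool.Agent.N30.MZ Pool.Agent.N30.OD

/-- Fubini for the window average of a bounded function -/
lemma fubc {f : ℝ → ℂ} (hf : Measurable f) {M u v Δ : ℝ} (hu : 0 < u) (huv : u ≤ v) (hΔ : 0 < Δ)
    (hM : ∀ t ∈ Ioo (u / 2) (3 * v / 2), ‖f t‖ ≤ M) :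
    IntervalIntegrable (fun τ => ∫ t in (τ / 2)..(3 * τ / 2), f t * ((gg τ Δ t : ℝ) : ℂ)) volume u v ∧
    (∫ τ in u..v, (∫ t in (τ / 2)..(3 * τ / 2), f t * ((gg τ Δ t : ℝ) : ℂ))) =
      ((√Real.pi * Δ : ℝ) : ℂ) * ∫ t in Ioo (u / 2) (3 * v / 2), f t * ((PC u v Δ t : ℝ) : ℂ) := by
  set S : Set ℝ := Ioo (u / 2) (3 * v / 2) with hS
  have hSfin : volume S < ⊤ := by rw [hS, Real.volume_Ioo]; exact ENNReal.ofReal_lt_top
  have : IsFiniteMeasure (volume.restrict S) := ⟨by rwa [Measure.restrict_apply_univ]⟩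
  have hM0 : 0 ≤ M := (norm_nonneg _).trans (hM u ⟨by linarith, by linarith⟩)
  set g : ℝ → ℂ := S.indicator f with hg
  have hgm : Measurable g := hf.indicator measurableSet_Ioo
  have hgb : ∀ t, ‖g t‖ ≤ M := by
    intro t
    by_cases ht : t ∈ S
    · rw [hg, indicator_of_mem ht]; exact hM t ht
    · rw [hg, indicator_of_notMem ht, norm_zero]; exact hM0
  have hgf : ∀ t ∈ S, g t = f t := fun t ht => indicator_of_mem ht f
  set F : ℝ × ℝ → ℝ := fun p => if p.1 / 2 < p.2 ∧ p.2 < 3 * p.1 / 2 then gg p.1 Δ p.2 else 0 with hF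
  have hFm : Measurable F := by
    refine Measurable.ite ?_ ?_ measurable_const
    · exact (measurableSet_lt (measurable_fst.div_const 2) measurable_snd).inter
        (measurableSet_lt measurable_snd ((measurable_const.mul measurable_fst).div_const 2))
    · unfold gg
      have : Continuous fun p : ℝ × ℝ => Real.exp (-((p.2 - p.1) / Δ) ^ 2) := by fun_prop
      exact this.measurable
  have hFb : ∀ p, ‖F p‖ ≤ 1 := by
    intro p
    simp only [hF]
    split_ifs
    · rw [Real.norm_eq_abs, abs_of_nonneg (Pool.Agent.W928.QS.gg_nonneg _ _ _)]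
      exact Pool.Agent.W928.QS.gg_le _ _ _
    · simp
  set G : ℝ × ℝ → ℂ := fun p => g p.2 * ((F p : ℝ) : ℂ) with hG
  have hGm : Measurable G := (hgm.comp measurable_snd).mul (Complex.measurable_ofReal.comp hFm)
  have hGb : ∀ p, ‖G p‖ ≤ M := by
    intro p
    simp only [hG]
    rw [norm_mul, Complex.norm_real]
    calc ‖g p.2‖ * ‖F p‖ ≤ M * 1 := mul_le_mul (hgb _) (hFb p) (norm_nonneg _) hM0
      _ = M := mul_one M
  have hGi : Integrable G ((volume.restrict (Ioc u v)).prod (volume.restrict S)) :=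
    Integrable.of_bound hGm.aestronglyMeasurable M (Filter.Eventually.of_forall hGb)
  have h1 : ∀ τ ∈ Ioc u v, ∫ t in (τ / 2)..(3 * τ / 2), f t * ((gg τ Δ t : ℝ) : ℂ) =
      ∫ t, G (τ, t) ∂(volume.restrict S) := by
    intro τ hτ
    have e : (fun t => G (τ, t)) = (Ioo (τ / 2) (3 * τ / 2)).indicator (fun t => g t * ((gg τ Δ t : ℝ) : ℂ)) := by
      funext t
      by_cases ht : t ∈ Ioo (τ / 2) (3 * τ / 2)
      · rw [indicator_of_mem ht]
        simp only [hG, hF]
        rw [if_pos ⟨ht.1, ht.2⟩]
      · rw [indicator_of_notMem ht]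
        simp only [hG, hF]
        rw [if_neg (fun h : τ / 2 < t ∧ t < 3 * τ / 2 => ht ⟨h.1, h.2⟩)]
        simp
    have hsub : Ioo (τ / 2) (3 * τ / 2) ⊆ S := by
      intro t ht
      exact ⟨by linarith [ht.1, hτ.1], by linarith [ht.2, hτ.2]⟩
    rw [e, setIntegral_indicator measurableSet_Ioo, inter_eq_self_of_subset_right hsub,
      intervalIntegral.integral_of_le (by linarith [hτ.1]), integral_Ioc_eq_integral_Ioo]
    apply setIntegral_congr_fun measurableSet_Ioo
    intro t ht
    simp only
    rw [hgf t (hsub ht)]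
  have hPC : ∀ t, (∫ τ, ((F (τ, t) : ℝ) : ℂ) ∂(volume.restrict (Ioc u v))) = ((√Real.pi * Δ * PC u v Δ t : ℝ) : ℂ) := by
    intro t
    have h2 : ∫ τ, ((F (τ, t) : ℝ) : ℂ) ∂(volume.restrict (Ioc u v)) = ((∫ τ, F (τ, t) ∂(volume.restrict (Ioc u v)) : ℝ) : ℂ) :=
      integral_ofReal
    rw [h2]
    congr 1
    unfold PC
    rw [intervalIntegral.integral_of_le huv]
    have hc : √Real.pi * Δ ≠ 0 := by positivity
    rw [← mul_assoc, mul_one_div_cancel hc, one_mul]
  refine ⟨?_, ?_⟩
  · rw [intervalIntegrable_iff_integrableOn_Ioc_of_le huv]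
    exact IntegrableOn.congr_fun (f := fun τ => ∫ t, G (τ, t) ∂(volume.restrict S)) hGi.integral_prod_left
      (fun τ hτ => (h1 τ hτ).symm) measurableSet_Ioc
  · rw [intervalIntegral.integral_of_le huv, setIntegral_congr_fun measurableSet_Ioc (fun τ hτ => h1 τ hτ)]
    have hsw := integral_integral_swap (f := fun τ t => G (τ, t)) (μ := volume.restrict (Ioc u v))
      (ν := volume.restrict S) hGi
    rw [hsw, ← integral_const_mul]
    apply setIntegral_congr_fun measurableSet_Ioo
    intro t ht
    simp only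
    have h3 : ∫ τ, G (τ, t) ∂(volume.restrict (Ioc u v)) = g t * ∫ τ, ((F (τ, t) : ℝ) : ℂ) ∂(volume.restrict (Ioc u v)) := by
      rw [← integral_const_mul]
    rw [h3, hPC, hgf t ht]
    push_cast
    ring

/-- the sharp integral from the window average -/
lemma cutc {f : ℝ → ℂ} (hf : Measurable f) {M X Δ r : ℝ} (hX : 0 < X) (hΔ : 0 < Δ) (hr : 0 ≤ r) (hrX : r ≤ X / 4)
    (hM : ∀ t ∈ Ioo (X / 2) (3 * X), ‖f t‖ ≤ M) :
    ‖(∫ t in X..(2 * X), f t) - ((1 / (√Real.pi * Δ) : ℝ) : ℂ) *
      ∫ τ in X..(2 * X), (∫ t in (τ / 2)..(3 * τ / 2), f t * ((gg τ Δ t : ℝ) : ℂ))‖ ≤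
      M * (4 * r + 3 * X * Real.exp (-(r / Δ) ^ 2)) := by
  have e0 : 3 * (2 * X) / 2 = 3 * X := by ring
  obtain ⟨-, f3⟩ := fubc hf (M := M) hX (v := 2 * X) (by linarith) hΔ (by rw [e0]; exact hM)
  rw [e0] at f3
  have hM0 : 0 ≤ M := (norm_nonneg _).trans (hM X ⟨by linarith, by linarith⟩)
  have hsp : 0 < √Real.pi * Δ := by
    have := Real.sqrt_pos.2 Real.pi_pos
    positivity
  have e1 : ((1 / (√Real.pi * Δ) : ℝ) : ℂ) * ((√Real.pi * Δ : ℝ) : ℂ) = 1 := by
    rw [← Complex.ofReal_mul, one_div, inv_mul_cancel₀ hsp.ne', Complex.ofReal_one]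
  rw [f3, ← mul_assoc, e1, one_mul]
  obtain ⟨E, hE⟩ : ∃ E, E = Real.exp (-(r / Δ) ^ 2) := ⟨_, rfl⟩
  have hE0 : 0 < E := by rw [hE]; exact Real.exp_pos _
  rw [← hE]
  have hEdm : MeasurableSet (Ed X r) := measurableSet_Ioo.union measurableSet_Ioo
  -- pointwise
  have hpt : ∀ t, |(Ioc X (2 * X)).indicator (fun _ => (1 : ℝ)) t - PC X (2 * X) Δ t| ≤
      (Ed X r).indicator (fun _ => (1 : ℝ)) t + E := by
    intro t
    obtain ⟨p1, p2, p3, p4, p5, p6⟩ := Pool.Agent.W864.QS.qs_pc X (2 * X) Δ r t hX (by linarith) (by linarith) hΔ hr hrX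
    rw [← hE] at p5 p6
    have i2 : 0 ≤ (Ed X r).indicator (fun _ => (1 : ℝ)) t := indicator_nonneg (fun _ _ => by norm_num) t
    by_cases hEt : t ∈ Ed X r
    · rw [indicator_of_mem hEt]
      have : |(Ioc X (2 * X)).indicator (fun _ => (1 : ℝ)) t - PC X (2 * X) Δ t| ≤ 1 := by
        rw [abs_le]
        by_cases h : t ∈ Ioc X (2 * X)
        · rw [indicator_of_mem h]; constructor <;> linarith
        · rw [indicator_of_notMem h]; constructor <;> linarith
      linarith
    · rw [indicator_of_notMem hEt, zero_add]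
      have hE1 : ¬ (X - r < t ∧ t < X + r) := fun h => hEt (Or.inl h)
      have hE2 : ¬ (2 * X - r < t ∧ t < 2 * X + r) := fun h => hEt (Or.inr h)
      by_cases h : t ∈ Ioc X (2 * X)
      · rw [indicator_of_mem h]
        have g1 : X + r ≤ t := by
          by_contra hc
          rw [not_le] at hc
          by_cases hr0 : r = 0
          · subst hr0
            linarith [h.1]
          · exact hE1 ⟨by have := h.1; have : 0 < r := lt_of_le_of_ne hr (Ne.symm hr0); linarith, hc⟩
        by_cases hr0 : r = 0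
        · have e1 : E = 1 := by rw [hE, hr0]; simp
          rw [e1, abs_le]
          constructor <;> linarith
        · have hr1 : 0 < r := lt_of_le_of_ne hr (Ne.symm hr0)
          have g2 : t ≤ 2 * X - r := by
            by_contra hc
            rw [not_le] at hc
            exact hE2 ⟨hc, by linarith [h.2]⟩
          rw [abs_le]
          have := p5 g1 g2
          constructor <;> linarith
      · rw [indicator_of_notMem h, zero_sub, abs_neg, abs_of_nonneg p1]
        have g1 : t ≤ X ∨ 2 * X < t := by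
          by_contra hc
          rw [not_or, not_le, not_lt] at hc
          exact h hc
        have g2 : t ≤ X - r ∨ 2 * X + r ≤ t := by
          rcases g1 with g | g
          · left
            by_contra hc
            rw [not_le] at hc
            by_cases hr0 : r = 0
            · subst hr0; linarith
            · have hr1 : 0 < r := lt_of_le_of_ne hr (Ne.symm hr0)
              exact hE1 ⟨hc, by linarith⟩
          · right
            by_contra hc
            rw [not_le] at hc
            exact hE2 ⟨by linarith, hc⟩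
        exact p6 g2
  obtain ⟨S, hS⟩ : ∃ S, S = Ioo (X / 2) (3 * X) := ⟨_, rfl⟩
  have hSm : MeasurableSet S := by rw [hS]; exact measurableSet_Ioo
  have hSfin : volume S < ⊤ := by rw [hS, Real.volume_Ioo]; exact ENNReal.ofReal_lt_top
  have hfinM : IsFiniteMeasure (volume.restrict S) := ⟨by rwa [Measure.restrict_apply_univ]⟩
  rw [← hS] at hM ⊢
  have hsubS : Ioc X (2 * X) ⊆ S := by
    rw [hS]; intro t ht; exact ⟨by linarith [ht.1], by linarith [ht.2]⟩
  have hPCm : Measurable (fun t => PC X (2 * X) Δ t) := by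
    have e : (fun t => PC X (2 * X) Δ t) = fun t => 1 / (√Real.pi * Δ) * ∫ τ in Ioc X (2 * X), (fun p : ℝ × ℝ => if p.1 / 2 < p.2 ∧ p.2 < 3 * p.1 / 2 then gg p.1 Δ p.2 else 0) (τ, t) := by
      funext t
      unfold PC
      rw [intervalIntegral.integral_of_le (by linarith)]
    rw [e]
    have hFm : Measurable (fun p : ℝ × ℝ => if p.1 / 2 < p.2 ∧ p.2 < 3 * p.1 / 2 then gg p.1 Δ p.2 else 0) := by
      refine Measurable.ite ?_ ?_ measurable_const
      · exact (measurableSet_lt (measurable_fst.div_const 2) measurable_snd).inter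
          (measurableSet_lt measurable_snd ((measurable_const.mul measurable_fst).div_const 2))
      · unfold gg
        have : Continuous fun p : ℝ × ℝ => Real.exp (-((p.2 - p.1) / Δ) ^ 2) := by fun_prop
        exact this.measurable
    exact (hFm.stronglyMeasurable.integral_prod_left' (μ := volume.restrict (Ioc X (2 * X)))).measurable.const_mul _
  have hI1 : IntegrableOn f S := by
    apply Measure.integrableOn_of_bounded hSfin.ne hf.aestronglyMeasurable (M := M)
    rw [ae_restrict_iff' hSm]
    exact Eventually.of_forall hM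
  have hI2 : IntegrableOn (fun t => f t * (((Ioc X (2 * X)).indicator (fun _ => (1 : ℝ)) t : ℝ) : ℂ)) S := by
    apply Measure.integrableOn_of_bounded hSfin.ne _ (M := M)
    · rw [ae_restrict_iff' hSm]
      refine Eventually.of_forall fun t ht => ?_
      rw [norm_mul, Complex.norm_real]
      have h2 : ‖(Ioc X (2 * X)).indicator (fun _ => (1 : ℝ)) t‖ ≤ 1 := by
        refine (norm_indicator_le_norm_self _ _).trans ?_
        simp
      calc _ ≤ M * 1 := mul_le_mul (hM t ht) h2 (norm_nonneg _) hM0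
        _ = M := mul_one M
    · exact (hf.mul (Complex.measurable_ofReal.comp (measurable_const.indicator measurableSet_Ioc))).aestronglyMeasurable
  have hI3 : IntegrableOn (fun t => f t * ((PC X (2 * X) Δ t : ℝ) : ℂ)) S := by
    apply Measure.integrableOn_of_bounded hSfin.ne _ (M := M)
    · rw [ae_restrict_iff' hSm]
      refine Eventually.of_forall fun t ht => ?_
      rw [norm_mul, Complex.norm_real]
      have h2 : ‖PC X (2 * X) Δ t‖ ≤ 1 := by
        obtain ⟨p1, p2, -, -, -, -⟩ := Pool.Agent.W864.QS.qs_pc X (2 * X) Δ r t hX (by linarith) (by linarith) hΔ hr hrX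
        rw [Real.norm_of_nonneg p1]
        exact p2
      calc _ ≤ M * 1 := mul_le_mul (hM t ht) h2 (norm_nonneg _) hM0
        _ = M := mul_one M
    · exact (hf.mul (Complex.measurable_ofReal.comp hPCm)).aestronglyMeasurable
  have e2 : ∫ t in X..(2 * X), f t = ∫ t in S, f t * (((Ioc X (2 * X)).indicator (fun _ => (1 : ℝ)) t : ℝ) : ℂ) := by
    rw [intervalIntegral.integral_of_le (by linarith)]
    have e3 : (fun t => f t * (((Ioc X (2 * X)).indicator (fun _ => (1 : ℝ)) t : ℝ) : ℂ)) = (Ioc X (2 * X)).indicator f := by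
      funext t
      by_cases ht : t ∈ Ioc X (2 * X)
      · rw [indicator_of_mem ht, indicator_of_mem ht]; simp
      · rw [indicator_of_notMem ht, indicator_of_notMem ht]; simp
    rw [e3, setIntegral_indicator measurableSet_Ioc, inter_eq_self_of_subset_right hsubS]
  rw [e2, ← integral_sub hI2 hI3]
  have hvol : (volume.restrict S).real univ ≤ 3 * X := by
    rw [measureReal_restrict_apply MeasurableSet.univ, univ_inter, hS, Real.volume_real_Ioo_of_le (by linarith)]
    linarith
  have hIE : IntegrableOn ((Ed X r).indicator (fun _ => (1 : ℝ))) S := by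
    apply Measure.integrableOn_of_bounded hSfin.ne _ (M := 1)
    · refine Eventually.of_forall fun t => ?_
      refine (norm_indicator_le_norm_self _ _).trans ?_
      simp
    · exact (measurable_const.indicator hEdm).aestronglyMeasurable
  have hIE2 : IntegrableOn (fun _ : ℝ => E) S := by
    rw [integrableOn_const_iff (by simp)]
    right
    exact hSfin
  have hEdvol : ∫ t in S, (Ed X r).indicator (fun _ => (1 : ℝ)) t ≤ 4 * r := by
    rw [setIntegral_indicator hEdm, setIntegral_const, smul_eq_mul, mul_one]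
    have hEfin : volume (Ed X r) ≠ ⊤ := by
      unfold Ed
      refine (lt_of_le_of_lt (measure_union_le _ _) ?_).ne
      rw [Real.volume_Ioo, Real.volume_Ioo]
      exact ENNReal.add_lt_top.2 ⟨ENNReal.ofReal_lt_top, ENNReal.ofReal_lt_top⟩
    have h4 : volume.real (S ∩ Ed X r) ≤ volume.real (Ed X r) := measureReal_mono inter_subset_right hEfin
    refine h4.trans ?_
    unfold Ed
    refine (measureReal_union_le _ _).trans ?_
    rw [Real.volume_real_Ioo_of_le (by linarith), Real.volume_real_Ioo_of_le (by linarith)]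
    linarith
  calc ‖∫ t in S, (f t * (((Ioc X (2 * X)).indicator (fun _ => (1 : ℝ)) t : ℝ) : ℂ) - f t * ((PC X (2 * X) Δ t : ℝ) : ℂ))‖ ≤
      ∫ t in S, M * ((Ed X r).indicator (fun _ => (1 : ℝ)) t + E) := by
        apply norm_integral_le_of_norm_le ((hIE.add hIE2).const_mul M)
        rw [ae_restrict_iff' hSm]
        refine Eventually.of_forall fun t ht => ?_
        rw [← mul_sub, norm_mul, ← Complex.ofReal_sub, Complex.norm_real, Real.norm_eq_abs]
        exact mul_le_mul (hM t ht) (hpt t) (abs_nonneg _) hM0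
    _ = M * ((∫ t in S, (Ed X r).indicator (fun _ => (1 : ℝ)) t) + (volume.restrict S).real univ * E) := by
        rw [integral_const_mul, integral_add hIE hIE2, integral_const, smul_eq_mul]
    _ ≤ M * (4 * r + 3 * X * E) := by
        apply mul_le_mul_of_nonneg_left _ hM0
        exact add_le_add hEdvol (mul_le_mul_of_nonneg_right hvol hE0.le)

end Pool.Agent.N30.HM
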