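import Pool.Agent.N30.HM.Ai

set_option autoImplicit false

/-! The sharp integral over a dyadic interval and over `[1, T]`. -/

open Complex MeasureTheory Set Filter Topology Polynomial

namespace Pool.Agent.N30.HM

open Pool.Agent.W188.QS Pool.Agent.N30.MZ Pool.Agent.N30.OD

theorem step_c {f : ℝ → ℂ} (hf : Measurable f) (hg : ∀ η : ℝ, 0 < η → ∃ C T₀ : ℝ, ∀ t : ℝ, T₀ ≤ t → ‖f t‖ ≤ C * t ^ η)
    {C δ B T₀ : ℝ} (hC : 0 ≤ C) (hδ : 0 < δ) (hδ8 : δ ≤ 1 / 8) (hB : 20 ≤ B)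
    (hw : ∀ T Δ : ℝ, T₀ ≤ T → T ^ (1 - δ) ≤ Δ → B * Δ * √(Real.log T) ≤ T →
      ‖∫ t in (T / 2)..(3 * T / 2), f t * ((gg T Δ t : ℝ) : ℂ)‖ ≤ C * (Δ * T ^ (-δ))) :
    ∀ᶠ X : ℝ in atTop, ‖∫ t in X..(2 * X), f t‖ ≤ X ^ (1 - δ / 8) := by
  obtain ⟨C1, T1, h1⟩ := hg (δ / 4) (by positivity)
  have hB0 : 0 < B := by linarith
  have l2 := (isLittleO_log_rpow_atTop (by positivity : (0:ℝ) < 2 * δ)).bound (by positivity : (0:ℝ) < (1 / (4 * B)) ^ 2)
  have l3 := (isLittleO_log_rpow_atTop hδ).bound (by norm_num : (0:ℝ) < 1 / 8)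
  have l4 : ∀ᶠ X : ℝ in atTop, 15 * |C1| + C ≤ X ^ (δ / 8) :=
    (tendsto_rpow_atTop (by positivity : 0 < δ / 8)).eventually_ge_atTop _
  have l5 : ∀ᶠ X : ℝ in atTop, (4 : ℝ) ≤ X ^ (δ / 2) := (tendsto_rpow_atTop (by positivity : 0 < δ / 2)).eventually_ge_atTop _
  have l2' := (tendsto_id.const_mul_atTop (by norm_num : (0:ℝ) < 2)).eventually l2
  filter_upwards [l2', l3, l4, l5, eventually_ge_atTop (max 200 T₀), eventually_ge_atTop (2 * T1)] with X h2 h3 h4 h5 hX hXT1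
  have hX200 : 200 ≤ X := (le_max_left _ _).trans hX
  have hXT : T₀ ≤ X := (le_max_right _ _).trans hX
  have hX0 : 0 < X := by linarith
  have hL1 : 1 ≤ Real.log X := by
    rw [Real.le_log_iff_exp_le hX0]
    have := Real.exp_one_lt_d9
    linarith
  obtain ⟨Δ, hΔ⟩ : ∃ Δ, Δ = (2 * X) ^ (1 - δ) := ⟨_, rfl⟩
  have hΔ0 : 0 < Δ := by rw [hΔ]; positivity
  obtain ⟨r, hr⟩ : ∃ r, r = X ^ (1 - δ / 2) := ⟨_, rfl⟩
  have hr0 : 0 ≤ r := by rw [hr]; positivity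
  have hr1 : 1 ≤ r := by rw [hr]; exact Real.one_le_rpow (by linarith) (by linarith)
  have hrX : r ≤ X / 4 := by
    have e1 : X ^ (1 - δ / 2) * X ^ (δ / 2) = X := by rw [← Real.rpow_add hX0]; norm_num
    rw [← hr] at e1
    nlinarith
  obtain ⟨M, hM⟩ : ∃ M, M = 3 * |C1| * X ^ (δ / 4) := ⟨_, rfl⟩
  have hM0 : 0 ≤ M := by rw [hM]; positivity
  have hMb : ∀ t ∈ Ioo (X / 2) (3 * X), ‖f t‖ ≤ M := by
    intro t ht
    have ht0 : 0 < t := by linarith [ht.1]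
    refine (h1 t (by linarith [ht.1])).trans ?_
    have e1 : t ^ (δ / 4) ≤ 3 * X ^ (δ / 4) := by
      calc t ^ (δ / 4) ≤ (3 * X) ^ (δ / 4) := Real.rpow_le_rpow ht0.le ht.2.le (by positivity)
        _ = 3 ^ (δ / 4) * X ^ (δ / 4) := Real.mul_rpow (by norm_num) hX0.le
        _ ≤ 3 * X ^ (δ / 4) := by
            apply mul_le_mul_of_nonneg_right _ (by positivity)
            calc (3:ℝ) ^ (δ / 4) ≤ 3 ^ (1 : ℝ) := Real.rpow_le_rpow_of_exponent_le (by norm_num) (by linarith)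
              _ = 3 := Real.rpow_one 3
    calc C1 * t ^ (δ / 4) ≤ |C1| * t ^ (δ / 4) := mul_le_mul_of_nonneg_right (le_abs_self _) (by positivity)
      _ ≤ |C1| * (3 * X ^ (δ / 4)) := mul_le_mul_of_nonneg_left e1 (abs_nonneg _)
      _ = M := by rw [hM]; ring
  have q1 := cutc hf hX0 hΔ0 hr0 hrX hMb
  have hsp0 : 0 < √Real.pi := Real.sqrt_pos.2 Real.pi_pos
  have hsp1 : 1 ≤ √Real.pi := by
    rw [Real.one_le_sqrt]
    have := Real.pi_gt_three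
    linarith
  -- condition on `Δ`
  have hwin : ∀ τ ∈ Icc X (2 * X), τ ^ (1 - δ) ≤ Δ ∧ B * Δ * √(Real.log τ) ≤ τ := by
    intro τ hτ
    have hτ0 : 0 < τ := by linarith [hτ.1]
    constructor
    · rw [hΔ]
      exact Real.rpow_le_rpow hτ0.le hτ.2 (by linarith)
    · simp only [id_eq] at h2
      have hl0 : 0 ≤ Real.log (2 * X) := Real.log_nonneg (by linarith)
      rw [Real.norm_of_nonneg hl0, Real.norm_of_nonneg (by positivity)] at h2
      have h5 : √(Real.log τ) ≤ 1 / (4 * B) * (2 * X) ^ δ := by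
        apply Real.sqrt_le_iff.2
        refine ⟨by positivity, ?_⟩
        refine (Real.log_le_log hτ0 hτ.2).trans (h2.trans (le_of_eq ?_))
        rw [mul_pow, ← Real.rpow_natCast ((2 * X) ^ δ), ← Real.rpow_mul (by positivity)]
        congr 2
        push_cast
        ring
      have h6 : Δ * (2 * X) ^ δ = 2 * X := by
        rw [hΔ, ← Real.rpow_add (by positivity)]
        norm_num
      calc B * Δ * √(Real.log τ) ≤ B * Δ * (1 / (4 * B) * (2 * X) ^ δ) := mul_le_mul_of_nonneg_left h5 (by positivity)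
        _ = 1 / 4 * (Δ * (2 * X) ^ δ) := by field_simp
        _ = X / 2 := by rw [h6]; ring
        _ ≤ τ := by linarith [hτ.1]
  -- tail
  have hE : 3 * X * Real.exp (-(r / Δ) ^ 2) ≤ r := by
    have h8 : 2 * Real.log X ≤ (r / Δ) ^ 2 := by
      rw [Real.norm_of_nonneg (by linarith), Real.norm_of_nonneg (by positivity)] at h3
      have h10 : Δ ≤ 2 * X ^ (1 - δ) := by
        rw [hΔ, Real.mul_rpow (by norm_num) hX0.le]
        apply mul_le_mul_of_nonneg_right _ (by positivity)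
        calc (2:ℝ) ^ (1 - δ) ≤ 2 ^ (1 : ℝ) := Real.rpow_le_rpow_of_exponent_le (by norm_num) (by linarith)
          _ = 2 := Real.rpow_one 2
      have h11 : 1 / 2 * X ^ (δ / 2) ≤ r / Δ := by
        rw [le_div_iff₀ hΔ0]
        calc 1 / 2 * X ^ (δ / 2) * Δ ≤ 1 / 2 * X ^ (δ / 2) * (2 * X ^ (1 - δ)) := mul_le_mul_of_nonneg_left h10 (by positivity)
          _ = X ^ (δ / 2) * X ^ (1 - δ) := by ring
          _ = r := by rw [hr, ← Real.rpow_add hX0]; congr 1; ring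
      calc 2 * Real.log X ≤ 1 / 4 * X ^ δ := by linarith
        _ = (1 / 2 * X ^ (δ / 2)) ^ 2 := by
            rw [mul_pow, ← Real.rpow_natCast (X ^ (δ / 2)), ← Real.rpow_mul hX0.le]
            congr 1
            · norm_num
            · congr 1
              push_cast
              ring
        _ ≤ (r / Δ) ^ 2 := pow_le_pow_left₀ (by positivity) h11 2
    have h9 : Real.exp (-(r / Δ) ^ 2) ≤ (X ^ 2)⁻¹ := by
      have e1 : (X ^ 2)⁻¹ = Real.exp (-(2 * Real.log X)) := by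
        rw [Real.exp_neg]
        congr 1
        have e2 : (2 * Real.log X) = ((2 : ℕ) : ℝ) * Real.log X := by push_cast; ring
        rw [e2, Real.exp_nat_mul, Real.exp_log hX0]
      rw [e1]
      apply Real.exp_le_exp.2
      linarith
    calc 3 * X * Real.exp (-(r / Δ) ^ 2) ≤ 3 * X * (X ^ 2)⁻¹ := mul_le_mul_of_nonneg_left h9 (by positivity)
      _ = 3 / X := by field_simp
      _ ≤ 1 := by rw [div_le_one hX0]; linarith
      _ ≤ r := hr1
  -- window average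
  have h6 : ‖((1 / (√Real.pi * Δ) : ℝ) : ℂ) * ∫ τ in X..(2 * X), (∫ t in (τ / 2)..(3 * τ / 2), f t * ((gg τ Δ t : ℝ) : ℂ))‖ ≤ C * X ^ (1 - δ) := by
    have h7 : ∀ τ ∈ uIoc X (2 * X), ‖∫ t in (τ / 2)..(3 * τ / 2), f t * ((gg τ Δ t : ℝ) : ℂ)‖ ≤ C * (Δ * X ^ (-δ)) := by
      intro τ hτ
      rw [uIoc_of_le (by linarith)] at hτ
      have hτ' : τ ∈ Icc X (2 * X) := ⟨hτ.1.le, hτ.2⟩
      obtain ⟨w1, w2⟩ := hwin τ hτ'
      refine (hw τ Δ (hXT.trans hτ'.1) w1 w2).trans ?_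
      apply mul_le_mul_of_nonneg_left _ hC
      apply mul_le_mul_of_nonneg_left _ hΔ0.le
      exact Real.rpow_le_rpow_of_nonpos hX0 hτ'.1 (by linarith)
    have h8 := intervalIntegral.norm_integral_le_of_norm_le_const h7
    rw [show |2 * X - X| = X by rw [two_mul, add_sub_cancel_right, abs_of_pos hX0]] at h8
    rw [norm_mul, Complex.norm_real, Real.norm_of_nonneg (by positivity)]
    calc _ ≤ 1 / (√Real.pi * Δ) * (C * (Δ * X ^ (-δ)) * X) := mul_le_mul_of_nonneg_left h8 (by positivity)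
      _ = C * (X ^ (-δ) * X) / √Real.pi := by field_simp
      _ ≤ C * (X ^ (-δ) * X) := div_le_self (by positivity) hsp1
      _ = C * X ^ (1 - δ) := by
          congr 1
          nth_rewrite 2 [← Real.rpow_one X]
          rw [← Real.rpow_add hX0]
          congr 1
          ring
  obtain ⟨I1, hI1⟩ : ∃ I1, I1 = ∫ t in X..(2 * X), f t := ⟨_, rfl⟩
  obtain ⟨I2, hI2⟩ : ∃ I2, I2 = ((1 / (√Real.pi * Δ) : ℝ) : ℂ) * ∫ τ in X..(2 * X), (∫ t in (τ / 2)..(3 * τ / 2), f t * ((gg τ Δ t : ℝ) : ℂ)) := ⟨_, rfl⟩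
  rw [← hI1, ← hI2] at q1
  rw [← hI2] at h6
  rw [← hI1]
  have h7 : ‖I1‖ ≤ M * (4 * r + r) + C * X ^ (1 - δ) := by
    calc ‖I1‖ = ‖(I1 - I2) + I2‖ := by rw [sub_add_cancel]
      _ ≤ ‖I1 - I2‖ + ‖I2‖ := norm_add_le _ _
      _ ≤ _ := add_le_add (q1.trans (mul_le_mul_of_nonneg_left (by linarith) hM0)) h6
  refine h7.trans ?_
  have e1 : M * (4 * r + r) = 15 * |C1| * X ^ (1 - δ / 4) := by
    have e2 : X ^ (δ / 4) * r = X ^ (1 - δ / 4) := by rw [hr, ← Real.rpow_add hX0]; congr 1; ring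
    rw [← e2, hM]; ring
  have e3 : X ^ (1 - δ) ≤ X ^ (1 - δ / 4) := Real.rpow_le_rpow_of_exponent_le (by linarith) (by linarith)
  have e4 : X ^ (δ / 8) * X ^ (1 - δ / 4) = X ^ (1 - δ / 8) := by rw [← Real.rpow_add hX0]; congr 1; ring
  rw [e1, ← e4]
  calc 15 * |C1| * X ^ (1 - δ / 4) + C * X ^ (1 - δ) ≤ 15 * |C1| * X ^ (1 - δ / 4) + C * X ^ (1 - δ / 4) := by
        have := mul_le_mul_of_nonneg_left e3 hC
        linarith
    _ = (15 * |C1| + C) * X ^ (1 - δ / 4) := by ring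
    _ ≤ _ := mul_le_mul_of_nonneg_right h4 (by positivity)

/-- the integral over `[1, T]` -/
theorem sharp_c {f : ℝ → ℂ} (hf : Measurable f) (hg : ∀ η : ℝ, 0 < η → ∃ C T₀ : ℝ, ∀ t : ℝ, T₀ ≤ t → ‖f t‖ ≤ C * t ^ η)
    (hi : ∀ a b : ℝ, 1 ≤ a → 1 ≤ b → IntervalIntegrable f volume a b)
    {C δ B T₀ : ℝ} (hC : 0 ≤ C) (hδ : 0 < δ) (hδ8 : δ ≤ 1 / 8) (hB : 20 ≤ B)
    (hw : ∀ T Δ : ℝ, T₀ ≤ T → T ^ (1 - δ) ≤ Δ → B * Δ * √(Real.log T) ≤ T →
      ‖∫ t in (T / 2)..(3 * T / 2), f t * ((gg T Δ t : ℝ) : ℂ)‖ ≤ C * (Δ * T ^ (-δ))) :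
    ∃ K X₁ : ℝ, 0 ≤ K ∧ 1 ≤ X₁ ∧ ∀ T : ℝ, X₁ ≤ T → ‖∫ t in (1 : ℝ)..T, f t‖ ≤ K * T ^ (1 - δ / 8) := by
  obtain ⟨X₀, hX₀⟩ := eventually_atTop.1 (step_c hf hg hC hδ hδ8 hB hw)
  obtain ⟨X1, hX1⟩ : ∃ X1, X1 = max X₀ 1 := ⟨_, rfl⟩
  have h11 : 1 ≤ X1 := by rw [hX1]; exact le_max_right _ _
  have h01 : X₀ ≤ X1 := by rw [hX1]; exact le_max_left _ _
  obtain ⟨K, hK⟩ : ∃ K, K = ∫ t in (1:ℝ)..(2 * X1), ‖f t‖ := ⟨_, rfl⟩
  have hK0 : 0 ≤ K := by
    rw [hK]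
    exact intervalIntegral.integral_nonneg (by linarith) fun t _ => norm_nonneg _
  have hrp : ∀ X : ℝ, X1 ≤ X → X ^ (1 - δ / 8) ≤ 3 / 4 * (2 * X) ^ (1 - δ / 8) := by
    intro X hX
    have hX0 : 0 < X := by linarith
    rw [Real.mul_rpow (by norm_num) hX0.le, ← mul_assoc]
    apply le_mul_of_one_le_left (by positivity)
    have h1 : (2:ℝ) ^ (3 / 4 : ℝ) ≤ 2 ^ (1 - δ / 8) := Real.rpow_le_rpow_of_exponent_le (by norm_num) (by linarith)
    have h2 : (4 / 3 : ℝ) ≤ 2 ^ (3 / 4 : ℝ) := by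
      have h3 : ((4 / 3 : ℝ) ^ (4 : ℕ)) ≤ ((2:ℝ) ^ (3 / 4 : ℝ)) ^ (4 : ℕ) := by
        rw [← Real.rpow_natCast ((2:ℝ) ^ (3 / 4 : ℝ)), ← Real.rpow_mul (by norm_num)]
        norm_num
      exact le_of_pow_le_pow_left₀ (by norm_num) (by positivity) h3
    linarith
  have hd := dyad (h := fun X => X ^ (1 - δ / 8)) (D := fun T => ‖∫ t in (1 : ℝ)..T, f t‖)
    (θ := 3 / 4) (X₀ := X1) (K := K) (by norm_num) (by norm_num) (by linarith) (fun X hX => by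
      have hX0 : 0 < X := by linarith
      exact ⟨by positivity, hrp X hX⟩) (fun T' h1 h2 => by
      rw [abs_norm, hK]
      refine (intervalIntegral.norm_integral_le_integral_norm (by linarith)).trans ?_
      apply intervalIntegral.integral_mono_interval le_rfl (by linarith) h2
      · exact Eventually.of_forall fun t => norm_nonneg _
      · exact (hi 1 (2 * X1) le_rfl (by linarith)).norm) (fun X hX => by
      have g0 := hX₀ X (h01.trans hX)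
      have hX1' : 1 ≤ X := h11.trans hX
      have e1 : (∫ t in (1:ℝ)..(2 * X), f t) - ∫ t in (1:ℝ)..X, f t = ∫ t in X..(2 * X), f t := by
        rw [← intervalIntegral.integral_add_adjacent_intervals (hi 1 X le_rfl hX1') (hi X (2 * X) hX1' (by linarith))]
        ring
      refine (abs_norm_sub_norm_le _ _).trans ?_
      rw [e1]
      exact g0)
  refine ⟨K + 4, X1, by linarith, h11, fun T hT => ?_⟩
  have h1 := hd T hT
  rw [abs_norm] at h1
  have hT1 : 1 ≤ T := h11.trans hT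
  have h2 : 1 ≤ T ^ (1 - δ / 8) := Real.one_le_rpow hT1 (by linarith)
  have h3 : K * 1 ≤ K * T ^ (1 - δ / 8) := mul_le_mul_of_nonneg_left h2 hK0
  rw [add_mul]
  have e : T ^ (1 - δ / 8) / (1 - 3 / 4) = 4 * T ^ (1 - δ / 8) := by ring
  rw [e] at h1
  linarith

end Pool.Agent.N30.HM
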