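import Pool.Agent.N30.HM.Aj

set_option autoImplicit false

/-! The mixed moments with a sharp cut-off, from a pointwise bound of zeta; taking roots. -/

open Complex MeasureTheory Set Filter Topology Polynomial

namespace Pool.Agent.N30.HM

open Pool.Agent.W188.QS Pool.Agent.N30.MZ Pool.Agent.N30.OD

lemma eval_log_bd (R : ℝ[X]) {η : ℝ} (hη : 0 < η) : ∃ C : ℝ, 0 ≤ C ∧ ∀ᶠ t : ℝ in atTop,
    |R.eval (Real.log (t / (2 * Real.pi)))| ≤ C * t ^ η := by
  obtain ⟨C, hC, h⟩ := Pool.Agent.TH935.LP.poly_bd R η hη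
  refine ⟨C, hC, ?_⟩
  filter_upwards [eventually_ge_atTop (2 * Real.pi)] with t ht
  have hp := Real.pi_pos
  have h1 : 1 ≤ t / (2 * Real.pi) := by rw [le_div_iff₀ (by positivity)]; linarith
  have ht0 : 0 < t := by have : 0 < 2 * Real.pi := by positivity
                         linarith
  refine (h _ h1).trans ?_
  apply mul_le_mul_of_nonneg_left _ hC
  apply Real.rpow_le_rpow (by positivity) _ hη.le
  apply div_le_self ht0.le
  have := Real.pi_gt_three
  linarith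

/-- antiderivative -/
lemma main_anti (P : ℝ[X]) {T : ℝ} (hT : 1 ≤ T) : ∫ t in (1 : ℝ)..T, (P + derivative P).eval (Real.log (t / (2 * Real.pi))) =
    T * P.eval (Real.log (T / (2 * Real.pi))) - P.eval (Real.log (1 / (2 * Real.pi))) := by
  have hp : (2 * Real.pi) ≠ 0 := by positivity
  have hd : ∀ t ∈ uIcc 1 T, HasDerivAt (fun t : ℝ => t * P.eval (Real.log (t / (2 * Real.pi))))
      ((P + derivative P).eval (Real.log (t / (2 * Real.pi)))) t := by
    intro t ht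
    rw [uIcc_of_le hT] at ht
    have ht0 : t ≠ 0 := by linarith [ht.1]
    have h1 : HasDerivAt (fun t : ℝ => t / (2 * Real.pi)) (1 / (2 * Real.pi)) t := (hasDerivAt_id t).div_const _
    have h2 := h1.log (div_ne_zero ht0 hp)
    have h3 := (P.hasDerivAt (Real.log (t / (2 * Real.pi)))).comp t h2
    have h4 := (hasDerivAt_id t).mul h3
    refine h4.congr_deriv ?_
    rw [eval_add]
    simp only [id_eq, one_mul, Function.comp]
    field_simp
  have hc : IntervalIntegrable (fun t : ℝ => (P + derivative P).eval (Real.log (t / (2 * Real.pi)))) volume 1 T := by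
    apply ContinuousOn.intervalIntegrable
    apply (P + derivative P).continuous.comp_continuousOn
    intro t ht
    rw [uIcc_of_le hT] at ht
    have ht0 : t / (2 * Real.pi) ≠ 0 := div_ne_zero (by linarith [ht.1]) hp
    exact (ContinuousAt.log (continuousAt_id.div_const _) ht0).continuousWithinAt
  rw [intervalIntegral.integral_eq_sub_of_hasDerivAt hd hc, one_mul]

lemma tw_growth (K m : ℕ) (hK : 1 ≤ K) (H : Expo 0) {η : ℝ} (hη : 0 < η) : ∃ C : ℝ, 0 ≤ C ∧ ∀ᶠ t : ℝ in atTop,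
    ‖tw K m t‖ ≤ C * t ^ η := by
  have hK0 : (0:ℝ) < K := by exact_mod_cast hK
  obtain ⟨C0, T0, h⟩ := H (η / K) (by positivity)
  refine ⟨|C0| ^ K, by positivity, ?_⟩
  filter_upwards [eventually_ge_atTop T0, eventually_gt_atTop 0] with t ht ht0
  refine (tw_norm_le K m t).trans ?_
  have h1 : ‖zz t‖ ≤ |C0| * t ^ (η / K) := by
    refine (h t ht).trans ?_
    rw [zero_add]
    exact mul_le_mul_of_nonneg_right (le_abs_self _) (by positivity)
  calc ‖zz t‖ ^ K ≤ (|C0| * t ^ (η / K)) ^ K := pow_le_pow_left₀ (norm_nonneg _) h1 K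
    _ = |C0| ^ K * t ^ η := by
        rw [mul_pow, ← Real.rpow_natCast (t ^ (η / K)), ← Real.rpow_mul ht0.le]
        congr 2
        field_simp

/-- the mixed moments with a sharp cut-off, under the Lindelöf hypothesis -/
theorem sharp_mixed {K : ℕ} (hK : 2 ≤ K) (H : Expo 0) {P : ℝ[X]} {C δ B T₀ : ℝ} (hC : 0 ≤ C) (hδ : 0 < δ) (hδ8 : δ ≤ 1 / 8) (hB : 20 ≤ B)
    (hw : ∀ T Δ : ℝ, T₀ ≤ T → T ^ (1 - δ) ≤ Δ → B * Δ * √(Real.log T) ≤ T →
    ‖∫ t in (T / 2)..(3 * T / 2), (tw K (K - 2) t - (((P + derivative P).eval (Real.log (t / (2 * Real.pi))) : ℝ) : ℂ)) * ((gg T Δ t : ℝ) : ℂ)‖ ≤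
      C * (Δ * T ^ (-δ))) :
    ∃ C' X₁ : ℝ, ∀ T : ℝ, X₁ ≤ T → ‖AA K (K - 2) T - ((T * P.eval (Real.log (T / (2 * Real.pi))) : ℝ) : ℂ)‖ ≤ C' * T ^ (1 - δ / 8) := by
  obtain ⟨R, hR⟩ : ∃ R, R = P + derivative P := ⟨_, rfl⟩
  rw [← hR] at hw
  have hmR : Measurable (fun t : ℝ => R.eval (Real.log (t / (2 * Real.pi)))) :=
    R.continuous.measurable.comp (Real.measurable_log.comp (measurable_id.div_const _))
  have hf : Measurable (fun t : ℝ => tw K (K - 2) t - ((R.eval (Real.log (t / (2 * Real.pi))) : ℝ) : ℂ)) :=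
    (tw_meas K (K - 2)).sub (Complex.measurable_ofReal.comp hmR)
  have hRi : ∀ a b : ℝ, 1 ≤ a → 1 ≤ b → IntervalIntegrable (fun t : ℝ => R.eval (Real.log (t / (2 * Real.pi)))) volume a b := by
    intro a b ha hb
    apply ContinuousOn.intervalIntegrable
    apply R.continuous.comp_continuousOn
    intro t ht
    have ht0 : 0 < t := by
      rcases mem_uIcc.1 ht with h | h <;> linarith [h.1]
    have ht1 : t / (2 * Real.pi) ≠ 0 := by
      have := Real.pi_pos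
      positivity
    exact (ContinuousAt.log (continuousAt_id.div_const _) ht1).continuousWithinAt
  have hRic : ∀ a b : ℝ, 1 ≤ a → 1 ≤ b → IntervalIntegrable (fun t : ℝ => ((R.eval (Real.log (t / (2 * Real.pi))) : ℝ) : ℂ)) volume a b :=
    fun a b ha hb => ⟨(hRi a b ha hb).1.ofReal, (hRi a b ha hb).2.ofReal⟩
  obtain ⟨K1, X1, hK1, hX1, h1⟩ := sharp_c hf (fun η hη => by
    obtain ⟨C1, hC1, h1⟩ := tw_growth K (K - 2) (by omega) H hη
    obtain ⟨C2, hC2, h2⟩ := eval_log_bd R hη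
    obtain ⟨T1, h3⟩ := eventually_atTop.1 (h1.and h2)
    refine ⟨C1 + C2, T1, fun t ht => ?_⟩
    obtain ⟨g1, g2⟩ := h3 t ht
    refine (norm_sub_le _ _).trans ?_
    rw [Complex.norm_real, Real.norm_eq_abs, add_mul]
    exact add_le_add g1 g2) (fun a b ha hb => (tw_ii K (K - 2) a b).sub (hRic a b ha hb)) hC hδ hδ8 hB hw
  obtain ⟨D, hD⟩ : ∃ D, D = ‖AA K (K - 2) 1‖ + |P.eval (Real.log (1 / (2 * Real.pi)))| := ⟨_, rfl⟩
  have hD0 : 0 ≤ D := by rw [hD]; positivity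
  refine ⟨K1 + D, X1, fun T hT => ?_⟩
  have hT1 : 1 ≤ T := hX1.trans hT
  have h2 := h1 T hT
  rw [intervalIntegral.integral_sub (tw_ii K (K - 2) 1 T) (hRic 1 T le_rfl hT1), intervalIntegral.integral_ofReal, hR,
    main_anti P hT1] at h2
  have e1 : AA K (K - 2) T = AA K (K - 2) 1 + ∫ t in (1:ℝ)..T, tw K (K - 2) t := by
    unfold AA
    rw [intervalIntegral.integral_add_adjacent_intervals (tw_ii K (K - 2) 0 1) (tw_ii K (K - 2) 1 T)]
  have e2 : AA K (K - 2) T - ((T * P.eval (Real.log (T / (2 * Real.pi))) : ℝ) : ℂ) =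
      ((∫ t in (1:ℝ)..T, tw K (K - 2) t) - ((T * P.eval (Real.log (T / (2 * Real.pi))) - P.eval (Real.log (1 / (2 * Real.pi))) : ℝ) : ℂ)) +
      (AA K (K - 2) 1 - ((P.eval (Real.log (1 / (2 * Real.pi))) : ℝ) : ℂ)) := by
    rw [e1]; push_cast; ring
  rw [e2]
  have h3 : ‖AA K (K - 2) 1 - ((P.eval (Real.log (1 / (2 * Real.pi))) : ℝ) : ℂ)‖ ≤ D := by
    rw [hD]
    refine (norm_sub_le _ _).trans ?_
    rw [Complex.norm_real, Real.norm_eq_abs]
  have h4 : 1 ≤ T ^ (1 - δ / 8) := Real.one_le_rpow hT1 (by linarith)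
  refine (norm_add_le _ _).trans ((add_le_add h2 h3).trans ?_)
  rw [add_mul]
  have := mul_le_mul_of_nonneg_left h4 hD0
  linarith

/-- taking roots -/
lemma root {K : ℕ} (hK : 1 ≤ K) {a : ℝ}
    (H : ∀ ε : ℝ, 0 < ε → ∃ C T₀ : ℝ, ∀ T : ℝ, T₀ ≤ T → ‖zz T‖ ^ K ≤ C * T ^ (a + ε)) : Expo (a / K) := by
  intro ε hε
  have hK0 : (0:ℝ) < K := by exact_mod_cast hK
  obtain ⟨C, T₀, h⟩ := H (K * ε) (by positivity)
  refine ⟨|C| ^ (1 / (K : ℝ)), max T₀ 1, fun T hT => ?_⟩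
  have hT1 : 1 ≤ T := (le_max_right _ _).trans hT
  have hT0 : 0 < T := by linarith
  have h1 := h T ((le_max_left _ _).trans hT)
  have h2 : ‖zz T‖ ^ K ≤ |C| * T ^ (a + K * ε) := h1.trans (mul_le_mul_of_nonneg_right (le_abs_self _) (by positivity))
  have h3 : (|C| ^ (1 / (K : ℝ)) * T ^ (a / K + ε)) ^ K = |C| * T ^ (a + K * ε) := by
    rw [mul_pow, ← Real.rpow_natCast (|C| ^ (1 / (K : ℝ))), ← Real.rpow_mul (abs_nonneg _), ← Real.rpow_natCast (T ^ (a / K + ε)),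
      ← Real.rpow_mul hT0.le]
    congr 1
    · rw [one_div, inv_mul_cancel₀ hK0.ne', Real.rpow_one]
    · congr 1
      field_simp
  rw [← h3] at h2
  exact le_of_pow_le_pow_left₀ (by omega) (by positivity) h2

lemma Expo_mono {a b : ℝ} (h : a ≤ b) (H : Expo a) : Expo b := by
  intro ε hε
  obtain ⟨C, T₀, h1⟩ := H ε hε
  refine ⟨|C|, max T₀ 1, fun T hT => ?_⟩
  have hT1 : 1 ≤ T := (le_max_right _ _).trans hT
  refine (h1 T ((le_max_left _ _).trans hT)).trans ?_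
  apply mul_le_mul (le_abs_self _) _ (by positivity) (abs_nonneg _)
  exact Real.rpow_le_rpow_of_exponent_le hT1 (by linarith)

/-- infinitely many exponents -/
lemma Expo_inf {θ : ℝ} (H : ∀ N : ℕ, ∃ K : ℕ, N ≤ K ∧ 1 ≤ K ∧ Expo (θ / K)) : Expo 0 := by
  intro ε hε
  obtain ⟨N, hN⟩ := exists_nat_gt (2 * |θ| / ε)
  obtain ⟨K, hNK, hK, h⟩ := H N
  have hK0 : (0:ℝ) < K := by exact_mod_cast hK
  obtain ⟨C, T₀, h1⟩ := h (ε / 2) (by positivity)
  refine ⟨|C|, max T₀ 1, fun T hT => ?_⟩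
  have hT1 : 1 ≤ T := (le_max_right _ _).trans hT
  refine (h1 T ((le_max_left _ _).trans hT)).trans ?_
  apply mul_le_mul (le_abs_self _) _ (by positivity) (abs_nonneg _)
  apply Real.rpow_le_rpow_of_exponent_le hT1
  have h2 : θ / K ≤ ε / 2 := by
    rw [div_le_iff₀ hK0]
    rw [div_lt_iff₀ hε] at hN
    have h3 : (N : ℝ) ≤ K := by exact_mod_cast hNK
    have h4 : (N:ℝ) * ε ≤ K * ε := mul_le_mul_of_nonneg_right h3 hε.le
    have := le_abs_self θ
    linarith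
  linarith

end Pool.Agent.N30.HM
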