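import Pool.Agent.N30.HM.Ak

set_option autoImplicit false

/-! Any twist detects the size of zeta: version with a slowly varying main term. -/

open Complex MeasureTheory Set Filter Topology Polynomial

namespace Pool.Agent.N30.HM

open Pool.Agent.W188.QS Pool.Agent.N30.MZ Pool.Agent.N30.OD

/-- **Any twist detects the size of zeta.** -/
theorem detectG {K m : ℕ} (hK : 1 ≤ K) (hm : m % 2 = K % 2) (G : ℝ → ℂ)
    (hG : ∀ ε : ℝ, 0 < ε → ∃ C T₀ : ℝ, ∀ T : ℝ, T₀ ≤ T → ∀ u : ℝ, |u| ≤ 1 → ‖G (T + u) - G T‖ ≤ C * T ^ ε) {a : ℝ} (ha : 0 ≤ a)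
    (H : ∀ ε : ℝ, 0 < ε → ∃ C T₀ : ℝ, ∀ T : ℝ, T₀ ≤ T → ‖AA K m T - G T‖ ≤ C * T ^ (a + ε))
    {ε : ℝ} (hε : 0 < ε) : ∃ C T₀ : ℝ, ∀ T : ℝ, T₀ ≤ T → ‖zz T‖ ^ K ≤ C * T ^ (a + ε) := by
  obtain ⟨n, hn⟩ : ∃ n : ℤ, (K : ℤ) - m = 2 * n := by
    have h1 : (K : ℤ) % 2 = (m : ℤ) % 2 := by omega
    exact ⟨((K : ℤ) - m) / 2, by omega⟩
  obtain ⟨C1, hC1, hg⟩ := FZ_strip K n
  obtain ⟨C0, T0, hA⟩ := H (ε / 2) (by linarith)
  obtain ⟨C3, T3, hG3⟩ := hG (ε / 2) (by linarith)
  obtain ⟨P, hP⟩ : ∃ P : ℕ, P = K + n.natAbs := ⟨_, rfl⟩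
  rw [← hP] at hg
  obtain ⟨ρ, hρ⟩ : ∃ ρ : ℝ, ρ = min (1 / 6) (ε / (36 * (P + 1))) := ⟨_, rfl⟩
  have hρ0 : 0 < ρ := by rw [hρ]; positivity
  have hρ1 : ρ ≤ 1 / 6 := by rw [hρ]; exact min_le_left _ _
  have hρ2 : 18 * ρ * (P + 1) ≤ ε / 2 := by
    have h1 : ρ ≤ ε / (36 * (P + 1)) := by rw [hρ]; exact min_le_right _ _
    rw [le_div_iff₀ (by positivity)] at h1
    linarith
  obtain ⟨b, hb⟩ : ∃ b, b = a + ε / 2 := ⟨_, rfl⟩
  have hb0 : 0 < b := by rw [hb]; positivity
  rw [← hb] at hA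
  obtain ⟨C2, hC2⟩ : ∃ C2, C2 = 2 * (max C0 0) * 2 ^ b + 1 + |C3| := ⟨_, rfl⟩
  have hM0 : 0 ≤ max C0 0 := le_max_right _ _
  have hC20 : 1 ≤ C2 := by
    rw [hC2]
    have : 0 ≤ 2 * (max C0 0) * 2 ^ b := by positivity
    have := abs_nonneg C3
    linarith
  refine ⟨C2 / ρ, max (max (max (T0 + 1) T3) 4) (C1 * 2 ^ P * 2), fun T hT => ?_⟩
  have hT0 : T0 + 1 ≤ T := (((le_max_left _ _).trans (le_max_left _ _)).trans (le_max_left _ _)).trans hT
  have hT3 : T3 ≤ T := (((le_max_right _ _).trans (le_max_left _ _)).trans (le_max_left _ _)).trans hT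
  have hT4 : 4 ≤ T := ((le_max_right _ _).trans (le_max_left _ _)).trans hT
  have hT5 : C1 * 2 ^ P * 2 ≤ T := (le_max_right _ _).trans hT
  have hTp : 0 < T := by linarith
  have hTb : 1 ≤ T ^ b := Real.one_le_rpow (by linarith) hb0.le
  obtain ⟨B, hB⟩ : ∃ B, B = C2 * T ^ b := ⟨_, rfl⟩
  have hB1 : 1 ≤ B := by rw [hB]; exact one_le_mul_of_one_le_of_one_le hC20 hTb
  obtain ⟨E, hE⟩ : ∃ E : ℝ, E = T ^ (P + 1) := ⟨_, rfl⟩
  have hE1 : 1 ≤ E := by rw [hE]; exact one_le_pow₀ (by linarith)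
  have hball : ∀ s ∈ Metric.ball (cp T) (1 / 4 : ℝ), 1 / 4 ≤ s.re ∧ s.re ≤ 3 / 4 ∧ 1 ≤ s.im ∧ s.im ≤ 2 * T := by
    intro s hs
    rw [Metric.mem_ball, dist_eq_norm] at hs
    have h1 := (Complex.abs_re_le_norm (s - cp T)).trans hs.le
    have h2 := (Complex.abs_im_le_norm (s - cp T)).trans hs.le
    have e1 : (s - cp T).re = s.re - 1 / 2 := by unfold cp; simp
    have e2 : (s - cp T).im = s.im - T := by unfold cp; simp
    rw [e1, abs_le] at h1
    rw [e2, abs_le] at h2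
    refine ⟨by linarith [h1.1], by linarith [h1.2], by linarith [h2.1], by linarith [h2.2]⟩
  have hpt := point (F := fun s => FZ K n s) (B := B) (E := E) (ρ := ρ) (cp T) (by linarith) hE1 hρ0 hρ1
    (by
      intro s hs
      obtain ⟨-, -, h3, -⟩ := hball s hs
      exact (FZ_diff K n h3).differentiableWithinAt)
    (by
      intro s hs
      obtain ⟨h1, h2, h3, h4⟩ := hball s hs
      have h5 := hg s h1 h2 h3
      have h6 : s.im ^ P ≤ (2 * T) ^ P := pow_le_pow_left₀ (by linarith) h4 _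
      have h7 : ‖FZ K n s‖ ≤ C1 * (2 * T) ^ P := h5.trans (mul_le_mul_of_nonneg_left h6 (by linarith))
      have h8 : 1 ≤ T ^ P := one_le_pow₀ (by linarith)
      have h9 : 0 ≤ C1 * 2 ^ P := by positivity
      calc ‖FZ K n s‖ ≤ C1 * (2 * T) ^ P := h7
        _ = (C1 * 2 ^ P) * T ^ P := by rw [mul_pow]; ring
        _ ≤ T * T ^ P := mul_le_mul_of_nonneg_right (by linarith) (by positivity)
        _ = E := by rw [hE, pow_succ]; ring
        _ ≤ B * E := by nlinarith)
    (by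
      intro y hy
      rw [abs_le] at hy
      have e1 : ∫ u in (0 : ℝ)..y, FZ K n (cp T + (u : ℂ) * I) = (AA K m (T + y) - G (T + y)) -
          (AA K m T - G T) + (G (T + y) - G T) := by
        have h1 : ∫ u in (0 : ℝ)..y, FZ K n (cp T + (u : ℂ) * I) = ∫ u in (0 : ℝ)..y, tw K m (T + u) := by
          apply intervalIntegral.integral_congr
          intro u hu
          have hu1 : 1 ≤ T + u := by
            rcases mem_uIcc.1 hu with h | h <;> linarith [h.1]
          simp only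
          rw [cp_add, tw_eq hK hn hu1]
        rw [h1, intervalIntegral.integral_comp_add_left (fun t => tw K m t) T, add_zero]
        unfold AA
        rw [← intervalIntegral.integral_interval_sub_left (tw_ii K m 0 (T + y)) (tw_ii K m 0 T)]
        ring
      rw [e1]
      have h1 := hA T (by linarith)
      · have h2 := hA (T + y) (by linarith [hy.1])
        have h0 := hG3 T hT3 y (by rw [abs_le]; constructor <;> linarith [hy.1, hy.2])
        have h3 : (T + y) ^ b ≤ 2 ^ b * T ^ b := by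
          rw [← Real.mul_rpow (by norm_num) hTp.le]
          exact Real.rpow_le_rpow (by linarith) (by linarith) hb0.le
        have h4 : T ^ b ≤ 2 ^ b * T ^ b := by
          have : (1:ℝ) ≤ 2 ^ b := Real.one_le_rpow (by norm_num) hb0.le
          nlinarith
        have h5 : C0 * (T + y) ^ b ≤ max C0 0 * (2 ^ b * T ^ b) := by
          calc _ ≤ max C0 0 * (T + y) ^ b := mul_le_mul_of_nonneg_right (le_max_left _ _) (by
                apply Real.rpow_nonneg; linarith)
            _ ≤ _ := mul_le_mul_of_nonneg_left h3 hM0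
        have h6 : C0 * T ^ b ≤ max C0 0 * (2 ^ b * T ^ b) := by
          calc _ ≤ max C0 0 * T ^ b := mul_le_mul_of_nonneg_right (le_max_left _ _) (by positivity)
            _ ≤ _ := mul_le_mul_of_nonneg_left h4 hM0
        have h7 := norm_sub_le (AA K m (T + y) - G (T + y)) (AA K m T - G T)
        have h8 : C3 * T ^ (ε / 2) ≤ |C3| * T ^ b := by
          calc C3 * T ^ (ε / 2) ≤ |C3| * T ^ (ε / 2) := mul_le_mul_of_nonneg_right (le_abs_self _) (by positivity)
            _ ≤ |C3| * T ^ b := by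
                apply mul_le_mul_of_nonneg_left _ (abs_nonneg _)
                exact Real.rpow_le_rpow_of_exponent_le (by linarith) (by rw [hb]; linarith)
        have h9 : 0 ≤ 1 * T ^ b := by positivity
        calc _ ≤ 2 * (max C0 0 * (2 ^ b * T ^ b)) + |C3| * T ^ b := (norm_add_le _ _).trans (by linarith)
          _ ≤ B := by rw [hB, hC2]; linarith
)
  have e0 : FZ K n (cp T) = tw K m T := (tw_eq hK hn (by linarith)).symm
  rw [e0] at hpt
  have hnorm : ‖tw K m T‖ = ‖zz T‖ ^ K := by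
    unfold tw
    by_cases hz : zz T = 0
    · rw [hz, norm_zero, zero_pow (by omega)]
      simp
    · rw [norm_mul, Complex.norm_real, norm_pow, norm_norm, norm_pow, norm_div, Complex.norm_real, norm_norm,
        div_self (norm_ne_zero_iff.2 hz), one_pow, mul_one]
  have h2 : E ^ (18 * ρ) ≤ T ^ (ε / 2) := by
    rw [hE, ← Real.rpow_natCast, ← Real.rpow_mul hTp.le]
    apply Real.rpow_le_rpow_of_exponent_le (by linarith)
    push_cast
    linarith
  have h3 : B * E ^ (18 * ρ) / ρ ≤ C2 / ρ * T ^ (a + ε) := by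
    rw [div_le_iff₀ hρ0]
    have e1 : C2 / ρ * T ^ (a + ε) * ρ = C2 * T ^ b * T ^ (ε / 2) := by
      have e2 : T ^ (a + ε) = T ^ b * T ^ (ε / 2) := by
        rw [← Real.rpow_add hTp, hb]; congr 1; ring
      rw [e2]
      field_simp
    rw [e1, hB]
    exact mul_le_mul_of_nonneg_left h2 (by positivity)
  rw [← hnorm]
  exact hpt.trans h3

/-- the main term of the mixed moment varies slowly -/
lemma main_slow (P : ℝ[X]) : ∀ ε : ℝ, 0 < ε → ∃ C T₀ : ℝ, ∀ T : ℝ, T₀ ≤ T → ∀ u : ℝ, |u| ≤ 1 →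
    ‖(((T + u) * P.eval (Real.log ((T + u) / (2 * Real.pi))) : ℝ) : ℂ) - ((T * P.eval (Real.log (T / (2 * Real.pi))) : ℝ) : ℂ)‖ ≤ C * T ^ ε := by
  intro ε hε
  obtain ⟨C, hC, h⟩ := eval_log_bd (P + derivative P) hε
  obtain ⟨T1, h1⟩ := eventually_atTop.1 h
  refine ⟨C * 2 ^ ε, max (T1 + 1) 2, fun T hT u hu => ?_⟩
  have hT1 : T1 + 1 ≤ T := (le_max_left _ _).trans hT
  have hT2 : 2 ≤ T := (le_max_right _ _).trans hT
  rw [abs_le] at hu
  have h2 := main_anti P (T := T + u) (by linarith [hu.1])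
  have h3 := main_anti P (T := T) (by linarith)
  have hii : ∀ a b : ℝ, 1 ≤ a → 1 ≤ b → IntervalIntegrable (fun t : ℝ => (P + derivative P).eval (Real.log (t / (2 * Real.pi)))) volume a b := by
    intro a b ha hb
    apply ContinuousOn.intervalIntegrable
    apply (P + derivative P).continuous.comp_continuousOn
    intro t ht
    have ht0 : 0 < t := by
      rcases mem_uIcc.1 ht with h | h <;> linarith [h.1]
    have ht1 : t / (2 * Real.pi) ≠ 0 := by
      have := Real.pi_pos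
      positivity
    exact (ContinuousAt.log (continuousAt_id.div_const _) ht1).continuousWithinAt
  have h4 := intervalIntegral.integral_add_adjacent_intervals (hii 1 T le_rfl (by linarith)) (hii T (T + u) (by linarith) (by linarith [hu.1]))
  have e1 : (T + u) * P.eval (Real.log ((T + u) / (2 * Real.pi))) - T * P.eval (Real.log (T / (2 * Real.pi))) =
      ∫ t in T..(T + u), (P + derivative P).eval (Real.log (t / (2 * Real.pi))) := by linarith
  rw [← Complex.ofReal_sub, Complex.norm_real, e1]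
  have h5 : ∀ t ∈ uIoc T (T + u), ‖(P + derivative P).eval (Real.log (t / (2 * Real.pi)))‖ ≤ C * (2 ^ ε * T ^ ε) := by
    intro t ht
    have ht1 : T - 1 ≤ t ∧ t ≤ 2 * T := by
      rcases mem_uIoc.1 ht with h | h
      · exact ⟨by linarith [h.1], by linarith [h.2, hu.2]⟩
      · exact ⟨by linarith [h.1, hu.1], by linarith [h.2]⟩
    rw [Real.norm_eq_abs]
    refine (h1 t (by linarith)).trans ?_
    apply mul_le_mul_of_nonneg_left _ hC
    rw [← Real.mul_rpow (by norm_num) (by linarith)]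
    exact Real.rpow_le_rpow (by linarith) ht1.2 hε.le
  refine (intervalIntegral.norm_integral_le_of_norm_le_const h5).trans ?_
  rw [add_sub_cancel_left]
  have h6 : |u| ≤ 1 := abs_le.2 hu
  have h7 : 0 ≤ C * (2 ^ ε * T ^ ε) := by positivity
  calc _ ≤ C * (2 ^ ε * T ^ ε) * 1 := mul_le_mul_of_nonneg_left h6 h7
    _ = _ := by ring

end Pool.Agent.N30.HM
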