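import Pool.Agent.N30.HM.Al

set_option autoImplicit false

/-! The mixed moments and the Lindelöf hypothesis: assembly. -/

open Complex MeasureTheory Set Filter Topology Polynomial

namespace Pool.Agent.N30.HM

open Pool.Agent.W188.QS Pool.Agent.N30.MZ Pool.Agent.N30.OD

lemma tw_mixed {K : ℕ} (hK : 2 ≤ K) (t : ℝ) : tw K (K - 2) t = zz t ^ (K - 1) * (starRingEnd ℂ) (zz t) := by
  obtain ⟨j, rfl⟩ : ∃ j, K = j + 2 := ⟨K - 2, by omega⟩
  have e1 : j + 2 - 2 = j := by omega
  have e2 : j + 2 - 1 = j + 1 := by omega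
  rw [e1, e2]
  unfold tw
  by_cases hz : zz t = 0
  · rw [hz]; simp
  · have hn : (‖zz t‖ : ℂ) ≠ 0 := by exact_mod_cast norm_ne_zero_iff.2 hz
    have h1 : zz t * (starRingEnd ℂ) (zz t) = (‖zz t‖ : ℂ) ^ 2 := Complex.mul_conj' (zz t)
    rw [pow_succ (zz t) j, mul_assoc, h1, div_pow]
    push_cast
    rw [pow_add]
    field_simp

/-- the leading term -/
lemma lead_tendsto {P : ℝ[X]} {r : ℕ} (hd : P.natDegree ≤ r) {c : ℝ} (hc : P.coeff r = c) :
    Tendsto (fun T : ℝ => P.eval (Real.log (T / (2 * Real.pi))) / Real.log T ^ r) atTop (𝓝 c) := by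
  have hp := Real.pi_pos
  -- `x = log (T / 2π)`
  have h1 : Tendsto (fun T : ℝ => Real.log (T / (2 * Real.pi)) / Real.log T) atTop (𝓝 1) := by
    have h2 : Tendsto (fun T : ℝ => 1 - Real.log (2 * Real.pi) / Real.log T) atTop (𝓝 (1 - 0)) :=
      (tendsto_const_nhds.div_atTop Real.tendsto_log_atTop).const_sub 1
    rw [sub_zero] at h2
    refine h2.congr' ?_
    filter_upwards [eventually_gt_atTop 1] with T hT
    have hl : 0 < Real.log T := Real.log_pos hT
    rw [Real.log_div (by linarith) (by positivity)]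
    field_simp
  have h2 : ∀ i : ℕ, i ≤ r → Tendsto (fun T : ℝ => P.coeff i * (Real.log (T / (2 * Real.pi)) ^ i / Real.log T ^ r)) atTop
      (𝓝 (if i = r then c else 0)) := by
    intro i hi
    by_cases hir : i = r
    · subst hir
      rw [if_pos rfl, hc]
      have h3 := (h1.pow i).const_mul c
      rw [one_pow, mul_one] at h3
      refine h3.congr fun T => ?_
      rw [div_pow]
    · rw [if_neg hir]
      have h3 : Tendsto (fun T : ℝ => (Real.log T ^ (r - i))⁻¹) atTop (𝓝 0) := by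
        apply tendsto_inv_atTop_zero.comp
        exact (tendsto_pow_atTop (by omega)).comp Real.tendsto_log_atTop
      have h4 := ((h1.pow i).mul h3).const_mul (P.coeff i)
      rw [mul_zero, mul_zero] at h4
      refine h4.congr' ?_
      filter_upwards [eventually_gt_atTop 1] with T hT
      have hl : 0 < Real.log T := Real.log_pos hT
      have e1 : Real.log T ^ r = Real.log T ^ i * Real.log T ^ (r - i) := by rw [← pow_add]; congr 1; omega
      rw [e1, div_pow]
      field_simp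
  have h3 := tendsto_finsetSum (Finset.range (r + 1)) fun i hi => h2 i (by rw [Finset.mem_range] at hi; omega)
  have h4 : ∑ i ∈ Finset.range (r + 1), (if i = r then c else 0) = c := by
    rw [Finset.sum_ite_eq']
    simp
  rw [h4] at h3
  refine h3.congr fun T => ?_
  rw [eval_eq_sum_range' (Nat.lt_succ_of_le hd), Finset.sum_div]
  exact Finset.sum_congr rfl fun i _ => by ring

/-- from the asymptotics with full main term to the leading term -/
lemma to_lead {K : ℕ} (_hK : 2 ≤ K) {P : ℝ[X]} (hd : P.natDegree ≤ K - 1) (hc : P.coeff (K - 1) = 1 / ((K - 1).factorial : ℝ)) {δ C X₁ : ℝ}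
    (hδ : 0 < δ) (h : ∀ T : ℝ, X₁ ≤ T → ‖AA K (K - 2) T - ((T * P.eval (Real.log (T / (2 * Real.pi))) : ℝ) : ℂ)‖ ≤ C * T ^ (1 - δ)) :
    Tendsto (fun T : ℝ => AA K (K - 2) T / ((T * Real.log T ^ (K - 1) : ℝ) : ℂ)) atTop (𝓝 (1 / ((K - 1).factorial : ℂ))) := by
  have h1 := lead_tendsto hd hc
  have h2 : Tendsto (fun T : ℝ => ((P.eval (Real.log (T / (2 * Real.pi))) / Real.log T ^ (K - 1) : ℝ) : ℂ)) atTop
      (𝓝 (((1 / ((K - 1).factorial : ℝ) : ℝ)) : ℂ)) := (Complex.continuous_ofReal.tendsto _).comp h1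
  have h3 : Tendsto (fun T : ℝ => AA K (K - 2) T / ((T * Real.log T ^ (K - 1) : ℝ) : ℂ) -
      ((P.eval (Real.log (T / (2 * Real.pi))) / Real.log T ^ (K - 1) : ℝ) : ℂ)) atTop (𝓝 0) := by
    apply squeeze_zero_norm' (a := fun T : ℝ => |C| * T ^ (-δ))
    · filter_upwards [eventually_ge_atTop X₁, eventually_ge_atTop (Real.exp 1)] with T hT hTe
      have hT1 : 1 < T := lt_of_lt_of_le (by have := Real.add_one_le_exp (1:ℝ); linarith) hTe
      have hT0 : 0 < T := by linarith
      have hl : 1 ≤ Real.log T := by rwa [Real.le_log_iff_exp_le hT0]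
      have hlp : 1 ≤ Real.log T ^ (K - 1) := one_le_pow₀ hl
      have e1 : AA K (K - 2) T / ((T * Real.log T ^ (K - 1) : ℝ) : ℂ) -
          ((P.eval (Real.log (T / (2 * Real.pi))) / Real.log T ^ (K - 1) : ℝ) : ℂ) =
          (AA K (K - 2) T - ((T * P.eval (Real.log (T / (2 * Real.pi))) : ℝ) : ℂ)) / ((T * Real.log T ^ (K - 1) : ℝ) : ℂ) := by
        have hl0 : ((Real.log T : ℝ) : ℂ) ≠ 0 := by
          have : Real.log T ≠ 0 := by linarith
          exact_mod_cast this
        have hT0' : (T : ℂ) ≠ 0 := by exact_mod_cast hT0.ne'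
        push_cast
        field_simp
      rw [e1, norm_div, Complex.norm_real, Real.norm_of_nonneg (by positivity)]
      rw [div_le_iff₀ (by positivity)]
      refine (h T hT).trans ?_
      have e2 : T ^ (1 - δ) = T ^ (-δ) * T := by
        nth_rewrite 3 [← Real.rpow_one T]
        rw [← Real.rpow_add hT0]; congr 1; ring
      rw [e2]
      calc C * (T ^ (-δ) * T) ≤ |C| * (T ^ (-δ) * T) := mul_le_mul_of_nonneg_right (le_abs_self _) (by positivity)
        _ = |C| * T ^ (-δ) * (T * 1) := by ring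
        _ ≤ |C| * T ^ (-δ) * (T * Real.log T ^ (K - 1)) := by
            apply mul_le_mul_of_nonneg_left _ (by positivity)
            exact mul_le_mul_of_nonneg_left hlp hT0.le
    · have := (tendsto_rpow_neg_atTop hδ).const_mul |C|
      rwa [mul_zero] at this
  have h4 := h3.add h2
  rw [zero_add] at h4
  have e : (((1 / ((K - 1).factorial : ℝ) : ℝ)) : ℂ) = 1 / ((K - 1).factorial : ℂ) := by push_cast; rfl
  rw [← e]
  refine h4.congr fun T => ?_
  ring

/-- a bound from the asymptotics -/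
lemma lead_bd {K : ℕ} {c : ℂ} (h : Tendsto (fun T : ℝ => AA K (K - 2) T / ((T * Real.log T ^ (K - 1) : ℝ) : ℂ)) atTop (𝓝 c))
    {ε : ℝ} (hε : 0 < ε) : ∃ C T₀ : ℝ, ∀ T : ℝ, T₀ ≤ T → ‖AA K (K - 2) T‖ ≤ C * T ^ (1 + ε) := by
  have h1 := h.norm
  have h2 := h1.eventually_le_const (lt_add_one ‖c‖)
  have h3 := (isLittleO_log_rpow_rpow_atTop ((K - 1 : ℕ) : ℝ) hε).bound (by norm_num : (0:ℝ) < 1)
  obtain ⟨T₀, h4⟩ := eventually_atTop.1 ((h2.and h3).and (eventually_gt_atTop 1))
  refine ⟨‖c‖ + 1, T₀, fun T hT => ?_⟩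
  obtain ⟨⟨g1, g2⟩, g3⟩ := h4 T hT
  have hT0 : 0 < T := by linarith
  have hl : 0 < Real.log T := Real.log_pos g3
  rw [norm_div, Complex.norm_real, Real.norm_of_nonneg (by positivity), div_le_iff₀ (by positivity)] at g1
  rw [Real.rpow_natCast, Real.norm_of_nonneg (by positivity), Real.norm_of_nonneg (by positivity), one_mul] at g2
  refine g1.trans ?_
  apply mul_le_mul_of_nonneg_left _ (by positivity)
  rw [Real.rpow_add hT0, Real.rpow_one]
  exact mul_le_mul_of_nonneg_left g2 hT0.le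

/-- infinitely many mixed moments -/
lemma inf_mixed (H : ∀ N : ℕ, ∃ K : ℕ, N ≤ K ∧ 2 ≤ K ∧ ∀ ε : ℝ, 0 < ε → ∃ C T₀ : ℝ, ∀ T : ℝ, T₀ ≤ T → ‖AA K (K - 2) T‖ ≤ C * T ^ (1 + ε)) :
    Expo 0 := by
  apply Expo_inf (θ := 1)
  intro N
  obtain ⟨K, hNK, hK, h⟩ := H N
  refine ⟨K, hNK, by omega, ?_⟩
  apply root (by omega)
  intro ε hε
  apply detectG (m := K - 2) (by omega) (by omega) (fun _ => 0) _ (by norm_num) _ hε
  · intro ε _
    refine ⟨0, 1, fun T _ u _ => ?_⟩
    simp
  · intro ε hε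
    obtain ⟨C, T₀, h1⟩ := h ε hε
    refine ⟨C, T₀, fun T hT => ?_⟩
    rw [sub_zero]
    exact h1 T hT

end Pool.Agent.N30.HM
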