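import Pool.Agent.N30.HM.Al
import Pool.Agent.W22.EH.EX
import Pool.Agent.W903.EH.BK
import Pool.Agent.W347.EH.KT

set_option autoImplicit false

/-! The twisted moments `m ≥ K`, uniformly in `m`; the Weyl exponent. -/

open Complex MeasureTheory Set Filter Topology Polynomial

namespace Pool.Agent.N30.HM

open Pool.Agent.W188.QS Pool.Agent.N30.MZ Pool.Agent.N30.OD
open Pool.Agent.W885.QS (fp_re fp_im fp_cont zeta_cont)

lemma right_side_unif {K : ℕ} (hK : 1 ≤ K) : ∃ C : ℝ, 0 ≤ C ∧ ∀ j : ℕ, ∀ T : ℝ, 100 ≤ T →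
    ‖(∫ t in (100 : ℝ)..T, FZ K (-(j : ℤ)) (fp t)) - (if j = 0 then 1 else 0) * T‖ ≤ C := by
  obtain ⟨C0, hC0, h0⟩ := right_side hK 0
  obtain ⟨-, -, -, -, -, -, -, -, ⟨κ, hκ0, hκ⟩, -⟩ := a_line
  refine ⟨max C0 (2 ^ K * Real.exp κ), le_max_of_le_left hC0, fun j T hT => ?_⟩
  rcases Nat.eq_zero_or_pos j with hj | hj
  · subst hj
    exact (h0 T hT).trans (le_max_left _ _)
  · refine le_trans ?_ (le_max_right _ _)
    rw [if_neg (by omega), zero_mul, sub_zero]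
    have hb : ∀ t ∈ Ioc (100 : ℝ) T, ‖FZ K (-(j : ℤ)) (fp t)‖ ≤ 2 ^ K * Real.exp κ * (1 / t ^ 2) := by
      intro t ht
      have ht1 : 1 ≤ t := by linarith [ht.1]
      have h1 := (hκ (fp t) (by rw [fp_re]; norm_num) (by rw [fp_re]) (by rw [fp_im]; exact ht1)).1
      rw [fp_re, fp_im] at h1
      have h2 : t ^ (2 : ℝ) ≤ t ^ ((4 : ℝ) - 1 / 2) := Real.rpow_le_rpow_of_exponent_le ht1 (by norm_num)
      rw [Real.rpow_two] at h2
      have h3 : Real.exp (-κ) * t ^ 2 ≤ ‖XX (fp t)‖ := (mul_le_mul_of_nonneg_left h2 (Real.exp_pos _).le).trans h1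
      have h4 : ‖XX (fp t)‖⁻¹ ≤ Real.exp κ * (1 / t ^ 2) := by
        have h5 := inv_anti₀ (by positivity) h3
        rw [mul_inv, ← Real.exp_neg, neg_neg] at h5
        rwa [one_div]
      have h6 : 1 ≤ ‖XX (fp t)‖ := XX_ge_one (by rw [fp_re]; norm_num) (by rw [fp_re]) (by rw [fp_im]; linarith [ht.1])
      have h7 : (‖XX (fp t)‖⁻¹) ^ j ≤ ‖XX (fp t)‖⁻¹ := by
        have := pow_le_pow_of_le_one (by positivity) (inv_le_one_of_one_le₀ h6) hj
        simpa using this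
      have h8 : ‖riemannZeta (fp t)‖ ^ K ≤ 2 ^ K := pow_le_pow_left₀ (norm_nonneg _)
        (Pool.Agent.W188.Ray.norm_zeta_le_two (by rw [fp_re]; norm_num)) _
      unfold FZ
      rw [norm_mul, norm_pow, norm_zpow, zpow_neg, zpow_natCast, ← inv_pow]
      calc _ ≤ 2 ^ K * (Real.exp κ * (1 / t ^ 2)) := mul_le_mul h8 (h7.trans h4) (by positivity) (by positivity)
        _ = _ := by ring
    have hint : IntervalIntegrable (fun t : ℝ => 2 ^ K * Real.exp κ * (1 / t ^ 2)) volume 100 T := by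
      apply ContinuousOn.intervalIntegrable
      intro t ht
      rw [uIcc_of_le hT] at ht
      have ht0 : t ^ 2 ≠ 0 := by
        have := ht.1
        positivity
      exact (ContinuousAt.mul continuousAt_const (ContinuousAt.div continuousAt_const (continuous_pow 2).continuousAt ht0)).continuousWithinAt
    have h1 := intervalIntegral.norm_integral_le_of_norm_le hT (Eventually.of_forall hb) hint
    rw [intervalIntegral.integral_const_mul] at h1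
    have h2 := inv_sq_int hT
    calc _ ≤ 2 ^ K * Real.exp κ * ∫ t in (100 : ℝ)..T, 1 / t ^ 2 := h1
      _ ≤ 2 ^ K * Real.exp κ * 1 := mul_le_mul_of_nonneg_left h2 (by positivity)
      _ = _ := mul_one _

/-- a horizontal side -/
lemma hor_bd {K : ℕ} (j : ℕ) {T B : ℝ} (hT : 50 ≤ T) (hB : ∀ x : ℝ, 1 / 2 ≤ x → x ≤ 4 → ‖riemannZeta (⟨x, T⟩ : ℂ)‖ ≤ B) :
    ‖∫ x in (1 / 2 : ℝ)..4, FZ K (-(j : ℤ)) (⟨x, T⟩ : ℂ)‖ ≤ 7 / 2 * B ^ K := by
  have hb : ∀ x ∈ uIoc (1 / 2 : ℝ) 4, ‖FZ K (-(j : ℤ)) (⟨x, T⟩ : ℂ)‖ ≤ B ^ K := by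
    intro x hx
    rw [uIoc_of_le (by norm_num)] at hx
    have h4 : 1 ≤ ‖XX (⟨x, T⟩ : ℂ)‖ := XX_ge_one hx.1.le hx.2 hT
    unfold FZ
    rw [norm_mul, norm_pow, norm_zpow, zpow_neg, zpow_natCast, ← inv_pow]
    have h5 : ‖riemannZeta (⟨x, T⟩ : ℂ)‖ ^ K ≤ B ^ K := pow_le_pow_left₀ (norm_nonneg _) (hB x hx.1.le hx.2) _
    have hB0 : 0 ≤ B := (norm_nonneg _).trans (hB x hx.1.le hx.2)
    calc _ ≤ B ^ K * 1 :=
          mul_le_mul h5 (pow_le_one₀ (by positivity) (inv_le_one_of_one_le₀ h4)) (by positivity) (by positivity)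
      _ = _ := mul_one _
  have := intervalIntegral.norm_integral_le_of_norm_le_const hb
  rw [show |(4 : ℝ) - 1 / 2| = 7 / 2 by norm_num] at this
  linarith

/-- **The twisted moments with `m ≥ K`**, from the exponent of zeta, uniformly in `m` -/
theorem upperU {K : ℕ} (hK : 1 ≤ K) {κ : ℝ} (hκ : 0 ≤ κ) (H : Expo κ) {ε : ℝ} (hε : 0 < ε) :
    ∃ C T₀ : ℝ, ∀ m : ℕ, m % 2 = K % 2 → K ≤ m → ∀ T : ℝ, T₀ ≤ T →
      ‖AA K m T - (if m = K then 1 else 0) * T‖ ≤ C * T ^ (K * κ + ε) := by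
  have hK0 : (0 : ℝ) < K := by exact_mod_cast hK
  obtain ⟨C1, T1, hC1, h1⟩ := right_bound hκ H (ε := ε / K) (by positivity)
  obtain ⟨C2, hC2, h2⟩ := right_side_unif hK
  -- the values on the segment at height `100`
  obtain ⟨B, hB0, hB⟩ : ∃ B : ℝ, 0 ≤ B ∧ ∀ x : ℝ, 1 / 2 ≤ x → x ≤ 4 → ‖riemannZeta (⟨x, 100⟩ : ℂ)‖ ≤ B := by
    have hc : ContinuousOn (fun x : ℝ => ‖riemannZeta (⟨x, 100⟩ : ℂ)‖) (Icc (1 / 2) 4) := by
      apply ContinuousOn.norm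
      intro x _
      have h3 : ContinuousAt riemannZeta (⟨x, 100⟩ : ℂ) := by
        apply (differentiableAt_riemannZeta _).continuousAt
        intro h
        have := congrArg Complex.im h
        simp at this
      have h4 : Continuous (fun x : ℝ => (⟨x, 100⟩ : ℂ)) := by
        have : (fun x : ℝ => (⟨x, 100⟩ : ℂ)) = fun x : ℝ => (x : ℂ) + 100 * I := by
          funext x
          apply Complex.ext <;> simp
        rw [this]
        fun_prop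
      exact (ContinuousAt.comp (f := fun x : ℝ => (⟨x, 100⟩ : ℂ)) h3 h4.continuousAt).continuousWithinAt
    obtain ⟨x0, -, hx0⟩ := isCompact_Icc.exists_isMaxOn (⟨1, by norm_num, by norm_num⟩ : (Icc (1 / 2 : ℝ) 4).Nonempty) hc
    exact ⟨_, norm_nonneg _, fun x h5 h6 => hx0 ⟨h5, h6⟩⟩
  obtain ⟨A0, hA0⟩ : ∃ A0, A0 = ∫ t in (0:ℝ)..100, ‖zz t‖ ^ K := ⟨_, rfl⟩
  have hA00 : 0 ≤ A0 := by
    rw [hA0]
    exact intervalIntegral.integral_nonneg (by norm_num) fun t _ => by positivity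
  have hAA : ∀ m : ℕ, ‖AA K m 100‖ ≤ A0 := by
    intro m
    rw [hA0]
    unfold AA
    apply intervalIntegral.norm_integral_le_of_norm_le (by norm_num)
    · exact Eventually.of_forall fun t _ => tw_norm_le K m t
    · exact (zz_cont.norm.pow K).intervalIntegrable _ _
  obtain ⟨D, hD⟩ : ∃ D, D = A0 + 7 / 2 * B ^ K + C2 := ⟨_, rfl⟩
  have hD0 : 0 ≤ D := by rw [hD]; positivity
  refine ⟨D + 7 / 2 * C1 ^ K, max T1 100, fun m hm hKm T hT => ?_⟩
  obtain ⟨j, hj⟩ : ∃ j : ℕ, m = K + 2 * j := ⟨(m - K) / 2, by omega⟩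
  have hn : (K : ℤ) - m = 2 * (-(j : ℤ)) := by omega
  have hT1 : T1 ≤ T := (le_max_left _ _).trans hT
  have hT100 : 100 ≤ T := (le_max_right _ _).trans hT
  have hT0 : 0 < T := by linarith
  have hpow : 1 ≤ T ^ (K * κ + ε) := Real.one_le_rpow (by linarith) (by positivity)
  have hif : (if m = K then (1 : ℂ) else 0) = if j = 0 then 1 else 0 := by
    by_cases h : j = 0
    · rw [if_pos h, if_pos (by omega)]
    · rw [if_neg h, if_neg (by omega)]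
  have e1 : AA K m T = AA K m 100 + ∫ t in (100 : ℝ)..T, FZ K (-(j : ℤ)) (cp t) := by
    unfold AA
    rw [← intervalIntegral.integral_add_adjacent_intervals (tw_ii K m 0 100) (tw_ii K m 100 T)]
    congr 1
    apply intervalIntegral.integral_congr
    intro t ht
    rw [uIcc_of_le hT100] at ht
    exact tw_eq hK hn (by linarith [ht.1])
  rw [e1, rect K (-(j : ℤ)) (by norm_num) hT100, hif]
  have hh : ‖∫ x in (1 / 2 : ℝ)..4, FZ K (-(j : ℤ)) (⟨x, T⟩ : ℂ)‖ ≤ 7 / 2 * (C1 ^ K * T ^ (K * κ + ε)) := by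
    have h3 := hor_bd (K := K) j (T := T) (B := C1 * T ^ (κ + ε / K)) (by linarith) (fun x hx _ => h1 T hT1 x hx)
    have h4 : (C1 * T ^ (κ + ε / K)) ^ K = C1 ^ K * T ^ (K * κ + ε) := by
      rw [mul_pow, ← Real.rpow_natCast (T ^ (κ + ε / K)) K, ← Real.rpow_mul hT0.le]
      congr 2
      field_simp
    rwa [h4] at h3
  have hh0 := hor_bd (K := K) j (T := 100) (B := B) (by norm_num) hB
  have h3 := h2 j T hT100
  obtain ⟨R, hR⟩ : ∃ R, R = (∫ t in (100 : ℝ)..T, FZ K (-(j : ℤ)) (fp t)) - (if j = 0 then (1 : ℂ) else 0) * T := ⟨_, rfl⟩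
  rw [← hR] at h3
  have e2 : AA K m 100 + ((∫ t in (100 : ℝ)..T, FZ K (-(j : ℤ)) (fp t)) -
      I * (∫ x in (1 / 2 : ℝ)..4, FZ K (-(j : ℤ)) (⟨x, 100⟩ : ℂ)) +
      I * (∫ x in (1 / 2 : ℝ)..4, FZ K (-(j : ℤ)) (⟨x, T⟩ : ℂ))) - (if j = 0 then (1 : ℂ) else 0) * T =
      (AA K m 100 - I * (∫ x in (1 / 2 : ℝ)..4, FZ K (-(j : ℤ)) (⟨x, 100⟩ : ℂ)) + R) +
      I * (∫ x in (1 / 2 : ℝ)..4, FZ K (-(j : ℤ)) (⟨x, T⟩ : ℂ)) := by rw [hR]; ring
  rw [e2]
  have h4 : ‖AA K m 100 - I * (∫ x in (1 / 2 : ℝ)..4, FZ K (-(j : ℤ)) (⟨x, 100⟩ : ℂ)) + R‖ ≤ D := by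
    rw [hD]
    refine (norm_add_le _ _).trans (add_le_add ((norm_sub_le _ _).trans ?_) h3)
    rw [norm_mul, Complex.norm_I, one_mul]
    exact add_le_add (hAA m) hh0
  refine (norm_add_le _ _).trans ?_
  rw [norm_mul, Complex.norm_I, one_mul, add_mul]
  have h5 : D * 1 ≤ D * T ^ (K * κ + ε) := mul_le_mul_of_nonneg_left hpow hD0
  linarith

/-- the exponent `1/6` (Hardy-Littlewood, Weyl) -/
lemma Expo_sixth : Expo (1 / 6) := by
  intro ε hε
  obtain ⟨T0, hT0⟩ := Pool.Agent.W22.EH.ex (Pool.Agent.W903.EH.bk Pool.Agent.W347.EH.kt)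
    Pool.Agent.W903.EH.b1 ε hε
  refine ⟨1, T0, fun T hT => ?_⟩
  rw [one_mul]
  exact (hT0 T hT).1

end Pool.Agent.N30.HM
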